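import Mathlib
import Pool.Agent.Helper404.KMC
import Pool.Agent.H393R2.Geom3

/-!
# Most real points see the integer polynomials of degree at most `d` as a well rounded lattice (helper30)

`Cov d x B b`: every real polynomial of degree at most `d` differs from an integer one by a polynomial
all of whose Taylor coefficients at `x` are at most `B`, the value at `x` being at most `b`.
Quantitative nondivergence (`Pool.Agent.Helper404.KMC`) and Minkowski's second theorem
(`Pool.Agent.H393R2.Geom3`) show that this holds with `B = C ε⁻ᵈ R` and `b = C ε⁻ᵈ R⁻ᵈ` for all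
`x` of an interval of length one outside a set of measure `C ε ^ α`.
-/

set_option autoImplicit false

namespace Pool.Agent.W5h30.LL

open Polynomial MeasureTheory Set

/-- covering by integer polynomials, seen from `x` -/
def Cov (d : ℕ) (x B b : ℝ) : Prop :=
  ∀ c : ℝ[X], c.natDegree ≤ d → ∃ l : ℤ[X], l.natDegree ≤ d ∧
    |(taylor x (c - l.map (Int.castRingHom ℝ))).coeff 0| ≤ b ∧
    ∀ k, |(taylor x (c - l.map (Int.castRingHom ℝ))).coeff k| ≤ B

lemma Cov.mono {d : ℕ} {x B b B' b' : ℝ} (h : Cov d x B b) (hB : B ≤ B') (hb : b ≤ b') :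
    Cov d x B' b' := by
  intro c hc
  obtain ⟨l, hl, h1, h2⟩ := h c hc
  exact ⟨l, hl, h1.trans hb, fun k => (h2 k).trans hB⟩

lemma taylor_map_int (k : ℤ) (l : ℤ[X]) :
    taylor (k : ℝ) (l.map (Int.castRingHom ℝ)) = (taylor k l).map (Int.castRingHom ℝ) := by
  rw [taylor_apply, taylor_apply, Polynomial.map_comp, Polynomial.map_add, map_X, map_C]
  rfl

/-- translation by an integer -/
lemma Cov.shift {d : ℕ} {x B b : ℝ} (k : ℤ) (h : Cov d (x - k) B b) : Cov d x B b := by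
  intro c hc
  obtain ⟨l, hl, h1, h2⟩ := h (taylor (k : ℝ) c) (by rw [natDegree_taylor]; exact hc)
  have key : taylor x (c - (taylor (-k) l).map (Int.castRingHom ℝ)) =
      taylor (x - k) (taylor (k : ℝ) c - l.map (Int.castRingHom ℝ)) := by
    have h3 : taylor x (c - (taylor (-k) l).map (Int.castRingHom ℝ)) =
        taylor (x - k) (taylor (k : ℝ) (c - (taylor (-k) l).map (Int.castRingHom ℝ))) := by
      rw [taylor_taylor]
      congr 1
      ring_nf
    rw [h3, map_sub, ← taylor_map_int, taylor_taylor]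
    congr 2
    push_cast
    rw [add_neg_cancel, taylor_zero]
  refine ⟨taylor (-k) l, by rw [natDegree_taylor]; exact hl, ?_, fun j => ?_⟩
  · rw [key]; exact h1
  · rw [key]; exact h2 j

lemma hd_map (k : ℕ) (l : ℤ[X]) :
    (hasseDeriv k l).map (Int.castRingHom ℝ) = hasseDeriv k (l.map (Int.castRingHom ℝ)) := by
  ext n
  rw [coeff_map, hasseDeriv_coeff, hasseDeriv_coeff, coeff_map]
  simp

/-- the weights -/
noncomputable def wt (d : ℕ) (R : ℝ) : Fin (d + 1) → ℝ := fun k => if k = 0 then (R ^ d)⁻¹ else R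

lemma wt_pos (d : ℕ) {R : ℝ} (hR : 0 < R) (k : Fin (d + 1)) : 0 < wt d R k := by
  unfold wt
  split_ifs
  · positivity
  · exact hR

lemma wt_prod (d : ℕ) {R : ℝ} (hR : 0 < R) : ∏ k, wt d R k = 1 := by
  rw [Fin.prod_univ_succ]
  have h1 : ∀ i : Fin d, wt d R i.succ = R := by
    intro i
    unfold wt
    rw [if_neg (Fin.succ_ne_zero i)]
  rw [Finset.prod_congr rfl (fun i _ => h1 i), Finset.prod_const, Finset.card_univ, Fintype.card_fin]
  unfold wt
  rw [if_pos rfl, inv_mul_cancel₀ (by positivity)]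

lemma wt_part (d : ℕ) {R : ℝ} (hR : 1 ≤ R) (j : ℕ) (hj1 : 1 ≤ j) (hj : j ≤ d + 1) :
    ∏ b : Fin j, wt d R (Fin.castLE hj b) ≤ 1 := by
  obtain ⟨m, rfl⟩ : ∃ m, j = m + 1 := ⟨j - 1, by omega⟩
  have hR0 : 0 < R := by linarith
  rw [Fin.prod_univ_succ]
  have h1 : ∀ i : Fin m, wt d R (Fin.castLE hj i.succ) = R := by
    intro i
    unfold wt
    rw [if_neg]
    intro h
    have := congrArg Fin.val h
    simp at this
  rw [Finset.prod_congr rfl (fun i _ => h1 i), Finset.prod_const, Finset.card_univ, Fintype.card_fin]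
  have h2 : wt d R (Fin.castLE hj 0) = (R ^ d)⁻¹ := by
    unfold wt
    rw [if_pos]
    ext
    simp
  rw [h2, inv_mul_le_iff₀ (by positivity), mul_one]
  exact pow_le_pow_right₀ hR (by omega)

/-- the matrix of the Taylor coefficients at `x` -/
noncomputable def Tm (d : ℕ) (x : ℝ) : Matrix (Fin (d + 1)) (Fin (d + 1)) ℝ :=
  Matrix.of fun k i => ((i : ℕ).choose (k : ℕ) : ℝ) * x ^ ((i : ℕ) - (k : ℕ))

lemma Tm_det (d : ℕ) (x : ℝ) : (Tm d x).det = 1 := by
  rw [Matrix.det_of_isUpperTriangular]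
  · refine Finset.prod_eq_one fun i _ => ?_
    unfold Tm
    rw [Matrix.of_apply, Nat.choose_self, Nat.sub_self, pow_zero]
    norm_num
  · intro i j hij
    have hij' : (j : ℕ) < i := hij
    unfold Tm
    rw [Matrix.of_apply, Nat.choose_eq_zero_of_lt hij', Nat.cast_zero, zero_mul]

/-- the polynomial with given coefficients -/
noncomputable def pv {d : ℕ} (y : Fin (d + 1) → ℝ) : ℝ[X] := ∑ i, C (y i) * X ^ (i : ℕ)

lemma pv_coeff {d : ℕ} (y : Fin (d + 1) → ℝ) (i : Fin (d + 1)) : (pv y).coeff i = y i := by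
  unfold pv
  rw [finsetSum_coeff, Finset.sum_eq_single i]
  · rw [coeff_C_mul, coeff_X_pow, if_pos rfl, mul_one]
  · intro j _ hj
    rw [coeff_C_mul, coeff_X_pow, if_neg, mul_zero]
    intro h
    exact hj (Fin.ext h.symm)
  · intro h
    exact absurd (Finset.mem_univ i) h

lemma pv_natDegree {d : ℕ} (y : Fin (d + 1) → ℝ) : (pv y).natDegree ≤ d := by
  unfold pv
  apply natDegree_sum_le_of_forall_le
  intro i _
  exact (natDegree_C_mul_X_pow_le _ _).trans (by omega)

lemma pv_of {d : ℕ} {c : ℝ[X]} (hc : c.natDegree ≤ d) : pv (fun i : Fin (d + 1) => c.coeff i) = c := by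
  ext n
  rcases le_or_gt n d with h | h
  · exact pv_coeff (fun i : Fin (d + 1) => c.coeff i) ⟨n, by omega⟩
  · rw [coeff_eq_zero_of_natDegree_lt (lt_of_le_of_lt (pv_natDegree _) h),
      coeff_eq_zero_of_natDegree_lt (by omega)]

lemma pv_taylor {d : ℕ} (y : Fin (d + 1) → ℝ) (x : ℝ) (k : Fin (d + 1)) :
    (taylor x (pv y)).coeff k = (Tm d x).mulVec y k := by
  rw [taylor_coeff]
  unfold pv
  rw [map_sum, eval_finsetSum]
  unfold Tm
  rw [Matrix.mulVec, dotProduct]
  refine Finset.sum_congr rfl fun i _ => ?_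
  rw [Matrix.of_apply, C_mul_X_pow_eq_monomial, hasseDeriv_monomial, eval_monomial]
  ring

lemma toP_pv {d : ℕ} (u : Fin (d + 1) → ℤ) :
    (Helper404.toP u).map (Int.castRingHom ℝ) = pv (fun i => (u i : ℝ)) := by
  unfold Helper404.toP pv
  rw [Polynomial.map_sum]
  refine Finset.sum_congr rfl fun i _ => ?_
  rw [Polynomial.map_mul, Polynomial.map_pow, map_X, map_C]
  rfl

lemma toP_natDegree {d : ℕ} (u : Fin (d + 1) → ℤ) : (Helper404.toP u).natDegree ≤ d :=
  Helper404.toP_natDegree u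

lemma pv_sub {d : ℕ} (y z : Fin (d + 1) → ℝ) : pv y - pv z = pv (fun i => y i - z i) := by
  unfold pv
  rw [← Finset.sum_sub_distrib]
  refine Finset.sum_congr rfl fun i _ => ?_
  rw [C_sub]
  ring

/-- the weighted matrix -/
noncomputable def Lm (d : ℕ) (R x : ℝ) : Matrix (Fin (d + 1)) (Fin (d + 1)) ℝ :=
  Matrix.diagonal (fun k => (wt d R k)⁻¹) * Tm d x

lemma Lm_det (d : ℕ) {R : ℝ} (hR : 0 < R) (x : ℝ) : (Lm d R x).det = 1 := by
  unfold Lm
  rw [Matrix.det_mul, Matrix.det_diagonal, Tm_det, mul_one, Finset.prod_inv_distrib, wt_prod d hR, inv_one]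

lemma Lm_mulVec (d : ℕ) (R x : ℝ) (y : Fin (d + 1) → ℝ) (k : Fin (d + 1)) :
    (Lm d R x).mulVec y k = (wt d R k)⁻¹ * (taylor x (pv y)).coeff k := by
  rw [pv_taylor]
  unfold Lm
  rw [← Matrix.mulVec_mulVec, Matrix.mulVec_diagonal]

open Pool.Agent.H393R2.Geom in
/-- if there are no short integer vectors then the lattice is well rounded -/
lemma cov_of {d : ℕ} {R μ x : ℝ} (hR : 1 ≤ R) (hμ : 0 < μ)
    (h : ∀ u : Fin (d + 1) → ℤ, u ≠ 0 → ∃ k : Fin (d + 1),
      μ * wt d R k ≤ |(taylor x (pv (fun i => (u i : ℝ)))).coeff k|) :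
    Cov d x ((d + 1) * ((2 * KK (d + 1)) ^ (d + 1) / μ ^ d) * R)
      ((d + 1) * ((2 * KK (d + 1)) ^ (d + 1) / μ ^ d) * (R ^ d)⁻¹) := by
  classical
  have hR0 : 0 < R := by linarith
  set L := Lm d R x with hL
  have hdet : L.det = 1 := Lm_det d hR0 x
  have hdet0 : IsUnit L.det := by rw [hdet]; exact isUnit_one
  set Ls : Matrix (Fin (d + 1)) (Fin (d + 1)) ℝ := (L⁻¹).transpose with hLs
  have hLs1 : Ls.transpose * L = 1 := by
    rw [hLs, Matrix.transpose_transpose]
    exact Matrix.nonsing_inv_mul L hdet0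
  obtain ⟨G, hG0, hGmono, hGmin⟩ := minima L Ls hLs1
  have habs : |L.det| = 1 := by rw [hdet, abs_one]
  have hprod := prod_upper L G (Nat.succ_pos d) habs hG0 hGmono hGmin
  set K : ℝ := (2 * KK (d + 1)) ^ (d + 1) with hK
  have hGne : ∀ j, G j ≠ 0 := by
    intro j hj
    apply hG0
    exact Matrix.det_eq_zero_of_row_eq_zero j (fun l => congrFun hj l)
  have hlow : ∀ j, μ ≤ ‖app L (G j)‖ := by
    intro j
    obtain ⟨k, hk⟩ := h (G j) (hGne j)
    refine le_trans ?_ (norm_le_pi_norm (app L (G j)) k)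
    rw [app_apply, hL, Lm_mulVec, Real.norm_eq_abs, abs_mul, abs_of_pos (inv_pos.2 (wt_pos d hR0 k)),
      le_inv_mul_iff₀ (wt_pos d hR0 k)]
    linarith
  have hup : ∀ j, ‖app L (G j)‖ ≤ K / μ ^ d := by
    intro j
    rw [le_div_iff₀ (by positivity)]
    refine le_trans ?_ hprod
    rw [← Finset.mul_prod_erase Finset.univ _ (Finset.mem_univ j)]
    refine mul_le_mul_of_nonneg_left ?_ (norm_nonneg _)
    calc μ ^ d = ∏ _i ∈ Finset.univ.erase j, μ := by
          rw [Finset.prod_const, Finset.card_erase_of_mem (Finset.mem_univ j), Finset.card_univ,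
            Fintype.card_fin, Nat.add_sub_cancel]
      _ ≤ _ := Finset.prod_le_prod (fun _ _ => hμ.le) (fun i _ => hlow i)
  intro c hc
  set y : Fin (d + 1) → ℝ := fun i => c.coeff i with hy
  have hcy : c = pv y := (pv_of hc).symm
  set Gr : Matrix (Fin (d + 1)) (Fin (d + 1)) ℝ := G.map (fun z : ℤ => (z : ℝ)) with hGr
  have hGrdet : IsUnit Gr.det := by
    rw [hGr, det_map_cast, isUnit_iff_ne_zero]
    exact_mod_cast hG0
  set θ : Fin (d + 1) → ℝ := Matrix.vecMul y Gr⁻¹ with hθ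
  have hyθ : Matrix.vecMul θ Gr = y := by
    rw [hθ, Matrix.vecMul_vecMul, Matrix.nonsing_inv_mul Gr hGrdet, Matrix.vecMul_one]
  set l : Fin (d + 1) → ℤ := fun i => ∑ j, ⌊θ j⌋ * G j i with hl
  refine ⟨Helper404.toP l, toP_natDegree l, ?_⟩
  have hdiff : c - (Helper404.toP l).map (Int.castRingHom ℝ) =
      pv (fun i => ∑ j, Int.fract (θ j) * (G j i : ℝ)) := by
    rw [toP_pv, hcy, pv_sub]
    congr 1
    funext i
    have h1 : y i = ∑ j, θ j * (G j i : ℝ) := by
      conv_lhs => rw [← hyθ]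
      rw [Matrix.vecMul, dotProduct]
      rfl
    rw [h1, hl]
    push_cast
    rw [← Finset.sum_sub_distrib]
    refine Finset.sum_congr rfl fun j _ => ?_
    rw [← sub_mul]
    congr 1
  have hbound : ∀ k : Fin (d + 1), |(taylor x (c - (Helper404.toP l).map (Int.castRingHom ℝ))).coeff k| ≤
      (d + 1) * (K / μ ^ d) * wt d R k := by
    intro k
    have h1 : (taylor x (c - (Helper404.toP l).map (Int.castRingHom ℝ))).coeff k =
        wt d R k * L.mulVec (fun i => ∑ j, Int.fract (θ j) * (G j i : ℝ)) k := by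
      rw [hdiff, hL, Lm_mulVec, ← mul_assoc, mul_inv_cancel₀ (wt_pos d hR0 k).ne', one_mul]
    have h2 : L.mulVec (fun i => ∑ j, Int.fract (θ j) * (G j i : ℝ)) k =
        ∑ j, Int.fract (θ j) * app L (G j) k := by
      simp only [app_apply, Matrix.mulVec, dotProduct, Finset.mul_sum]
      rw [Finset.sum_comm]
      refine Finset.sum_congr rfl fun j _ => Finset.sum_congr rfl fun i _ => ?_
      ring
    rw [h1, h2, abs_mul, abs_of_pos (wt_pos d hR0 k), mul_comm]
    refine mul_le_mul_of_nonneg_right ?_ (wt_pos d hR0 k).le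
    refine (Finset.abs_sum_le_sum_abs _ _).trans ?_
    calc ∑ j, |Int.fract (θ j) * app L (G j) k| ≤ ∑ _j : Fin (d + 1), K / μ ^ d := by
          refine Finset.sum_le_sum fun j _ => ?_
          rw [abs_mul, abs_of_nonneg (Int.fract_nonneg _)]
          calc Int.fract (θ j) * |app L (G j) k| ≤ 1 * ‖app L (G j)‖ :=
                mul_le_mul (Int.fract_lt_one _).le (norm_le_pi_norm (app L (G j)) k) (abs_nonneg _)
                  zero_le_one
            _ ≤ K / μ ^ d := by rw [one_mul]; exact hup j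
      _ = (d + 1) * (K / μ ^ d) := by
          rw [Finset.sum_const, Finset.card_univ, Fintype.card_fin, nsmul_eq_mul]
          push_cast
          ring
  have hK0 : 0 ≤ (d + 1) * (K / μ ^ d) := by
    have : (0:ℝ) ≤ K := by
      have h3 := (Finset.prod_nonneg (fun j _ => norm_nonneg (app L (G j)))).trans hprod
      exact h3
    positivity
  refine ⟨?_, fun k => ?_⟩
  · have := hbound 0
    rw [wt, if_pos rfl] at this
    exact this
  · rcases le_or_gt k d with hk | hk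
    · have h3 := hbound ⟨k, by omega⟩
      refine h3.trans (mul_le_mul_of_nonneg_left ?_ hK0)
      unfold wt
      split_ifs
      · have h4 : (R ^ d)⁻¹ ≤ 1 := inv_le_one_of_one_le₀ (one_le_pow₀ hR)
        linarith
      · exact le_rfl
    · have h3 : (taylor x (c - (Helper404.toP l).map (Int.castRingHom ℝ))).coeff k = 0 := by
        apply coeff_eq_zero_of_natDegree_lt
        rw [natDegree_taylor, hdiff]
        exact lt_of_le_of_lt (pv_natDegree _) hk
      rw [h3, abs_zero]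
      positivity

open Pool.Agent.H393R2.Geom in
/-- **most points are good** -/
theorem cov_measure (d : ℕ) (hd : 1 ≤ d) : ∃ C : ℝ, 1 ≤ C ∧ ∃ α : ℝ, 0 < α ∧ ∀ R : ℝ, 1 ≤ R →
    ∀ ε : ℝ, 0 < ε → ε ≤ 1 → ∀ m : ℤ,
      volume {x ∈ Ico (m : ℝ) (m + 1) | ¬ Cov d x (C * (ε ^ d)⁻¹ * R) (C * (ε ^ d)⁻¹ * (R ^ d)⁻¹)} ≤
        ENNReal.ofReal (C * ε ^ α) := by
  obtain ⟨ρ, hρ⟩ : ∃ ρ : ℝ, ρ = 1 / ((((d + 1) * d : ℕ) : ℝ) + 1) ^ ((d + 1) * d) := ⟨_, rfl⟩
  have hbase : (1 : ℝ) ≤ ((((d + 1) * d : ℕ) : ℝ) + 1) := by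
    have : (0 : ℝ) ≤ (((d + 1) * d : ℕ) : ℝ) := Nat.cast_nonneg _
    linarith
  have hρ0 : 0 < ρ := by rw [hρ]; positivity
  have hρ1 : ρ ≤ 1 := by
    rw [hρ, div_le_one (by positivity)]
    exact one_le_pow₀ hbase
  obtain ⟨C1, hC1⟩ : ∃ C1 : ℝ, C1 = Helper404.kmC (4 * (((d + 1) * d : ℕ) + 1) ^ 2) (d + 1) * 3 := ⟨_, rfl⟩
  obtain ⟨C2, hC2⟩ : ∃ C2 : ℝ, C2 = ((d : ℝ) + 1) * ((2 * KK (d + 1)) ^ (d + 1) / (ρ / (d + 1)) ^ d) :=
    ⟨_, rfl⟩
  have hC20 : 0 ≤ C2 := by
    rw [hC2]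
    have h1 : (0 : ℝ) ≤ KK (d + 1) := by
      have := one_le_KK (n := d + 1) (Nat.succ_pos d)
      linarith
    positivity
  refine ⟨max 1 (max C1 C2), le_max_left _ _, 1 / (((d + 1) * d : ℕ) : ℝ), ?_, ?_⟩
  · have : (0 : ℝ) < (((d + 1) * d : ℕ) : ℝ) := by
      have : 0 < (d + 1) * d := by positivity
      exact_mod_cast this
    positivity
  intro R hR ε hε hε1 m
  have hR0 : 0 < R := by linarith
  have hkm := Helper404.km_concrete (wt d R) hd (wt_pos d hR0) ρ hρ0 (by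
    intro j hj1 hj
    calc ρ ^ j * ∏ b : Fin j, wt d R (Fin.castLE hj b) ≤ ρ ^ j * 1 :=
          mul_le_mul_of_nonneg_left (wt_part d hR j hj1 hj) (by positivity)
      _ ≤ ρ := by
          rw [mul_one]
          exact pow_le_of_le_one hρ0.le hρ1 (by omega)
      _ = _ := hρ) ε hε hε1
  -- translate
  have hsub : {x ∈ Ico (m : ℝ) (m + 1) |
      ¬ Cov d x (max 1 (max C1 C2) * (ε ^ d)⁻¹ * R) (max 1 (max C1 C2) * (ε ^ d)⁻¹ * (R ^ d)⁻¹)} ⊆
      (fun x => x + (-(m : ℝ))) ⁻¹' {z ∈ Ico (-1 : ℝ) 2 | ∃ u : Fin (d + 1) → ℤ, u ≠ 0 ∧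
        ∀ k : Fin (d + 1), (d + 1) * |((hasseDeriv (k : ℕ) (Helper404.toP u)).map
          (Int.castRingHom ℝ)).eval z| < ε * ρ * wt d R k} := by
    rintro x ⟨hx, hnc⟩
    refine ⟨⟨by simp only; linarith [hx.1], by simp only; linarith [hx.2]⟩, ?_⟩
    by_contra hcon
    push Not at hcon
    apply hnc
    apply Cov.shift m
    have hd1 : (0 : ℝ) < (d : ℝ) + 1 := by positivity
    have h1 := cov_of (d := d) (R := R) (μ := ε * (ρ / (d + 1))) (x := x - m) hR (by positivity) (by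
      intro u hu
      obtain ⟨k, hk⟩ := hcon u hu
      refine ⟨k, ?_⟩
      have e1 : ((hasseDeriv (k : ℕ) (Helper404.toP u)).map (Int.castRingHom ℝ)).eval (x + -(m : ℝ)) =
          (taylor (x - m) (pv (fun i => (u i : ℝ)))).coeff k := by
        rw [taylor_coeff, ← toP_pv, hd_map, sub_eq_add_neg]
      rw [e1] at hk
      have e2 : ε * (ρ / (d + 1)) * wt d R k = (ε * ρ * wt d R k) / (d + 1) := by ring
      rw [e2, div_le_iff₀ hd1]
      linarith)
    have e3 : ((d : ℝ) + 1) * ((2 * KK (d + 1)) ^ (d + 1) / (ε * (ρ / (d + 1))) ^ d) = C2 * (ε ^ d)⁻¹ := by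
      rw [hC2, mul_pow ε (ρ / ((d : ℝ) + 1)) d, div_mul_eq_div_div_swap, mul_assoc]
      congr 1
    rw [e3] at h1
    have h4 : C2 * (ε ^ d)⁻¹ ≤ max 1 (max C1 C2) * (ε ^ d)⁻¹ :=
      mul_le_mul_of_nonneg_right ((le_max_right _ _).trans (le_max_right _ _)) (by positivity)
    exact h1.mono (mul_le_mul_of_nonneg_right h4 hR0.le)
      (mul_le_mul_of_nonneg_right h4 (by positivity))
  refine (measure_mono hsub).trans ?_
  rw [measure_preimage_add_right]
  refine hkm.trans (ENNReal.ofReal_le_ofReal ?_)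
  have h5 : Helper404.kmC (4 * (((d + 1) * d : ℕ) + 1) ^ 2) (d + 1) *
      ε ^ (1 / (((d + 1) * d : ℕ) : ℝ)) * 3 = C1 * ε ^ (1 / (((d + 1) * d : ℕ) : ℝ)) := by
    rw [hC1]; ring
  rw [h5]
  exact mul_le_mul_of_nonneg_right ((le_max_left _ _).trans (le_max_right _ _)) (by positivity)

end Pool.Agent.W5h30.LL
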