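import Mathlib

/-!
# The density of the real roots of random polynomials (helper30)
-/

set_option autoImplicit false

namespace Pool.Agent.W5h30.LL

open MeasureTheory Set

variable {n : ℕ}

/-- the polynomial `∑ a_i t^(i+1)` -/
noncomputable def fa (a : Fin (n + 1) → ℝ) (t : ℝ) : ℝ := ∑ i, a i * t ^ ((i : ℕ) + 1)

/-- its derivative -/
noncomputable def ga (a : Fin (n + 1) → ℝ) (t : ℝ) : ℝ := ∑ i, a i * (((i : ℕ) + 1) * t ^ (i : ℕ))

/-- the integrand of the density -/
noncomputable def G (X t : ℝ) (a : Fin (n + 1) → ℝ) : ℝ :=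
  open Classical in if (∀ i, |a i| ≤ X) ∧ |fa a t| ≤ X then |ga a t| else 0

/-- the density of the real roots of polynomials of degree at most `n + 1` -/
noncomputable def ph (n : ℕ) (t : ℝ) : ℝ := ∫ a : Fin (n + 1) → ℝ, G 1 t a

lemma fa_hasDerivAt (a : Fin (n + 1) → ℝ) (t : ℝ) : HasDerivAt (fa a) (ga a t) t := by
  unfold fa ga
  refine HasDerivAt.fun_sum fun i _ => ?_
  have h1 := (hasDerivAt_pow ((i : ℕ) + 1) t).const_mul (a i)
  rw [Nat.add_sub_cancel] at h1
  push_cast at h1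
  exact h1

lemma fa_cont_a (t : ℝ) : Continuous (fun a : Fin (n + 1) → ℝ => fa a t) := by
  unfold fa; fun_prop

lemma ga_cont_a (t : ℝ) : Continuous (fun a : Fin (n + 1) → ℝ => ga a t) := by
  unfold ga; fun_prop

lemma fa_cont (a : Fin (n + 1) → ℝ) : Continuous (fa a) := by
  unfold fa; fun_prop

lemma ga_cont (a : Fin (n + 1) → ℝ) : Continuous (ga a) := by
  unfold ga; fun_prop

lemma G_nonneg (X t : ℝ) (a : Fin (n + 1) → ℝ) : 0 ≤ G X t a := by
  unfold G
  split_ifs
  · exact abs_nonneg _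
  · exact le_rfl

lemma box_eq (X : ℝ) : {a : Fin (n + 1) → ℝ | ∀ i, |a i| ≤ X} = Icc (fun _ => -X) (fun _ => X) := by
  ext a
  simp only [mem_ofPred_eq, Set.mem_Icc, Pi.le_def, abs_le]
  exact forall_and

lemma box_vol {X : ℝ} (hX : 0 ≤ X) :
    volume (Icc (fun _ => -X) (fun _ => X) : Set (Fin (n + 1) → ℝ)) = ENNReal.ofReal ((2 * X) ^ (n + 1)) := by
  rw [Real.volume_Icc_pi]
  simp only [sub_neg_eq_add]
  rw [Finset.prod_const, Finset.card_univ, Fintype.card_fin, ENNReal.ofReal_pow (by linarith)]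
  congr 2
  ring

lemma G_meas (X t : ℝ) : Measurable (G (n := n) X t) := by
  classical
  unfold G
  have h0 : MeasurableSet {a : Fin (n + 1) → ℝ | ∀ i, |a i| ≤ X} := by
    rw [box_eq]; exact measurableSet_Icc
  have h00 : MeasurableSet {a : Fin (n + 1) → ℝ | |fa a t| ≤ X} :=
    (isClosed_le (fa_cont_a t).abs continuous_const).measurableSet
  have h1 : MeasurableSet {a : Fin (n + 1) → ℝ | (∀ i, |a i| ≤ X) ∧ |fa a t| ≤ X} := h0.inter h00
  convert (ga_cont_a (n := n) t).abs.measurable.ite h1 measurable_const using 1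

lemma ga_le {X T t : ℝ} (hX : 0 ≤ X) (hT : 1 ≤ T) (ht : |t| ≤ T) {a : Fin (n + 1) → ℝ}
    (ha : ∀ i, |a i| ≤ X) : |ga a t| ≤ (n + 1) ^ 2 * T ^ n * X := by
  unfold ga
  refine (Finset.abs_sum_le_sum_abs _ _).trans ?_
  calc ∑ i : Fin (n + 1), |a i * (((i : ℕ) + 1) * t ^ (i : ℕ))| ≤ ∑ _i : Fin (n + 1), (n + 1) * T ^ n * X := by
        refine Finset.sum_le_sum fun i _ => ?_
        rw [abs_mul, abs_mul, abs_pow]
        have h1 : |((i : ℕ) : ℝ) + 1| ≤ n + 1 := by
          rw [abs_of_nonneg (by positivity)]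
          have : ((i : ℕ) : ℝ) ≤ n := by exact_mod_cast Nat.lt_succ_iff.1 i.2
          linarith
        have h2 : |t| ^ (i : ℕ) ≤ T ^ n :=
          (pow_le_pow_left₀ (abs_nonneg t) ht _).trans (pow_le_pow_right₀ hT (Nat.lt_succ_iff.1 i.2))
        calc |a i| * (|((i : ℕ) : ℝ) + 1| * |t| ^ (i : ℕ)) ≤ X * ((n + 1) * T ^ n) := by
              refine mul_le_mul (ha i) (mul_le_mul h1 h2 (by positivity) (by positivity)) (by positivity) hX
          _ = _ := by ring
    _ = _ := by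
        rw [Finset.sum_const, Finset.card_univ, Fintype.card_fin, nsmul_eq_mul]
        push_cast
        ring

lemma fa_le {X T t : ℝ} (hX : 0 ≤ X) (hT : 1 ≤ T) (ht : |t| ≤ T) {a : Fin (n + 1) → ℝ}
    (ha : ∀ i, |a i| ≤ X) : |fa a t| ≤ (n + 1) * T ^ (n + 1) * X := by
  unfold fa
  refine (Finset.abs_sum_le_sum_abs _ _).trans ?_
  calc ∑ i : Fin (n + 1), |a i * t ^ ((i : ℕ) + 1)| ≤ ∑ _i : Fin (n + 1), T ^ (n + 1) * X := by
        refine Finset.sum_le_sum fun i _ => ?_
        rw [abs_mul, abs_pow]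
        have h2 : |t| ^ ((i : ℕ) + 1) ≤ T ^ (n + 1) :=
          (pow_le_pow_left₀ (abs_nonneg t) ht _).trans (pow_le_pow_right₀ hT i.2)
        calc |a i| * |t| ^ ((i : ℕ) + 1) ≤ X * T ^ (n + 1) :=
              mul_le_mul (ha i) h2 (by positivity) hX
          _ = _ := by ring
    _ = _ := by
        rw [Finset.sum_const, Finset.card_univ, Fintype.card_fin, nsmul_eq_mul]
        push_cast
        ring

lemma G_le {X T t : ℝ} (hX : 0 ≤ X) (hT : 1 ≤ T) (ht : |t| ≤ T) (a : Fin (n + 1) → ℝ) :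
    G X t a ≤ (Icc (fun _ => -X) (fun _ => X)).indicator (fun _ => (n + 1) ^ 2 * T ^ n * X) a := by
  unfold G
  split_ifs with h
  · rw [indicator_of_mem]
    · exact ga_le hX hT ht h.1
    · rw [← box_eq]; exact h.1
  · exact indicator_nonneg (fun _ _ => by positivity) _

lemma G_int {X t : ℝ} (hX : 0 ≤ X) : Integrable (G (n := n) X t) := by
  have h1 : Integrable (fun a : Fin (n + 1) → ℝ => (Icc (fun _ => -X) (fun _ => X)).indicator
      (fun _ => ((n : ℝ) + 1) ^ 2 * (max 1 |t|) ^ n * X) a) := by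
    rw [integrable_indicator_iff measurableSet_Icc]
    refine integrableOn_const ?_
    rw [box_vol hX]
    exact ENNReal.ofReal_ne_top
  refine h1.mono' (G_meas X t).aestronglyMeasurable (Filter.Eventually.of_forall fun a => ?_)
  rw [Real.norm_eq_abs, abs_of_nonneg (G_nonneg X t a)]
  exact G_le hX (le_max_left _ _) (le_max_right _ _) a

lemma ph_nonneg (t : ℝ) : 0 ≤ ph n t := integral_nonneg fun a => G_nonneg 1 t a

lemma ph_le {T t : ℝ} (hT : 1 ≤ T) (ht : |t| ≤ T) : ph n t ≤ 2 ^ (n + 1) * ((n + 1) ^ 2 * T ^ n) := by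
  unfold ph
  have h1 := integral_mono (G_int (n := n) (t := t) zero_le_one) (by
    rw [integrable_indicator_iff measurableSet_Icc]
    refine integrableOn_const ?_
    rw [box_vol zero_le_one]
    exact ENNReal.ofReal_ne_top) (fun a => G_le (n := n) zero_le_one hT ht a)
  refine h1.trans ?_
  rw [integral_indicator measurableSet_Icc, setIntegral_const, Measure.real, box_vol zero_le_one,
    ENNReal.toReal_ofReal (by positivity), smul_eq_mul]
  ring_nf
  exact le_rfl

/-- scaling -/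
lemma G_scale {X : ℝ} (hX : 0 < X) (t : ℝ) (a : Fin (n + 1) → ℝ) : G X t (X • a) = X * G 1 t a := by
  classical
  have h1 : fa (X • a) t = X * fa a t := by
    unfold fa
    rw [Finset.mul_sum]
    refine Finset.sum_congr rfl fun i _ => ?_
    rw [Pi.smul_apply, smul_eq_mul]; ring
  have h2 : ga (X • a) t = X * ga a t := by
    unfold ga
    rw [Finset.mul_sum]
    refine Finset.sum_congr rfl fun i _ => ?_
    rw [Pi.smul_apply, smul_eq_mul]; ring
  have h3 : ((∀ i, |(X • a) i| ≤ X) ∧ |fa (X • a) t| ≤ X) ↔ ((∀ i, |a i| ≤ 1) ∧ |fa a t| ≤ 1) := by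
    rw [h1, abs_mul, abs_of_pos hX]
    refine and_congr (forall_congr' fun i => ?_) ?_
    · rw [Pi.smul_apply, smul_eq_mul, abs_mul, abs_of_pos hX]
      exact ⟨fun h => by nlinarith, fun h => by nlinarith [abs_nonneg (a i)]⟩
    · exact ⟨fun h => by nlinarith, fun h => by nlinarith [abs_nonneg (fa a t)]⟩
  unfold G
  rw [h2]
  by_cases h : (∀ i, |a i| ≤ 1) ∧ |fa a t| ≤ 1
  · rw [if_pos (h3.2 h), if_pos h, abs_mul, abs_of_pos hX]
  · rw [if_neg (fun h' => h (h3.1 h')), if_neg h, mul_zero]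

lemma int_scale {X : ℝ} (hX : 0 < X) (t : ℝ) : ∫ a : Fin (n + 1) → ℝ, G X t a = X ^ (n + 2) * ph n t := by
  have h1 := Measure.integral_comp_smul (volume : Measure (Fin (n + 1) → ℝ)) (G X t) X
  simp only [G_scale hX] at h1
  rw [integral_const_mul, Module.finrank_pi, Fintype.card_fin, smul_eq_mul,
    abs_of_pos (by positivity)] at h1
  unfold ph
  have h2 : (X : ℝ) ^ (n + 1) ≠ 0 := by positivity
  calc ∫ a : Fin (n + 1) → ℝ, G X t a = X ^ (n + 1) * ((X ^ (n + 1))⁻¹ * ∫ a : Fin (n + 1) → ℝ, G X t a) := by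
        rw [← mul_assoc, mul_inv_cancel₀ h2, one_mul]
    _ = _ := by rw [← h1]; ring

end Pool.Agent.W5h30.LL
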