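import Mathlib
import Pool.Agent.W5h30.LL.Dens

/-!
# The density is a Lipschitz function (helper30)
-/

set_option autoImplicit false

namespace Pool.Agent.W5h30.LL

open MeasureTheory Set

variable {n : ℕ}

/-- Fubini's theorem in the first coordinate -/
lemma fubini {E : Set (Fin (n + 1) → ℝ)} (hE : MeasurableSet E) :
    volume E = ∫⁻ a' : Fin n → ℝ, volume {u : ℝ | (Fin.cons u a' : Fin (n + 1) → ℝ) ∈ E} := by
  have h1 := (volume_preserving_piFinSuccAbove (fun _ : Fin (n + 1) => ℝ) 0).symm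
  rw [← h1.measure_preimage hE.nullMeasurableSet]
  rw [Measure.volume_eq_prod, Measure.prod_apply_symm]
  · refine lintegral_congr fun a' => ?_
    congr 1
    ext u
    change (Fin.insertNth 0 u a' : Fin (n + 1) → ℝ) ∈ E ↔ _
    rw [Fin.insertNth_zero']
    rfl
  · exact (MeasurableEquiv.measurable _) hE

lemma pow_diff {T t s : ℝ} (hT : 1 ≤ T) (ht : |t| ≤ T) (hs : |s| ≤ T) (k : ℕ) :
    |t ^ k - s ^ k| ≤ k * T ^ k * |t - s| := by
  induction k with
  | zero => simp
  | succ k ih =>
    have e1 : t ^ (k + 1) - s ^ (k + 1) = t * (t ^ k - s ^ k) + (t - s) * s ^ k := by ring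
    have hTk : 1 ≤ T ^ k := one_le_pow₀ hT
    have h3 : |s| ^ k ≤ T ^ k := pow_le_pow_left₀ (abs_nonneg s) hs k
    calc |t ^ (k + 1) - s ^ (k + 1)| ≤ |t| * |t ^ k - s ^ k| + |t - s| * |s| ^ k := by
          rw [e1, ← abs_mul, ← abs_pow, ← abs_mul]
          exact abs_add_le _ _
      _ ≤ T * (k * T ^ k * |t - s|) + |t - s| * T ^ k := by
          refine add_le_add (mul_le_mul ht ih (abs_nonneg _) (by linarith))
            (mul_le_mul_of_nonneg_left h3 (abs_nonneg _))
      _ ≤ T * (k * T ^ k * |t - s|) + |t - s| * (T * T ^ k) := by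
          have : T ^ k ≤ T * T ^ k := by nlinarith
          have := mul_le_mul_of_nonneg_left this (abs_nonneg (t - s))
          linarith
      _ = ((k + 1 : ℕ) : ℝ) * T ^ (k + 1) * |t - s| := by
          push_cast
          ring

lemma fa_diff {X T t s : ℝ} (hX : 0 ≤ X) (hT : 1 ≤ T) (ht : |t| ≤ T) (hs : |s| ≤ T)
    {a : Fin (n + 1) → ℝ} (ha : ∀ i, |a i| ≤ X) :
    |fa a t - fa a s| ≤ (n + 1) ^ 2 * T ^ (n + 1) * X * |t - s| := by
  unfold fa
  rw [← Finset.sum_sub_distrib]
  refine (Finset.abs_sum_le_sum_abs _ _).trans ?_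
  calc ∑ i : Fin (n + 1), |a i * t ^ ((i : ℕ) + 1) - a i * s ^ ((i : ℕ) + 1)|
      ≤ ∑ _i : Fin (n + 1), (n + 1) * T ^ (n + 1) * X * |t - s| := by
        refine Finset.sum_le_sum fun i _ => ?_
        rw [← mul_sub, abs_mul]
        have h1 := pow_diff hT ht hs ((i : ℕ) + 1)
        have h2 : (((i : ℕ) + 1 : ℕ) : ℝ) ≤ n + 1 := by exact_mod_cast i.2
        have h3 : T ^ ((i : ℕ) + 1) ≤ T ^ (n + 1) := pow_le_pow_right₀ hT i.2
        calc |a i| * |t ^ ((i : ℕ) + 1) - s ^ ((i : ℕ) + 1)| ≤ X * ((n + 1) * T ^ (n + 1) * |t - s|) := by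
              refine mul_le_mul (ha i) (h1.trans ?_) (abs_nonneg _) hX
              refine mul_le_mul_of_nonneg_right ?_ (abs_nonneg _)
              exact mul_le_mul h2 h3 (by positivity) (by positivity)
          _ = _ := by ring
    _ = _ := by
        rw [Finset.sum_const, Finset.card_univ, Fintype.card_fin, nsmul_eq_mul]
        push_cast
        ring

lemma ga_diff {X T t s : ℝ} (hX : 0 ≤ X) (hT : 1 ≤ T) (ht : |t| ≤ T) (hs : |s| ≤ T)
    {a : Fin (n + 1) → ℝ} (ha : ∀ i, |a i| ≤ X) :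
    |ga a t - ga a s| ≤ (n + 1) ^ 3 * T ^ (n + 1) * X * |t - s| := by
  unfold ga
  rw [← Finset.sum_sub_distrib]
  refine (Finset.abs_sum_le_sum_abs _ _).trans ?_
  calc ∑ i : Fin (n + 1), |a i * (((i : ℕ) + 1) * t ^ (i : ℕ)) - a i * (((i : ℕ) + 1) * s ^ (i : ℕ))|
      ≤ ∑ _i : Fin (n + 1), (n + 1) ^ 2 * T ^ (n + 1) * X * |t - s| := by
        refine Finset.sum_le_sum fun i _ => ?_
        rw [← mul_sub, ← mul_sub, abs_mul, abs_mul]
        have h1 := pow_diff hT ht hs (i : ℕ)
        have h2 : ((i : ℕ) : ℝ) ≤ n := by exact_mod_cast Nat.lt_succ_iff.1 i.2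
        have h3 : T ^ (i : ℕ) ≤ T ^ (n + 1) := pow_le_pow_right₀ hT (by omega)
        have h4 : |((i : ℕ) : ℝ) + 1| ≤ n + 1 := by
          rw [abs_of_nonneg (by positivity)]
          linarith
        calc |a i| * (|((i : ℕ) : ℝ) + 1| * |t ^ (i : ℕ) - s ^ (i : ℕ)|)
            ≤ X * ((n + 1) * ((n + 1) * T ^ (n + 1) * |t - s|)) := by
              refine mul_le_mul (ha i) (mul_le_mul h4 (h1.trans ?_) (abs_nonneg _) (by positivity))
                (by positivity) hX
              refine mul_le_mul_of_nonneg_right ?_ (abs_nonneg _)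
              exact mul_le_mul (by linarith) h3 (by positivity) (by positivity)
          _ = _ := by ring
    _ = _ := by
        rw [Finset.sum_const, Finset.card_univ, Fintype.card_fin, nsmul_eq_mul]
        push_cast
        ring

lemma fa_cons (u : ℝ) (a' : Fin n → ℝ) (t : ℝ) :
    fa (Fin.cons u a' : Fin (n + 1) → ℝ) t = u * t + ∑ i : Fin n, a' i * t ^ ((i : ℕ) + 2) := by
  unfold fa
  rw [Fin.sum_univ_succ]
  simp only [Fin.cons_zero, Fin.cons_succ, Fin.val_zero, Fin.val_succ, zero_add, pow_one]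

/-- the measure of a slab -/
lemma slab (t h : ℝ) (hh : 0 ≤ h) :
    volume {a : Fin (n + 1) → ℝ | (∀ i, |a i| ≤ 1) ∧ 1 - h ≤ |fa a t| ∧ |fa a t| ≤ 1 + h} ≤
      ENNReal.ofReal (2 ^ (n + 4) * (n + 1) * h) := by
  have hn1 : (1 : ℝ) ≤ (n : ℝ) + 1 := by
    have : (0 : ℝ) ≤ n := Nat.cast_nonneg n
    linarith
  rcases le_or_gt (1 / 2) h with h2 | h2
  · have h3 : {a : Fin (n + 1) → ℝ | (∀ i, |a i| ≤ 1) ∧ 1 - h ≤ |fa a t| ∧ |fa a t| ≤ 1 + h} ⊆
        Icc (fun _ => -(1 : ℝ)) (fun _ => 1) := by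
      rw [← box_eq]
      exact fun a ha => ha.1
    refine (measure_mono h3).trans ?_
    rw [box_vol zero_le_one]
    refine ENNReal.ofReal_le_ofReal ?_
    rw [mul_one]
    have h4 : (2 : ℝ) ^ (n + 4) = 8 * 2 ^ (n + 1) := by ring
    rw [h4]
    have h5 : (0 : ℝ) < 2 ^ (n + 1) := by positivity
    nlinarith [mul_nonneg h5.le (by linarith : (0:ℝ) ≤ h - 1/2), mul_le_mul_of_nonneg_left hn1 (mul_nonneg h5.le hh)]
  rcases le_or_gt |t| (1 / (2 * (n + 1))) with ht | ht
  · have h3 : {a : Fin (n + 1) → ℝ | (∀ i, |a i| ≤ 1) ∧ 1 - h ≤ |fa a t| ∧ |fa a t| ≤ 1 + h} ⊆ ∅ := by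
      rintro a ⟨ha, hb, _⟩
      exfalso
      have h4 : |fa a t| ≤ 1 / 2 := by
        unfold fa
        refine (Finset.abs_sum_le_sum_abs _ _).trans ?_
        have ht1 : |t| ≤ 1 := ht.trans (by
          rw [div_le_one (by positivity)]
          linarith)
        calc ∑ i : Fin (n + 1), |a i * t ^ ((i : ℕ) + 1)| ≤ ∑ _i : Fin (n + 1), (1 / (2 * ((n : ℝ) + 1))) := by
              refine Finset.sum_le_sum fun i _ => ?_
              rw [abs_mul, abs_pow]
              calc |a i| * |t| ^ ((i : ℕ) + 1) ≤ 1 * |t| :=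
                    mul_le_mul (ha i) (pow_le_of_le_one (abs_nonneg t) ht1 (by omega)) (by positivity) zero_le_one
                _ ≤ _ := by rw [one_mul]; exact ht
          _ = 1 / 2 := by
              rw [Finset.sum_const, Finset.card_univ, Fintype.card_fin, nsmul_eq_mul]
              push_cast
              field_simp
      linarith
    refine (measure_mono h3).trans ?_
    rw [measure_empty]
    exact bot_le
  · have ht0 : 0 < |t| := lt_trans (by positivity) ht
    have htne : t ≠ 0 := abs_pos.1 ht0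
    have hE : MeasurableSet {a : Fin (n + 1) → ℝ | (∀ i, |a i| ≤ 1) ∧ 1 - h ≤ |fa a t| ∧ |fa a t| ≤ 1 + h} := by
      have h0 : MeasurableSet {a : Fin (n + 1) → ℝ | ∀ i, |a i| ≤ 1} := by
        rw [box_eq]; exact measurableSet_Icc
      exact h0.inter ((isClosed_le continuous_const (fa_cont_a t).abs).measurableSet.inter
        (isClosed_le (fa_cont_a t).abs continuous_const).measurableSet)
    rw [fubini hE]
    have hsec : ∀ a' : Fin n → ℝ, volume {u : ℝ | (Fin.cons u a' : Fin (n + 1) → ℝ) ∈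
        {a : Fin (n + 1) → ℝ | (∀ i, |a i| ≤ 1) ∧ 1 - h ≤ |fa a t| ∧ |fa a t| ≤ 1 + h}} ≤
        (Icc (fun _ => -(1 : ℝ)) (fun _ => 1)).indicator (fun _ => ENNReal.ofReal (8 * (n + 1) * h)) a' := by
      intro a'
      by_cases ha' : a' ∈ (Icc (fun _ => -(1 : ℝ)) (fun _ => 1) : Set (Fin n → ℝ))
      · rw [indicator_of_mem ha']
        set c : ℝ := ∑ i : Fin n, a' i * t ^ ((i : ℕ) + 2) with hc
        have hsub : {u : ℝ | (Fin.cons u a' : Fin (n + 1) → ℝ) ∈
            {a : Fin (n + 1) → ℝ | (∀ i, |a i| ≤ 1) ∧ 1 - h ≤ |fa a t| ∧ |fa a t| ≤ 1 + h}} ⊆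
            Metric.closedBall ((1 - c) / t) (h / |t|) ∪ Metric.closedBall ((-1 - c) / t) (h / |t|) := by
          rintro u ⟨_, hb1, hb2⟩
          rw [fa_cons, ← hc] at hb1 hb2
          rcases le_or_gt 0 (u * t + c) with hs | hs
          · left
            rw [abs_of_nonneg hs] at hb1 hb2
            rw [Metric.mem_closedBall, Real.dist_eq, le_div_iff₀ ht0, ← abs_mul]
            have e1 : (u - (1 - c) / t) * t = (u * t + c) - 1 := by field_simp; ring
            rw [e1, abs_le]
            constructor <;> linarith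
          · right
            rw [abs_of_neg hs] at hb1 hb2
            rw [Metric.mem_closedBall, Real.dist_eq, le_div_iff₀ ht0, ← abs_mul]
            have e1 : (u - (-1 - c) / t) * t = (u * t + c) + 1 := by field_simp; ring
            rw [e1, abs_le]
            constructor <;> linarith
        refine (measure_mono hsub).trans ((measure_union_le _ _).trans ?_)
        rw [Real.volume_closedBall, Real.volume_closedBall, ← ENNReal.ofReal_add (by positivity) (by positivity)]
        refine ENNReal.ofReal_le_ofReal ?_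
        have h6 : h / |t| ≤ 2 * (n + 1) * h := by
          rw [div_le_iff₀ ht0]
          have h7 : 1 ≤ 2 * ((n : ℝ) + 1) * |t| := by
            rw [div_lt_iff₀ (by positivity)] at ht
            linarith
          nlinarith
        linarith
      · rw [indicator_of_notMem ha']
        have : {u : ℝ | (Fin.cons u a' : Fin (n + 1) → ℝ) ∈
            {a : Fin (n + 1) → ℝ | (∀ i, |a i| ≤ 1) ∧ 1 - h ≤ |fa a t| ∧ |fa a t| ≤ 1 + h}} = ∅ := by
          ext u
          simp only [mem_empty_iff_false, iff_false]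
          rintro ⟨ha, _⟩
          apply ha'
          constructor
          · intro i
            have := ha i.succ
            rw [Fin.cons_succ, abs_le] at this
            exact this.1
          · intro i
            have := ha i.succ
            rw [Fin.cons_succ, abs_le] at this
            exact this.2
        rw [this, measure_empty]
    refine (lintegral_mono hsec).trans ?_
    rw [lintegral_indicator measurableSet_Icc, setLIntegral_const, Real.volume_Icc_pi]
    simp only [sub_neg_eq_add]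
    rw [Finset.prod_const, Finset.card_univ, Fintype.card_fin, ← ENNReal.ofReal_pow (by norm_num),
      ← ENNReal.ofReal_mul (by positivity)]
    refine ENNReal.ofReal_le_ofReal ?_
    have e9 : (2 : ℝ) ^ (n + 4) = 16 * 2 ^ n := by ring
    have e10 : ((1 : ℝ) + 1) = 2 := by norm_num
    rw [e9, e10]
    have : (0 : ℝ) ≤ 2 ^ n * ((n + 1) * h) := by positivity
    nlinarith

/-- the constant -/
noncomputable def Lc (n : ℕ) (T : ℝ) : ℝ := 2 ^ (n + 6) * (n + 1) ^ 6 * T ^ (2 * n + 2)

/-- the density is a Lipschitz function -/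
lemma ph_lip {T t s : ℝ} (hT : 1 ≤ T) (ht : |t| ≤ T) (hs : |s| ≤ T) :
    |ph n t - ph n s| ≤ Lc n T * |t - s| := by
  classical
  have hn1 : (1 : ℝ) ≤ (n : ℝ) + 1 := by
    have : (0 : ℝ) ≤ n := Nat.cast_nonneg n
    linarith
  set h : ℝ := (n + 1) ^ 2 * T ^ (n + 1) * 1 * |t - s| with hh
  have hh0 : 0 ≤ h := by positivity
  set Φ : ℝ := (n + 1) ^ 2 * T ^ n * 1 with hΦ
  have hΦ0 : 0 ≤ Φ := by positivity
  set D : ℝ := (n + 1) ^ 3 * T ^ (n + 1) * 1 * |t - s| with hD
  have hD0 : 0 ≤ D := by positivity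
  set B : Set (Fin (n + 1) → ℝ) := Icc (fun _ => -(1:ℝ)) (fun _ => 1) with hB
  set S : Set (Fin (n + 1) → ℝ) :=
    {a | (∀ i, |a i| ≤ 1) ∧ 1 - h ≤ |fa a t| ∧ |fa a t| ≤ 1 + h} with hS
  have hSm : MeasurableSet S := by
    have h0 : MeasurableSet {a : Fin (n + 1) → ℝ | ∀ i, |a i| ≤ 1} := by
      rw [box_eq]; exact measurableSet_Icc
    exact h0.inter ((isClosed_le continuous_const (fa_cont_a t).abs).measurableSet.inter
      (isClosed_le (fa_cont_a t).abs continuous_const).measurableSet)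
  have hpt : ∀ a : Fin (n + 1) → ℝ, |G 1 t a - G 1 s a| ≤
      B.indicator (fun _ => D) a + S.indicator (fun _ => Φ) a := by
    intro a
    by_cases ha : ∀ i, |a i| ≤ 1
    · have haB : a ∈ B := by rw [hB, ← box_eq]; exact ha
      rw [indicator_of_mem haB]
      have hfd := fa_diff zero_le_one hT ht hs ha
      have hgd := ga_diff zero_le_one hT ht hs ha
      rw [← hh] at hfd
      rw [← hD] at hgd
      have hfd' := abs_le.1 (((abs_abs_sub_abs_le (fa a t) (fa a s)).trans hfd))
      by_cases h1 : |fa a t| ≤ 1 <;> by_cases h2 : |fa a s| ≤ 1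
      · unfold G
        rw [if_pos ⟨ha, h1⟩, if_pos ⟨ha, h2⟩]
        have := (abs_abs_sub_abs_le (ga a t) (ga a s)).trans hgd
        have h3 : 0 ≤ S.indicator (fun _ => Φ) a := indicator_nonneg (fun _ _ => hΦ0) _
        linarith
      · unfold G
        rw [if_pos ⟨ha, h1⟩, if_neg (fun h => h2 h.2), sub_zero, abs_abs]
        have hm : a ∈ S := by
          push Not at h2
          exact ⟨ha, by linarith [hfd'.1], by linarith⟩
        rw [indicator_of_mem hm]
        have := ga_le zero_le_one hT ht ha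
        linarith
      · unfold G
        rw [if_neg (fun h => h1 h.2), if_pos ⟨ha, h2⟩, zero_sub, abs_neg, abs_abs]
        have hm : a ∈ S := by
          push Not at h1
          exact ⟨ha, by linarith, by linarith [hfd'.2]⟩
        rw [indicator_of_mem hm]
        have := ga_le zero_le_one hT hs ha
        linarith
      · unfold G
        rw [if_neg (fun h => h1 h.2), if_neg (fun h => h2 h.2), sub_zero, abs_zero]
        have h3 : 0 ≤ S.indicator (fun _ => Φ) a := indicator_nonneg (fun _ _ => hΦ0) _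
        linarith
    · unfold G
      rw [if_neg (fun h => ha h.1), if_neg (fun h => ha h.1), sub_zero, abs_zero]
      exact add_nonneg (indicator_nonneg (fun _ _ => hD0) _) (indicator_nonneg (fun _ _ => hΦ0) _)
  have hBi : Integrable (B.indicator (fun _ : Fin (n + 1) → ℝ => D)) := by
    rw [integrable_indicator_iff measurableSet_Icc]
    refine integrableOn_const ?_
    rw [box_vol zero_le_one]
    exact ENNReal.ofReal_ne_top
  have hSv := slab (n := n) t h hh0
  rw [← hS] at hSv
  have hSi : Integrable (S.indicator (fun _ : Fin (n + 1) → ℝ => Φ)) := by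
    rw [integrable_indicator_iff hSm]
    refine integrableOn_const ?_
    exact (lt_of_le_of_lt hSv ENNReal.ofReal_lt_top).ne
  unfold ph
  rw [← integral_sub (G_int zero_le_one) (G_int zero_le_one)]
  refine (abs_integral_le_integral_abs).trans ?_
  refine (integral_mono (((G_int zero_le_one).sub (G_int zero_le_one)).abs) (hBi.add hSi) hpt).trans ?_
  rw [integral_add' hBi hSi, integral_indicator measurableSet_Icc, integral_indicator hSm,
    setIntegral_const, setIntegral_const, Measure.real, Measure.real, box_vol zero_le_one,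
    ENNReal.toReal_ofReal (by positivity), smul_eq_mul, smul_eq_mul]
  have h5 : (volume S).toReal ≤ 2 ^ (n + 4) * (n + 1) * h :=
    ENNReal.toReal_le_of_le_ofReal (by positivity) hSv
  have h6 : (volume S).toReal * Φ ≤ 2 ^ (n + 4) * (n + 1) * h * Φ := mul_le_mul_of_nonneg_right h5 hΦ0
  have hTp : ∀ k : ℕ, 1 ≤ T ^ k := fun k => one_le_pow₀ hT
  calc (2 * 1) ^ (n + 1) * D + (volume S).toReal * Φ
      ≤ 2 ^ (n + 1) * D + 2 ^ (n + 4) * (n + 1) * h * Φ := by rw [mul_one]; linarith
    _ = (2 ^ (n + 1) * (n + 1) ^ 3 * T ^ (n + 1) + 2 ^ (n + 4) * (n + 1) ^ 5 * T ^ (2 * n + 1)) * |t - s| := by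
        rw [hD, hh, hΦ]; ring
    _ ≤ Lc n T * |t - s| := by
        refine mul_le_mul_of_nonneg_right ?_ (abs_nonneg _)
        unfold Lc
        have e1 : (2 : ℝ) ^ (n + 6) = 32 * 2 ^ (n + 1) := by ring
        have e2 : (2 : ℝ) ^ (n + 4) = 8 * 2 ^ (n + 1) := by ring
        have h7 : ((n : ℝ) + 1) ^ 3 ≤ (n + 1) ^ 6 := pow_le_pow_right₀ hn1 (by norm_num)
        have h8 : ((n : ℝ) + 1) ^ 5 ≤ (n + 1) ^ 6 := pow_le_pow_right₀ hn1 (by norm_num)
        have h9 : T ^ (n + 1) ≤ T ^ (2 * n + 2) := pow_le_pow_right₀ hT (by omega)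
        have h10 : T ^ (2 * n + 1) ≤ T ^ (2 * n + 2) := pow_le_pow_right₀ hT (by omega)
        have hp : (0 : ℝ) < 2 ^ (n + 1) := by positivity
        have h11 : ((n : ℝ) + 1) ^ 3 * T ^ (n + 1) ≤ (n + 1) ^ 6 * T ^ (2 * n + 2) :=
          mul_le_mul h7 h9 (by positivity) (by positivity)
        have h12 : ((n : ℝ) + 1) ^ 5 * T ^ (2 * n + 1) ≤ (n + 1) ^ 6 * T ^ (2 * n + 2) :=
          mul_le_mul h8 h10 (by positivity) (by positivity)
        rw [e1, e2]
        have h13 := mul_le_mul_of_nonneg_left h11 hp.le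
        have h14 := mul_le_mul_of_nonneg_left h12 hp.le
        have h15 : 0 ≤ 2 ^ (n + 1) * (((n : ℝ) + 1) ^ 6 * T ^ (2 * n + 2)) := by positivity
        nlinarith [h13, h14, h15]

lemma ph_cont : Continuous (ph n) := by
  rw [continuous_iff_continuousAt]
  intro t
  rw [Metric.continuousAt_iff]
  intro ε hε
  have hT : 1 ≤ |t| + 1 := by linarith [abs_nonneg t]
  have hL : 0 < Lc n (|t| + 1) := by unfold Lc; positivity
  refine ⟨min 1 (ε / Lc n (|t| + 1)), lt_min one_pos (by positivity), fun s hs => ?_⟩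
  rw [Real.dist_eq] at hs ⊢
  have h1 : |s| ≤ |t| + 1 := by
    have := abs_sub_abs_le_abs_sub s t
    have := hs.trans_le (min_le_left _ _)
    linarith
  have h2 := ph_lip (n := n) hT h1 (by linarith : |t| ≤ |t| + 1)
  refine lt_of_le_of_lt h2 ?_
  have h3 := hs.trans_le (min_le_right _ _)
  rw [lt_div_iff₀ hL] at h3
  linarith

end Pool.Agent.W5h30.LL
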