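import Mathlib

/-!
# Counting lattice points in a set from below (helper30)
-/

set_option autoImplicit false

namespace Pool.Agent.W5h30.LL

open MeasureTheory Set

/-- the integer vector `z` as a real vector -/
def iv {ι : Type*} (z : ι → ℤ) : ι → ℝ := fun i => (z i : ℝ)

/-- if every real vector can be moved by an integer vector such that what remains of the translates
of `S` is seen by `T`, then `T` has at least `volume S` elements -/
lemma tile {ι : Type*} [Fintype ι] (S : Set (ι → ℝ)) (hS : MeasurableSet S) (T : Finset (ι → ℤ))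
    (h : ∀ c : ι → ℝ, ∃ l : ι → ℤ, ∀ z : ι → ℤ, c + iv z ∈ S → z + l ∈ T) :
    volume S ≤ T.card := by
  classical
  set C : Set (ι → ℝ) := univ.pi fun _ : ι => Ico (0 : ℝ) 1 with hC
  have hCm : MeasurableSet C := MeasurableSet.univ_pi fun _ => measurableSet_Ico
  have hCv : volume C = 1 := by
    rw [hC, volume_pi_pi]
    simp
  have hcov : S ⊆ ⋃ z : ι → ℤ, S ∩ (fun c => c + (-(iv z))) ⁻¹' C := by
    intro y hy
    rw [mem_iUnion]
    refine ⟨fun i => ⌊y i⌋, hy, ?_⟩
    rw [mem_preimage, hC, mem_univ_pi]
    intro i
    simp only [Pi.add_apply, Pi.neg_apply, iv]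
    have h1 := Int.floor_le (y i)
    have h2 := Int.lt_floor_add_one (y i)
    constructor <;> linarith
  have hone : ∀ z : ι → ℤ, volume (S ∩ (fun c => c + (-(iv z))) ⁻¹' C) =
      ∫⁻ c in C, ((fun c => c + iv z) ⁻¹' S).indicator 1 c := by
    intro z
    have hm : MeasurableSet ((fun c => c + iv z) ⁻¹' S) := hS.preimage (measurable_add_const _)
    rw [lintegral_indicator_one hm, Measure.restrict_apply hm,
      ← measure_preimage_add_right volume (iv z) (S ∩ (fun c => c + (-(iv z))) ⁻¹' C)]
    congr 1
    ext c
    simp only [mem_preimage, mem_inter_iff, add_neg_cancel_right]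
  calc volume S ≤ volume (⋃ z : ι → ℤ, S ∩ (fun c => c + (-(iv z))) ⁻¹' C) := measure_mono hcov
    _ ≤ ∑' z : ι → ℤ, volume (S ∩ (fun c => c + (-(iv z))) ⁻¹' C) := measure_iUnion_le _
    _ = ∑' z : ι → ℤ, ∫⁻ c in C, ((fun c => c + iv z) ⁻¹' S).indicator 1 c := by
        simp only [hone]
    _ = ∫⁻ c in C, ∑' z : ι → ℤ, ((fun c => c + iv z) ⁻¹' S).indicator 1 c := by
        rw [lintegral_tsum]
        intro z
        exact (measurable_one.indicator (hS.preimage (measurable_add_const _))).aemeasurable
    _ ≤ ∫⁻ _c in C, (T.card : ENNReal) := by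
        refine lintegral_mono fun c => ?_
        obtain ⟨l, hl⟩ := h c
        calc ∑' z : ι → ℤ, ((fun c => c + iv z) ⁻¹' S).indicator (1 : (ι → ℝ) → ENNReal) c
            ≤ ∑' z : ι → ℤ, (if z + l ∈ T then (1 : ENNReal) else 0) := by
              refine ENNReal.tsum_le_tsum fun z => ?_
              rw [indicator_apply]
              split_ifs with h1 h2
              · simp
              · exact absurd (hl z h1) h2
              · exact bot_le
              · exact le_rfl
          _ = ∑' z : ι → ℤ, (if z ∈ T then (1 : ENNReal) else 0) :=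
              (Equiv.addRight l).tsum_eq (fun z : ι → ℤ => if z ∈ T then (1 : ENNReal) else 0)
          _ = ∑ z ∈ T, (if z ∈ T then (1 : ENNReal) else 0) :=
              tsum_eq_sum fun z hz => if_neg hz
          _ = T.card := by
              rw [Finset.sum_congr rfl (fun z hz => if_pos hz)]
              simp
    _ = T.card := by
        rw [setLIntegral_const, hCv, mul_one]

end Pool.Agent.W5h30.LL
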