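import Mathlib
import Pool.Agent.W5h30.LL.Lip
import Pool.Agent.W5h30.LL.Tile
import Pool.Agent.W5h30.LL.Good

/-!
# A lower bound for the number of polynomials with a root in a short interval (helper30)
-/

set_option autoImplicit false

namespace Pool.Agent.W5h30.LL

open MeasureTheory Set Polynomial

variable {n : ℕ}

lemma pv_eval {d : ℕ} (y : Fin (d + 1) → ℝ) (t : ℝ) : (pv y).eval t = ∑ i, y i * t ^ (i : ℕ) := by
  unfold pv
  rw [eval_finsetSum]
  refine Finset.sum_congr rfl fun i _ => ?_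
  rw [eval_mul, eval_C, eval_pow, eval_X]

lemma pv_cons (u : ℝ) (a : Fin (n + 1) → ℝ) (t : ℝ) :
    (pv (Fin.cons u a : Fin (n + 2) → ℝ)).eval t = u + fa a t := by
  rw [pv_eval, Fin.sum_univ_succ]
  unfold fa
  simp only [Fin.cons_zero, Fin.cons_succ, Fin.val_zero, Fin.val_succ, pow_zero, mul_one]

/-- the constant of the coefficients -/
noncomputable def kp (n : ℕ) (T : ℝ) : ℝ := (n + 2) ^ 2 * 2 ^ (n + 1) * T ^ (n + 1)

lemma small_eval {B M x t : ℝ} (hB : 0 ≤ B) (hM : 1 ≤ M) (hxt : |t - x| ≤ 1 / M) {p : ℝ[X]}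
    (hp : p.natDegree ≤ n + 1) (h0 : |(taylor x p).coeff 0| ≤ B / M)
    (hk : ∀ k, |(taylor x p).coeff k| ≤ B) : |p.eval t| ≤ (n + 2) * (B / M) := by
  have hM0 : 0 < M := by linarith
  have h1 : p.eval t = (taylor x p).eval (t - x) := by
    rw [taylor_eval]
    congr 1
    ring
  have hdeg : (taylor x p).natDegree < n + 2 := by rw [natDegree_taylor]; omega
  rw [h1, eval_eq_sum_range' hdeg]
  refine (Finset.abs_sum_le_sum_abs _ _).trans ?_
  calc ∑ i ∈ Finset.range (n + 2), |(taylor x p).coeff i * (t - x) ^ i|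
      ≤ ∑ _i ∈ Finset.range (n + 2), B / M := by
        refine Finset.sum_le_sum fun i _ => ?_
        rw [abs_mul, abs_pow]
        rcases Nat.eq_zero_or_pos i with rfl | hi
        · rw [pow_zero, mul_one]; exact h0
        · have h2 : |t - x| ^ i ≤ 1 / M := by
            have h3 : |t - x| ≤ 1 := hxt.trans (by rw [div_le_one hM0]; exact hM)
            exact (pow_le_of_le_one (abs_nonneg _) h3 (by omega)).trans hxt
          calc |(taylor x p).coeff i| * |t - x| ^ i ≤ B * (1 / M) :=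
                mul_le_mul (hk i) h2 (by positivity) hB
            _ = B / M := by ring
    _ = _ := by
        rw [Finset.sum_const, Finset.card_range, nsmul_eq_mul]
        push_cast
        ring

lemma small_coeff {B T x : ℝ} (hB : 0 ≤ B) (hT : 1 ≤ T) (hx : |x| ≤ T) {p : ℝ[X]}
    (hp : p.natDegree ≤ n + 1) (hk : ∀ k, |(taylor x p).coeff k| ≤ B) (i : Fin (n + 2)) :
    |p.coeff i| ≤ kp n T * B := by
  have h1 : p = taylor (-x) (taylor x p) := by
    rw [taylor_taylor, neg_add_cancel, taylor_zero]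
  have hdeg : (taylor x p).natDegree ≤ n + 1 := by rw [natDegree_taylor]; exact hp
  have h2 : p.coeff i = ∑ k : Fin (n + 2), ((k : ℕ).choose (i : ℕ) : ℝ) * (-x) ^ ((k : ℕ) - (i : ℕ)) *
      (taylor x p).coeff k := by
    conv_lhs => rw [h1, ← pv_of hdeg]
    rw [pv_taylor, Matrix.mulVec, dotProduct]
    rfl
  rw [h2]
  refine (Finset.abs_sum_le_sum_abs _ _).trans ?_
  calc ∑ k : Fin (n + 2), |((k : ℕ).choose (i : ℕ) : ℝ) * (-x) ^ ((k : ℕ) - (i : ℕ)) * (taylor x p).coeff k|
      ≤ ∑ _k : Fin (n + 2), 2 ^ (n + 1) * T ^ (n + 1) * B := by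
        refine Finset.sum_le_sum fun k _ => ?_
        rw [abs_mul, abs_mul, abs_pow, abs_neg, Nat.abs_cast]
        have h3 : ((k : ℕ).choose (i : ℕ) : ℝ) ≤ 2 ^ (n + 1) := by
          have h4 : (k : ℕ).choose (i : ℕ) ≤ 2 ^ (k : ℕ) := Nat.choose_le_two_pow _ _
          have h5 : (2 : ℕ) ^ (k : ℕ) ≤ 2 ^ (n + 1) := Nat.pow_le_pow_right (by norm_num) (by omega)
          exact_mod_cast h4.trans h5
        have h4 : |x| ^ ((k : ℕ) - (i : ℕ)) ≤ T ^ (n + 1) :=
          (pow_le_pow_left₀ (abs_nonneg x) hx _).trans (pow_le_pow_right₀ hT (by omega))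
        exact mul_le_mul (mul_le_mul h3 h4 (by positivity) (by positivity)) (hk _) (abs_nonneg _)
          (by positivity)
    _ = (n + 2) * (2 ^ (n + 1) * T ^ (n + 1)) * B := by
        rw [Finset.sum_const, Finset.card_univ, Fintype.card_fin, nsmul_eq_mul]
        push_cast
        ring
    _ ≤ kp n T * B := by
        refine mul_le_mul_of_nonneg_right ?_ hB
        unfold kp
        have h5 : ((n : ℝ) + 2) ≤ (n + 2) ^ 2 := by
          have : (0 : ℝ) ≤ n := Nat.cast_nonneg n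
          nlinarith
        have h6 : (0 : ℝ) < 2 ^ (n + 1) * T ^ (n + 1) := by positivity
        nlinarith

/-- the set of real polynomials -/
def Sp (H1 m0 a0 a1 : ℝ) : Set (Fin (n + 2) → ℝ) :=
  {y | (∀ i, |y i| ≤ H1) ∧ ((m0 ≤ (pv y).eval a0 ∧ (pv y).eval a1 ≤ -m0) ∨
    ((pv y).eval a0 ≤ -m0 ∧ m0 ≤ (pv y).eval a1))}

lemma eval_cont (t : ℝ) : Continuous (fun y : Fin (n + 2) → ℝ => (pv y).eval t) := by
  have h1 : (fun y : Fin (n + 2) → ℝ => (pv y).eval t) =
      fun y : Fin (n + 2) → ℝ => ∑ i : Fin (n + 2), y i * t ^ (i : ℕ) := by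
    funext y; exact pv_eval y t
  rw [h1]
  fun_prop

lemma Sp_meas (H1 m0 a0 a1 : ℝ) : MeasurableSet (Sp (n := n) H1 m0 a0 a1) := by
  have h0 : MeasurableSet {a : Fin (n + 2) → ℝ | ∀ i, |a i| ≤ H1} := by
    rw [box_eq]; exact measurableSet_Icc
  refine h0.inter (MeasurableSet.union ?_ ?_)
  · exact (isClosed_le continuous_const (eval_cont a0)).measurableSet.inter
      (isClosed_le (eval_cont a1) continuous_const).measurableSet
  · exact (isClosed_le (eval_cont a0) continuous_const).measurableSet.inter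
      (isClosed_le continuous_const (eval_cont a1)).measurableSet

/-- the integer points -/
lemma Sp_count {H M B T x a0 : ℝ} (hT : 1 ≤ T) (hM : 1 ≤ M) (hB : 0 < B)
    (hx0 : a0 ≤ x) (hx1 : x ≤ a0 + 1 / M) (hxT : |x| ≤ T) (hcov : Cov (n + 1) x B (B / M))
    (Z : Finset (Fin (n + 2) → ℤ)) (hZ : ∀ z : Fin (n + 2) → ℤ, (∀ i, |(z i : ℝ)| ≤ H) →
      (pv (iv z)).eval a0 * (pv (iv z)).eval (a0 + 1 / M) < 0 → z ∈ Z) :
    volume (Sp (n := n) (H - kp n T * B) ((n + 3) * (B / M)) a0 (a0 + 1 / M)) ≤ Z.card := by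
  have hM0 : 0 < M := by linarith
  have hBM : 0 < B / M := by positivity
  refine tile _ (Sp_meas _ _ _ _) Z fun c => ?_
  obtain ⟨l, hl, h0, hk⟩ := hcov (pv c) (pv_natDegree c)
  refine ⟨fun i => l.coeff i, fun z hz => ?_⟩
  obtain ⟨hz1, hz2⟩ := hz
  set p : ℝ[X] := pv c - l.map (Int.castRingHom ℝ) with hp
  have hpd : p.natDegree ≤ n + 1 := by
    rw [hp]
    refine (natDegree_sub_le _ _).trans (max_le (pv_natDegree c) ?_)
    exact (natDegree_map_le).trans hl
  have key : pv (iv (z + fun i : Fin (n + 2) => l.coeff i)) = pv (c + iv z) - p := by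
    ext k
    rcases le_or_gt k (n + 1) with hk' | hk'
    · have e1 := pv_coeff (iv (z + fun i : Fin (n + 2) => l.coeff i)) ⟨k, by omega⟩
      have e2 := pv_coeff (c + iv z) ⟨k, by omega⟩
      have e3 := pv_coeff c ⟨k, by omega⟩
      simp only at e1 e2 e3
      rw [e1, coeff_sub, e2, hp, coeff_sub, e3, coeff_map]
      simp only [iv, Pi.add_apply, eq_intCast]
      push_cast
      ring
    · rw [coeff_eq_zero_of_natDegree_lt (lt_of_le_of_lt (pv_natDegree _) hk'), coeff_sub,
        coeff_eq_zero_of_natDegree_lt (lt_of_le_of_lt (pv_natDegree _) hk'),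
        coeff_eq_zero_of_natDegree_lt (by omega : p.natDegree < k), sub_zero]
  have hcx : ∀ i : Fin (n + 2), |p.coeff i| ≤ kp n T * B := fun i =>
    small_coeff hB.le hT hxT hpd hk i
  have hd0 : |a0 - x| ≤ 1 / M := by rw [abs_le]; constructor <;> linarith
  have hd1 : |a0 + 1 / M - x| ≤ 1 / M := by
    have : 0 < 1 / M := by positivity
    rw [abs_le]; constructor <;> linarith
  have he0 := abs_le.1 (small_eval hB.le hM hd0 hpd h0 hk)
  have he1 := abs_le.1 (small_eval hB.le hM hd1 hpd h0 hk)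
  apply hZ
  · intro i
    have e1 : ((((z + fun i : Fin (n + 2) => l.coeff i) i : ℤ)) : ℝ) = (c + iv z) i - p.coeff i := by
      have e4 := congrArg (fun q : ℝ[X] => q.coeff i) key
      simp only [coeff_sub] at e4
      rw [pv_coeff, pv_coeff] at e4
      exact e4
    rw [e1]
    have := abs_sub ((c + iv z) i) (p.coeff i)
    have := hz1 i
    have := hcx i
    linarith
  · clear_value p
    rw [key, eval_sub, eval_sub]
    rcases hz2 with ⟨h1, h2⟩ | ⟨h1, h2⟩
    · apply mul_neg_of_pos_of_neg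
      · nlinarith
      · nlinarith
    · apply mul_neg_of_neg_of_pos
      · nlinarith
      · nlinarith

/-- the volume -/
lemma Sp_vol {H M B T x a0 : ℝ} (hT : 1 ≤ T) (hH : 0 < H) (hM : 1 ≤ M) (hB : 0 < B)
    (hx0 : a0 ≤ x) (hx1 : x ≤ a0 + 1 / M) (hxT : |x| ≤ T) (h0T : |a0| ≤ T) (h1T : |a0 + 1 / M| ≤ T)
    {H2 : ℝ} (hH2 : H2 = H - kp n T * B - (n + 1) ^ 2 * T ^ (n + 1) * H * (1 / M)) (hH20 : 0 < H2)
    (hfin : volume (Sp (n := n) (H - kp n T * B) ((n + 3) * (B / M)) a0 (a0 + 1 / M)) ≠ ⊤) :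
    H2 ^ (n + 2) * ph n x / M - (2 * H) ^ (n + 1) *
      ((n + 1) ^ 3 * T ^ (n + 1) * H * (1 / M) * (1 / M) + 2 * ((n + 3) * (B / M))) ≤
    (volume (Sp (n := n) (H - kp n T * B) ((n + 3) * (B / M)) a0 (a0 + 1 / M))).toReal := by
  classical
  have hM0 : 0 < M := by linarith
  have h1M : 0 < 1 / M := by positivity
  set m0 : ℝ := (n + 3) * (B / M) with hm0
  have hm00 : 0 < m0 := by positivity
  set H1 : ℝ := H - kp n T * B with hH1
  have hkp : 0 < kp n T := by unfold kp; positivity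
  have hH1H : H1 ≤ H := by rw [hH1]; nlinarith [mul_pos hkp hB]
  have hH2H1 : H2 ≤ H1 := by
    rw [hH2]
    have : 0 ≤ ((n : ℝ) + 1) ^ 2 * T ^ (n + 1) * H * (1 / M) := by positivity
    linarith
  set e1 : ℝ := (n + 1) ^ 3 * T ^ (n + 1) * H * (1 / M) * (1 / M) + 2 * m0 with he1
  have he10 : 0 ≤ e1 := by positivity
  set g : (Fin (n + 1) → ℝ) → ℝ := fun a => G H2 x a * (1 / M) -
    (Icc (fun _ => -H) (fun _ => H)).indicator (fun _ => e1) a with hg
  have hBoxI : Integrable ((Icc (fun _ => -H) (fun _ => H)).indicator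
      (fun _ : Fin (n + 1) → ℝ => e1)) := by
    rw [integrable_indicator_iff measurableSet_Icc]
    refine integrableOn_const ?_
    rw [box_vol hH.le]
    exact ENNReal.ofReal_ne_top
  have hgi : Integrable g := ((G_int hH20.le).mul_const _).sub hBoxI
  have hsec : ∀ a : Fin (n + 1) → ℝ, ENNReal.ofReal (g a) ≤
      volume {u : ℝ | (Fin.cons u a : Fin (n + 2) → ℝ) ∈ Sp (n := n) H1 m0 a0 (a0 + 1 / M)} := by
    intro a
    by_cases hc : (∀ i, |a i| ≤ H2) ∧ |fa a x| ≤ H2
    · obtain ⟨ha2, hf2⟩ := hc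
      have haH : ∀ i, |a i| ≤ H := fun i => (ha2 i).trans (hH2H1.trans hH1H)
      have hga : g a = |ga a x| * (1 / M) - e1 := by
        rw [hg]
        simp only
        rw [G, if_pos ⟨ha2, hf2⟩, indicator_of_mem]
        rw [← box_eq]; exact haH
      rw [hga]
      set u0 : ℝ := fa a a0 with hu0
      set v0 : ℝ := fa a (a0 + 1 / M) with hv0
      -- the difference
      have hdiff : |v0 - u0 - ga a x * (1 / M)| ≤ (n + 1) ^ 3 * T ^ (n + 1) * H * (1 / M) * (1 / M) := by
        have hmv := (convex_Icc a0 (a0 + 1 / M)).norm_image_sub_le_of_norm_hasDerivWithin_le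
          (f := fun s => fa a s - ga a x * s) (f' := fun s => ga a s - ga a x)
          (C := (n + 1) ^ 3 * T ^ (n + 1) * H * (1 / M)) (x := a0) (y := a0 + 1 / M)
          (fun s _ => ((fa_hasDerivAt a s).sub (by
            simpa using (hasDerivAt_id s).const_mul (ga a x))).hasDerivWithinAt)
          (fun s hs => by
            rw [Real.norm_eq_abs]
            have hsT : |s| ≤ T := by
              rw [abs_le] at h0T h1T ⊢
              constructor <;> linarith [hs.1, hs.2]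
            have h5 := ga_diff hH.le hT hsT hxT haH
            refine h5.trans (mul_le_mul_of_nonneg_left ?_ (by positivity))
            rw [abs_le]
            constructor <;> linarith [hs.1, hs.2])
          ⟨le_rfl, by linarith⟩ ⟨by linarith, le_rfl⟩
        simp only [Real.norm_eq_abs] at hmv
        have e2 : (fa a (a0 + 1 / M) - ga a x * (a0 + 1 / M)) - (fa a a0 - ga a x * a0) =
            v0 - u0 - ga a x * (1 / M) := by rw [hu0, hv0]; ring
        rw [e2, add_sub_cancel_left, abs_of_pos h1M] at hmv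
        exact hmv
      have hlen : |ga a x| * (1 / M) - e1 ≤ |v0 - u0| - 2 * m0 := by
        have h6 : |ga a x| * (1 / M) = |ga a x * (1 / M)| := by rw [abs_mul, abs_of_pos h1M]
        have h7 := abs_sub_abs_le_abs_sub (ga a x * (1 / M)) (v0 - u0)
        rw [abs_sub_comm] at hdiff
        rw [h6, he1]
        linarith
      have hu : |u0| ≤ H1 := by
        have h8 := fa_diff (a := a) hH.le hT h0T hxT haH
        have h9 : |a0 - x| ≤ 1 / M := by rw [abs_le]; constructor <;> linarith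
        have h10 : |u0 - fa a x| ≤ (n + 1) ^ 2 * T ^ (n + 1) * H * (1 / M) :=
          h8.trans (mul_le_mul_of_nonneg_left h9 (by positivity))
        have h11 := abs_sub_abs_le_abs_sub u0 (fa a x)
        rw [hH2] at hf2
        linarith
      have hv : |v0| ≤ H1 := by
        have h8 := fa_diff (a := a) hH.le hT h1T hxT haH
        have h9 : |a0 + 1 / M - x| ≤ 1 / M := by rw [abs_le]; constructor <;> linarith
        have h10 : |v0 - fa a x| ≤ (n + 1) ^ 2 * T ^ (n + 1) * H * (1 / M) :=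
          h8.trans (mul_le_mul_of_nonneg_left h9 (by positivity))
        have h11 := abs_sub_abs_le_abs_sub v0 (fa a x)
        rw [hH2] at hf2
        linarith
      have hcons : ∀ u : ℝ, |u| ≤ H1 → ∀ i, |(Fin.cons u a : Fin (n + 2) → ℝ) i| ≤ H1 := by
        intro u hu' i
        refine Fin.cases ?_ (fun j => ?_) i
        · rw [Fin.cons_zero]; exact hu'
        · rw [Fin.cons_succ]; exact (ha2 j).trans hH2H1
      refine (ENNReal.ofReal_le_ofReal hlen).trans ?_
      rw [abs_le] at hu hv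
      rcases le_total v0 u0 with huv | huv
      · rw [abs_of_nonpos (by linarith : v0 - u0 ≤ 0)]
        have h12 : Icc (m0 - u0) (-m0 - v0) ⊆ {u : ℝ | (Fin.cons u a : Fin (n + 2) → ℝ) ∈
            Sp (n := n) H1 m0 a0 (a0 + 1 / M)} := by
          intro u hu'
          refine ⟨hcons u ?_, Or.inl ⟨?_, ?_⟩⟩
          · rw [abs_le]; constructor <;> linarith [hu'.1, hu'.2]
          · rw [pv_cons, ← hu0]; linarith [hu'.1]
          · rw [pv_cons, ← hv0]; linarith [hu'.2]
        refine le_trans (le_of_eq ?_) (measure_mono h12)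
        rw [Real.volume_Icc]
        congr 1
        ring
      · rw [abs_of_nonneg (by linarith : 0 ≤ v0 - u0)]
        have h12 : Icc (m0 - v0) (-m0 - u0) ⊆ {u : ℝ | (Fin.cons u a : Fin (n + 2) → ℝ) ∈
            Sp (n := n) H1 m0 a0 (a0 + 1 / M)} := by
          intro u hu'
          refine ⟨hcons u ?_, Or.inr ⟨?_, ?_⟩⟩
          · rw [abs_le]; constructor <;> linarith [hu'.1, hu'.2]
          · rw [pv_cons, ← hu0]; linarith [hu'.2]
          · rw [pv_cons, ← hv0]; linarith [hu'.1]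
        refine le_trans (le_of_eq ?_) (measure_mono h12)
        rw [Real.volume_Icc]
        congr 1
        ring
    · have hga : g a ≤ 0 := by
        rw [hg]
        simp only
        rw [G, if_neg hc, zero_mul, zero_sub]
        exact neg_nonpos.2 (indicator_nonneg (fun _ _ => he10) _)
      rw [ENNReal.ofReal_of_nonpos hga]
      exact bot_le
  have hle : ∫⁻ a, ENNReal.ofReal (g a) ≤ volume (Sp (n := n) H1 m0 a0 (a0 + 1 / M)) := by
    rw [fubini (Sp_meas _ _ _ _)]
    exact lintegral_mono hsec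
  have hint : ∫ a, g a ≤ (∫⁻ a, ENNReal.ofReal (g a)).toReal := by
    rw [integral_eq_lintegral_pos_part_sub_lintegral_neg_part hgi]
    have := ENNReal.toReal_nonneg (a := ∫⁻ a, ENNReal.ofReal (-g a))
    linarith
  have hval : ∫ a, g a = H2 ^ (n + 2) * ph n x / M - (2 * H) ^ (n + 1) * e1 := by
    rw [hg, integral_sub ((G_int hH20.le).mul_const _) hBoxI, integral_mul_const, int_scale hH20,
      integral_indicator measurableSet_Icc, setIntegral_const, Measure.real, box_vol hH.le,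
      ENNReal.toReal_ofReal (by positivity), smul_eq_mul]
    ring
  rw [← hval]
  exact hint.trans (ENNReal.toReal_mono hfin hle)

/-- the constant of the main estimate -/
noncomputable def Cc (n : ℕ) (T : ℝ) : ℝ :=
  (n + 2) * kp n T * (2 ^ (n + 1) * ((n + 1) ^ 2 * T ^ n)) +
    2 ^ (n + 1) * ((n + 1) ^ 3 * T ^ (n + 1) + 2 * (n + 3))

/-- **the cell estimate** -/
theorem cell {H M B T x a0 : ℝ} (hT : 1 ≤ T) (hH : 0 < H) (hM : 1 ≤ M) (hB : 0 < B)
    (hx0 : a0 ≤ x) (hx1 : x ≤ a0 + 1 / M) (hxT : |x| ≤ T) (h0T : |a0| ≤ T) (h1T : |a0 + 1 / M| ≤ T)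
    (hcov : Cov (n + 1) x B (B / M)) (Z : Finset (Fin (n + 2) → ℤ))
    (hZ : ∀ z : Fin (n + 2) → ℤ, (∀ i, |(z i : ℝ)| ≤ H) →
      (pv (iv z)).eval a0 * (pv (iv z)).eval (a0 + 1 / M) < 0 → z ∈ Z) :
    H ^ (n + 2) / M * (ph n x - Cc n T * (B / H + 1 / M)) ≤ Z.card := by
  have hM0 : 0 < M := by linarith
  have hn0 : (0 : ℝ) ≤ n := Nat.cast_nonneg n
  have hTn : 0 < T ^ n := by positivity
  have hkp : 0 < kp n T := by unfold kp; positivity
  set Φ : ℝ := 2 ^ (n + 1) * ((n + 1) ^ 2 * T ^ n) with hΦ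
  have hΦ0 : 0 < Φ := by positivity
  have hphle : ph n x ≤ Φ := ph_le hT hxT
  set ζ : ℝ := kp n T * (B / H) + (n + 1) ^ 2 * T ^ (n + 1) * (1 / M) with hζ
  have hζ0 : 0 ≤ ζ := by positivity
  have hζle : ζ ≤ kp n T * (B / H + 1 / M) := by
    rw [hζ, mul_add]
    have h1 : ((n : ℝ) + 1) ^ 2 * T ^ (n + 1) ≤ kp n T := by
      unfold kp
      have h2 : ((n : ℝ) + 1) ^ 2 ≤ (n + 2) ^ 2 * 2 ^ (n + 1) := by
        have h3 : (1 : ℝ) ≤ 2 ^ (n + 1) := one_le_pow₀ (by norm_num)
        nlinarith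
      exact mul_le_mul_of_nonneg_right h2 (by positivity)
    have := mul_le_mul_of_nonneg_right h1 (by positivity : (0 : ℝ) ≤ 1 / M)
    linarith
  have hs0 : 0 < B / H + 1 / M := by positivity
  rcases le_or_gt 1 ζ with h1 | h1
  · -- trivial case
    have h2 : ph n x ≤ Cc n T * (B / H + 1 / M) := by
      have h3 : Φ ≤ (n + 2) * kp n T * Φ * (B / H + 1 / M) := by
        have h4 : 1 ≤ kp n T * (B / H + 1 / M) := h1.trans hζle
        have h5 : (1 : ℝ) ≤ (n + 2) * (kp n T * (B / H + 1 / M)) := by nlinarith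
        calc Φ = 1 * Φ := (one_mul _).symm
          _ ≤ ((n + 2) * (kp n T * (B / H + 1 / M))) * Φ := mul_le_mul_of_nonneg_right h5 hΦ0.le
          _ = _ := by ring
      have h6 : (n + 2) * kp n T * Φ ≤ Cc n T := by
        unfold Cc
        rw [← hΦ]
        have : 0 ≤ (2 : ℝ) ^ (n + 1) * ((n + 1) ^ 3 * T ^ (n + 1) + 2 * (n + 3)) := by positivity
        linarith
      have := mul_le_mul_of_nonneg_right h6 hs0.le
      linarith
    have h7 : H ^ (n + 2) / M * (ph n x - Cc n T * (B / H + 1 / M)) ≤ 0 :=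
      mul_nonpos_of_nonneg_of_nonpos (by positivity) (by linarith)
    exact h7.trans (Nat.cast_nonneg _)
  · obtain ⟨H2, hH2⟩ : ∃ H2 : ℝ, H2 = H - kp n T * B - (n + 1) ^ 2 * T ^ (n + 1) * H * (1 / M) := ⟨_, rfl⟩
    have hH2' : H2 = H * (1 - ζ) := by
      rw [hH2, hζ]
      field_simp
      ring
    have hH20 : 0 < H2 := by rw [hH2']; exact mul_pos hH (by linarith)
    have hcount := Sp_count (n := n) (H := H) hT hM hB hx0 hx1 hxT hcov Z hZ
    have hfin : volume (Sp (n := n) (H - kp n T * B) ((n + 3) * (B / M)) a0 (a0 + 1 / M)) ≠ ⊤ :=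
      (lt_of_le_of_lt hcount (ENNReal.natCast_lt_top _)).ne
    have hvol := Sp_vol (n := n) hT hH hM hB hx0 hx1 hxT h0T h1T hH2 hH20 hfin
    have h2 : (volume (Sp (n := n) (H - kp n T * B) ((n + 3) * (B / M)) a0 (a0 + 1 / M))).toReal ≤ Z.card := by
      have := ENNReal.toReal_mono (ENNReal.natCast_ne_top _) hcount
      simpa using this
    refine le_trans ?_ (hvol.trans h2)
    -- algebra
    have hbern : 1 - ((n : ℝ) + 2) * ζ ≤ (1 - ζ) ^ (n + 2) := by
      have := one_add_mul_le_pow (a := -ζ) (by linarith) (n + 2)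
      push_cast at this
      have e : 1 - ζ = 1 + -ζ := by ring
      rw [e]
      linarith
    have h3 : H ^ (n + 2) * (1 - ((n : ℝ) + 2) * ζ) ≤ H2 ^ (n + 2) := by
      rw [hH2', mul_pow]
      exact mul_le_mul_of_nonneg_left hbern (by positivity)
    have h4 : H ^ (n + 2) / M * (ph n x - (n + 2) * ζ * Φ) ≤ H2 ^ (n + 2) * ph n x / M := by
      have h5 := mul_le_mul_of_nonneg_right h3 (ph_nonneg (n := n) x)
      have h6 : H ^ (n + 2) * (ph n x - (n + 2) * ζ * Φ) ≤ H ^ (n + 2) * (1 - ((n : ℝ) + 2) * ζ) * ph n x := by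
        have h7 : (n + 2) * ζ * ph n x ≤ (n + 2) * ζ * Φ := mul_le_mul_of_nonneg_left hphle (by positivity)
        have h8 : (0 : ℝ) < H ^ (n + 2) := by positivity
        nlinarith
      have h9 : H ^ (n + 2) / M * (ph n x - (n + 2) * ζ * Φ) =
          (H ^ (n + 2) * (ph n x - (n + 2) * ζ * Φ)) / M := by ring
      rw [h9]
      exact div_le_div_of_nonneg_right (h6.trans h5) hM0.le
    have h10 : (2 * H) ^ (n + 1) * ((n + 1) ^ 3 * T ^ (n + 1) * H * (1 / M) * (1 / M) +
        2 * ((n + 3) * (B / M))) = H ^ (n + 2) / M * (2 ^ (n + 1) * ((n + 1) ^ 3 * T ^ (n + 1) * (1 / M) +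
          2 * (n + 3) * (B / H))) := by
      rw [mul_pow]
      field_simp
      ring
    rw [h10]
    have h11 : 2 ^ (n + 1) * (((n : ℝ) + 1) ^ 3 * T ^ (n + 1) * (1 / M) + 2 * (n + 3) * (B / H)) ≤
        2 ^ (n + 1) * ((n + 1) ^ 3 * T ^ (n + 1) + 2 * (n + 3)) * (B / H + 1 / M) := by
      have hb : 0 ≤ B / H := by positivity
      have hm : 0 ≤ 1 / M := by positivity
      have h12 : 0 ≤ ((n : ℝ) + 1) ^ 3 * T ^ (n + 1) := by positivity
      have h13 : (0 : ℝ) ≤ 2 * (n + 3) := by positivity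
      have h14 : (0 : ℝ) < 2 ^ (n + 1) := by positivity
      rw [mul_assoc (2 ^ (n + 1)) _ (B / H + 1 / M)]
      refine mul_le_mul_of_nonneg_left ?_ h14.le
      nlinarith [mul_nonneg h12 hb, mul_nonneg h13 hm]
    have h15 : (n + 2) * ζ * Φ ≤ (n + 2) * kp n T * Φ * (B / H + 1 / M) := by
      calc (n + 2) * ζ * Φ ≤ (n + 2) * (kp n T * (B / H + 1 / M)) * Φ :=
            mul_le_mul_of_nonneg_right (mul_le_mul_of_nonneg_left hζle (by positivity)) hΦ0.le
        _ = _ := by ring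
    have h16 : H ^ (n + 2) / M * (ph n x - Cc n T * (B / H + 1 / M)) ≤
        H ^ (n + 2) / M * (ph n x - (n + 2) * ζ * Φ) - H ^ (n + 2) / M *
          (2 ^ (n + 1) * (((n : ℝ) + 1) ^ 3 * T ^ (n + 1) * (1 / M) + 2 * (n + 3) * (B / H))) := by
      rw [← mul_sub]
      refine mul_le_mul_of_nonneg_left ?_ (by positivity)
      have e2 : Cc n T * (B / H + 1 / M) = (n + 2) * kp n T * Φ * (B / H + 1 / M) +
          2 ^ (n + 1) * ((n + 1) ^ 3 * T ^ (n + 1) + 2 * (n + 3)) * (B / H + 1 / M) := by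
        unfold Cc
        rw [← hΦ]
        ring
      rw [e2]
      linarith
    linarith

end Pool.Agent.W5h30.LL
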