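import Mathlib

/-!
# Counting the points where a function takes integer values (helper30)
-/

set_option autoImplicit false

namespace Pool.Agent.W5h30.LL

open MeasureTheory Set

/-- the integrand -/
noncomputable def gi (f f' : ℝ → ℝ) (H x : ℝ) : ℝ := open Classical in if |f x| ≤ H then |f' x| else 0

lemma gi_nonneg (f f' : ℝ → ℝ) (H x : ℝ) : 0 ≤ gi f f' H x := by
  unfold gi
  split_ifs
  · exact abs_nonneg _
  · exact le_rfl

lemma gi_meas {f f' : ℝ → ℝ} (hf : Continuous f) (hc : Continuous f') (H : ℝ) : Measurable (gi f f' H) := by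
  classical
  unfold gi
  have h1 : MeasurableSet {x : ℝ | |f x| ≤ H} := (isClosed_le hf.abs continuous_const).measurableSet
  convert hc.abs.measurable.ite h1 measurable_const using 1

lemma gi_int {f f' : ℝ → ℝ} (hf : Continuous f) (hc : Continuous f') (H u v : ℝ) :
    IntervalIntegrable (gi f f' H) volume u v := by
  refine (hc.abs.intervalIntegrable u v).mono_fun' (gi_meas hf hc H).aestronglyMeasurable
    (Filter.Eventually.of_forall fun x => ?_)
  change ‖gi f f' H x‖ ≤ |f' x|
  rw [Real.norm_eq_abs, abs_of_nonneg (gi_nonneg f f' H x)]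
  unfold gi
  split_ifs
  · exact le_rfl
  · exact abs_nonneg _

/-- increasing pieces -/
lemma mono_count {f f' : ℝ → ℝ} (hd : ∀ x, HasDerivAt f (f' x) x) (hc : Continuous f') {u v : ℝ}
    (huv : u ≤ v) (hpos : ∀ x ∈ Ioo u v, 0 < f' x) (H : ℝ) (s : Finset ℝ)
    (hs : ∀ x ∈ s, x ∈ Ico u v ∧ ∃ c : ℤ, |(c : ℝ)| ≤ H ∧ f x = c) :
    (s.card : ℝ) ≤ (∫ x in u..v, gi f f' H x) + 1 := by
  classical
  have hf : Continuous f := continuous_iff_continuousAt.2 fun x => (hd x).continuousAt
  have hmono : StrictMonoOn f (Icc u v) := by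
    refine strictMonoOn_of_deriv_pos (convex_Icc u v) hf.continuousOn fun x hx => ?_
    rw [interior_Icc] at hx
    rw [(hd x).deriv]
    exact hpos x hx
  have hnn : 0 ≤ ∫ x in u..v, gi f f' H x :=
    intervalIntegral.integral_nonneg huv fun x _ => gi_nonneg f f' H x
  rcases s.eq_empty_or_nonempty with rfl | hne
  · simp only [Finset.card_empty, Nat.cast_zero]
    linarith
  set p := s.min' hne with hp
  set q := s.max' hne with hq
  have hps := s.min'_mem hne
  have hqs := s.max'_mem hne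
  rw [← hp] at hps
  rw [← hq] at hqs
  obtain ⟨hp1, cp, hp2, hp3⟩ := hs p hps
  obtain ⟨hq1, cq, hq2, hq3⟩ := hs q hqs
  have hpq : p ≤ q := s.min'_le q hqs
  have hcard : (s.card : ℝ) ≤ cq - cp + 1 := by
    have hmap : ∀ x ∈ s, ⌊f x⌋ ∈ Finset.Icc cp cq := by
      intro x hx
      obtain ⟨hx1, c, _, hx3⟩ := hs x hx
      rw [hx3, Int.floor_intCast, Finset.mem_Icc]
      have h1 : f p ≤ f x := hmono.monotoneOn ⟨hp1.1, hp1.2.le⟩ ⟨hx1.1, hx1.2.le⟩ (s.min'_le x hx)
      have h2 : f x ≤ f q := hmono.monotoneOn ⟨hx1.1, hx1.2.le⟩ ⟨hq1.1, hq1.2.le⟩ (s.le_max' x hx)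
      rw [hp3, hx3] at h1
      rw [hq3, hx3] at h2
      exact ⟨by exact_mod_cast h1, by exact_mod_cast h2⟩
    have hinj : Set.InjOn (fun x => ⌊f x⌋) s := by
      intro x hx y hy hxy
      obtain ⟨hx1, c, _, hx3⟩ := hs x hx
      obtain ⟨hy1, c', _, hy3⟩ := hs y hy
      simp only at hxy
      rw [hx3, hy3, Int.floor_intCast, Int.floor_intCast] at hxy
      apply hmono.injOn ⟨hx1.1, hx1.2.le⟩ ⟨hy1.1, hy1.2.le⟩
      rw [hx3, hy3, hxy]
    have h3 := Finset.card_le_card_of_injOn (fun x => ⌊f x⌋) hmap hinj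
    rw [Int.card_Icc] at h3
    have h4 : cp ≤ cq := by
      have := hmono.monotoneOn ⟨hp1.1, hp1.2.le⟩ ⟨hq1.1, hq1.2.le⟩ hpq
      rw [hp3, hq3] at this
      exact_mod_cast this
    have h5 : ((s.card : ℕ) : ℤ) ≤ cq + 1 - cp := by
      have : ((s.card : ℕ) : ℤ) ≤ ((cq + 1 - cp).toNat : ℤ) := by exact_mod_cast h3
      rwa [Int.toNat_of_nonneg (by omega)] at this
    have h6 : ((s.card : ℕ) : ℝ) ≤ ((cq + 1 - cp : ℤ) : ℝ) := by exact_mod_cast h5
    push_cast at h6
    linarith
  have hint : (cq : ℝ) - cp ≤ ∫ x in u..v, gi f f' H x := by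
    have h1 : ∫ x in p..q, f' x = f q - f p := by
      apply intervalIntegral.integral_eq_sub_of_hasDerivAt (fun x _ => hd x)
      exact hc.intervalIntegrable _ _
    have h2 : ∫ x in p..q, f' x ≤ ∫ x in p..q, gi f f' H x := by
      refine intervalIntegral.integral_mono_on hpq (hc.intervalIntegrable _ _) (gi_int hf hc H _ _) ?_
      intro x hx
      have hxI : x ∈ Icc u v := ⟨hp1.1.trans hx.1, hx.2.trans hq1.2.le⟩
      have h3 : f p ≤ f x := hmono.monotoneOn ⟨hp1.1, hp1.2.le⟩ hxI hx.1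
      have h4 : f x ≤ f q := hmono.monotoneOn hxI ⟨hq1.1, hq1.2.le⟩ hx.2
      unfold gi
      rw [if_pos]
      · exact le_abs_self _
      · rw [abs_le] at hp2 hq2 ⊢
        rw [hp3] at h3
        rw [hq3] at h4
        constructor <;> linarith [hp2.1, hq2.2]
    have h5 : ∫ x in p..q, gi f f' H x ≤ ∫ x in u..v, gi f f' H x := by
      refine intervalIntegral.integral_mono_interval hp1.1 hpq hq1.2.le ?_ (gi_int hf hc H _ _)
      exact Filter.Eventually.of_forall fun x => gi_nonneg f f' H x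
    rw [hp3, hq3] at h1
    linarith
  linarith

/-- pieces without critical points -/
lemma piece_count {f f' : ℝ → ℝ} (hd : ∀ x, HasDerivAt f (f' x) x) (hc : Continuous f') {u v : ℝ}
    (huv : u ≤ v) (hne : ∀ x ∈ Ioo u v, f' x ≠ 0) (H : ℝ) (s : Finset ℝ)
    (hs : ∀ x ∈ s, x ∈ Ico u v ∧ ∃ c : ℤ, |(c : ℝ)| ≤ H ∧ f x = c) :
    (s.card : ℝ) ≤ (∫ x in u..v, gi f f' H x) + 1 := by
  by_cases hpos : ∀ x ∈ Ioo u v, 0 < f' x
  · exact mono_count hd hc huv hpos H s hs
  push Not at hpos
  obtain ⟨x0, hx0, h0⟩ := hpos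
  have hneg : ∀ x ∈ Ioo u v, 0 < -f' x := by
    intro x hx
    by_contra hcon
    have h1 : 0 < f' x := lt_of_le_of_ne (by linarith) (Ne.symm (hne x hx))
    have h2 : f' x0 < 0 := lt_of_le_of_ne h0 (hne x0 hx0)
    have h3 := isPreconnected_Ioo.intermediate_value hx0 hx hc.continuousOn
    obtain ⟨y, hy, hy0⟩ := h3 ⟨h2.le, h1.le⟩
    exact hne y hy hy0
  have h1 := mono_count (f := fun x => -f x) (f' := fun x => -f' x) (fun x => (hd x).neg) hc.neg huv hneg H s
    (by
      intro x hx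
      obtain ⟨h1, c, h2, h3⟩ := hs x hx
      refine ⟨h1, -c, ?_, ?_⟩
      · push_cast; rw [abs_neg]; exact h2
      · push_cast; rw [h3])
  have h2 : gi (fun x => -f x) (fun x => -f' x) H = gi f f' H := by
    funext x
    unfold gi
    simp only [abs_neg]
  rwa [h2] at h1

/-- the general count -/
lemma count_crit {f f' : ℝ → ℝ} (hd : ∀ x, HasDerivAt f (f' x) x) (hc : Continuous f') (H : ℝ)
    (Cr : Finset ℝ) (hCr : ∀ x, f' x = 0 → x ∈ Cr) : ∀ (k : ℕ) (u v : ℝ), u ≤ v →
    (Cr.filter (fun x => x ∈ Ioo u v)).card = k → ∀ s : Finset ℝ,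
    (∀ x ∈ s, x ∈ Ico u v ∧ ∃ c : ℤ, |(c : ℝ)| ≤ H ∧ f x = c) →
    (s.card : ℝ) ≤ (∫ x in u..v, gi f f' H x) + (k + 1) := by
  classical
  have hf : Continuous f := continuous_iff_continuousAt.2 fun x => (hd x).continuousAt
  intro k
  induction k using Nat.strong_induction_on with
  | _ k ih =>
    intro u v huv hk s hs
    rcases (Cr.filter (fun x => x ∈ Ioo u v)).eq_empty_or_nonempty with he | ⟨w, hw⟩
    · have h1 := piece_count hd hc huv (by
        intro x hx h0
        have : x ∈ Cr.filter (fun x => x ∈ Ioo u v) := Finset.mem_filter.2 ⟨hCr x h0, hx⟩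
        rw [he] at this
        exact absurd this (Finset.notMem_empty x)) H s hs
      have : (0 : ℝ) ≤ k := Nat.cast_nonneg k
      linarith
    · rw [Finset.mem_filter] at hw
      obtain ⟨hwC, hwI⟩ := hw
      set C1 := Cr.filter (fun x => x ∈ Ioo u w) with hC1
      set C2 := Cr.filter (fun x => x ∈ Ioo w v) with hC2
      have hdisj : C1.card + C2.card + 1 ≤ k := by
        rw [← hk]
        have h1 : Disjoint C1 C2 := by
          rw [Finset.disjoint_left]
          intro x hx1 hx2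
          rw [hC1, Finset.mem_filter] at hx1
          rw [hC2, Finset.mem_filter] at hx2
          exact absurd (hx1.2.2.trans hx2.2.1) (lt_irrefl _)
        have h2 : w ∉ C1 ∪ C2 := by
          rw [Finset.mem_union, hC1, hC2, Finset.mem_filter, Finset.mem_filter]
          rintro (h | h)
          · exact lt_irrefl _ h.2.2
          · exact lt_irrefl _ h.2.1
        have h3 : insert w (C1 ∪ C2) ⊆ Cr.filter (fun x => x ∈ Ioo u v) := by
          intro x hx
          rw [Finset.mem_insert, Finset.mem_union, hC1, hC2, Finset.mem_filter, Finset.mem_filter] at hx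
          rw [Finset.mem_filter]
          rcases hx with rfl | ⟨h1, h2⟩ | ⟨h1, h2⟩
          · exact ⟨hwC, hwI⟩
          · exact ⟨h1, h2.1, h2.2.trans hwI.2⟩
          · exact ⟨h1, hwI.1.trans h2.1, h2.2⟩
        have h4 := Finset.card_le_card h3
        rw [Finset.card_insert_of_notMem h2, Finset.card_union_of_disjoint h1] at h4
        exact h4
      have i1 := ih C1.card (by omega) u w hwI.1.le rfl (s.filter (fun x => x < w)) (by
        intro x hx
        rw [Finset.mem_filter] at hx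
        obtain ⟨h1, h2⟩ := hs x hx.1
        exact ⟨⟨h1.1, hx.2⟩, h2⟩)
      have i2 := ih C2.card (by omega) w v hwI.2.le rfl (s.filter (fun x => ¬ x < w)) (by
        intro x hx
        rw [Finset.mem_filter] at hx
        obtain ⟨h1, h2⟩ := hs x hx.1
        exact ⟨⟨not_lt.1 hx.2, h1.2⟩, h2⟩)
      have h5 := Finset.card_filter_add_card_filter_not (s := s) (fun x => x < w)
      have h6 : ∫ x in u..v, gi f f' H x = (∫ x in u..w, gi f f' H x) + ∫ x in w..v, gi f f' H x :=
        (intervalIntegral.integral_add_adjacent_intervals (gi_int hf hc H _ _) (gi_int hf hc H _ _)).symm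
      have h7 : (s.card : ℝ) = ((s.filter (fun x => x < w)).card : ℝ) +
          ((s.filter (fun x => ¬ x < w)).card : ℝ) := by exact_mod_cast h5.symm
      have h8 : (C1.card : ℝ) + C2.card + 1 ≤ k := by exact_mod_cast hdisj
      rw [h6, h7]
      linarith

end Pool.Agent.W5h30.LL
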