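import Mathlib
import Pool.Agent.W5h30.LL.Mono
import Pool.Agent.W5h30.LL.Lip
import Pool.Agent.Y933.KG.Mob2

/-!
# An upper bound for the number of all real roots in an interval (helper30)
-/

set_option autoImplicit false

namespace Pool.Agent.W5h30.LL

open MeasureTheory Set Polynomial
open Pool.Agent.Y933.KG

/-- integer coefficients as real coefficients -/
def ra {q : ℕ} (a : Fin (q + 2) → ℤ) : Fin (q + 1 + 1) → ℝ := fun i => (a i : ℝ)

lemma pol_fa {q : ℕ} (a : Fin (q + 2) → ℤ) (t : ℝ) : (pol q a 0).eval t = fa (ra a) t := by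
  unfold pol fa ra
  rw [eval_add, eval_finsetSum, eval_C, Int.cast_zero, add_zero]
  refine Finset.sum_congr rfl fun i _ => ?_
  rw [eval_mul, eval_C, eval_pow, eval_X]

lemma pol_ga {q : ℕ} (a : Fin (q + 2) → ℤ) (t : ℝ) : (derivative (pol q a 0)).eval t = ga (ra a) t := by
  have h1 := (pol q a 0).hasDerivAt t
  have h2 := fa_hasDerivAt (ra a) t
  have h3 : (fun x => (pol q a 0).eval x) = fa (ra a) := funext fun x => pol_fa a x
  rw [h3] at h1
  exact h1.unique h2

/-- one vector of coefficients -/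
lemma inner_count {q H : ℕ} (a : Fin (q + 2) → ℤ) (h0 : a (Fin.last (q + 1)) ≠ 0) (ha : ∀ i, |a i| ≤ H)
    {A B : ℝ} (hAB : A ≤ B) (s : Finset ℝ)
    (hs : ∀ x ∈ s, x ∈ Ico A B ∧ ∃ c : ℤ, |(c : ℝ)| ≤ H ∧ (pol q a 0).eval x = c) :
    (s.card : ℝ) ≤ (∫ t in A..B, G (n := q + 1) (H : ℝ) t (ra a)) + (q + 2) := by
  classical
  have hne : derivative (pol q a 0) ≠ 0 := by
    intro h
    have h1 := pol_coeff_succ q a 0 (Fin.last (q + 1))
    have h2 : (derivative (pol q a 0)).coeff (q + 1) = 0 := by rw [h, coeff_zero]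
    rw [coeff_derivative] at h2
    rw [Fin.val_last] at h1
    rw [h1] at h2
    have h3 : ((q + 1 : ℕ) : ℝ) + 1 ≠ 0 := by positivity
    rcases mul_eq_zero.1 h2 with h4 | h4
    · exact h0 (by exact_mod_cast h4)
    · exact h3 h4
  set Cr : Finset ℝ := (derivative (pol q a 0)).roots.toFinset with hCr
  have hcard : Cr.card ≤ q + 1 := by
    refine (Multiset.toFinset_card_le _).trans ((card_roots' _).trans ?_)
    refine (natDegree_derivative_le _).trans ?_
    have := pol_natDegree_le q a 0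
    omega
  have h1 := count_crit (f := fa (ra a)) (f' := ga (ra a)) (fun x => fa_hasDerivAt (ra a) x)
    (ga_cont (ra a)) (H : ℝ) Cr (by
      intro x hx
      rw [hCr, Multiset.mem_toFinset, mem_roots hne, IsRoot, pol_ga]
      exact hx) _ A B hAB rfl s (by
      intro x hx
      obtain ⟨h1, c, h2, h3⟩ := hs x hx
      exact ⟨h1, c, h2, by rw [← pol_fa]; exact h3⟩)
  have h2 : ((Cr.filter (fun x => x ∈ Ioo A B)).card : ℝ) ≤ q + 1 := by
    exact_mod_cast (Finset.card_filter_le _ _).trans hcard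
  have h3 : ∀ t, gi (fa (ra a)) (ga (ra a)) (H : ℝ) t = G (n := q + 1) (H : ℝ) t (ra a) := by
    intro t
    unfold gi G
    have h4 : ∀ i, |ra a i| ≤ (H : ℝ) := by
      intro i
      unfold ra
      exact_mod_cast ha i
    by_cases h5 : |fa (ra a) t| ≤ (H : ℝ)
    · rw [if_pos h5, if_pos ⟨h4, h5⟩]
    · rw [if_neg h5, if_neg (fun h => h5 h.2)]
  simp only [h3] at h1
  linarith

lemma G_int_t {n : ℕ} (X : ℝ) (a : Fin (n + 1) → ℝ) (A B : ℝ) :
    IntervalIntegrable (fun t => G X t a) volume A B := by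
  classical
  by_cases h : ∀ i, |a i| ≤ X
  · have h1 : (fun t => G X t a) = gi (fa a) (ga a) X := by
      funext t
      unfold gi G
      by_cases h5 : |fa a t| ≤ X
      · rw [if_pos h5, if_pos ⟨h, h5⟩]
      · rw [if_neg h5, if_neg (fun h => h5 h.2)]
    rw [h1]
    exact gi_int (fa_cont a) (ga_cont a) X A B
  · have h1 : (fun t => G X t a) = fun _ => 0 := by
      funext t
      unfold G
      rw [if_neg (fun h' => h h'.1)]
    rw [h1]
    exact intervalIntegrable_const

/-- all vectors of coefficients, at one point -/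
lemma sum_G {q H : ℕ} {T t : ℝ} (hT : 1 ≤ T) (ht : |t| ≤ T) {X : ℝ}
    (hX : X = H + (q + 2) ^ 2 * T ^ (q + 2)) :
    ∑ a ∈ Av q H, G (n := q + 1) (H : ℝ) t (ra a) ≤
      X ^ (q + 3) * ph (q + 1) t + (2 * X) ^ (q + 2) * ((q + 2) ^ 2 * T ^ (q + 2)) := by
  classical
  have hq0 : (0 : ℝ) ≤ q := Nat.cast_nonneg q
  have hTk : ∀ k : ℕ, 1 ≤ T ^ k := fun k => one_le_pow₀ hT
  obtain ⟨D, hD⟩ : ∃ D : ℝ, D = (q + 2) ^ 2 * T ^ (q + 2) := ⟨_, rfl⟩
  have hD1 : 1 ≤ D := by
    rw [hD]
    have h1 : (1 : ℝ) ≤ (q + 2) ^ 2 := by nlinarith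
    nlinarith [hTk (q + 2)]
  rw [← hD] at hX ⊢
  have hX0 : 0 < X := by
    rw [hX]
    have : (0 : ℝ) ≤ H := Nat.cast_nonneg H
    linarith
  set F : (Fin (q + 1 + 1) → ℝ) → ℝ := fun y => G (n := q + 1) X t y +
    (Icc (fun _ => -X) (fun _ => X)).indicator (fun _ => D) y with hF
  have hF0 : ∀ y, 0 ≤ F y := fun y => add_nonneg (G_nonneg _ _ _)
    (indicator_nonneg (fun _ _ => by linarith) _)
  have hBI : Integrable ((Icc (fun _ => -X) (fun _ => X)).indicator
      (fun _ : Fin (q + 1 + 1) → ℝ => D)) := by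
    rw [integrable_indicator_iff measurableSet_Icc]
    refine integrableOn_const ?_
    rw [box_vol hX0.le]
    exact ENNReal.ofReal_ne_top
  have hFi : Integrable F := (G_int hX0.le).add hBI
  set Q : (Fin (q + 2) → ℤ) → Set (Fin (q + 1 + 1) → ℝ) := fun a =>
    univ.pi fun i => Ico (a i : ℝ) (a i + 1) with hQ
  have hQm : ∀ a, MeasurableSet (Q a) := fun a => MeasurableSet.univ_pi fun _ => measurableSet_Ico
  have hQv : ∀ a, volume (Q a) = 1 := by
    intro a
    rw [hQ]
    simp only
    rw [volume_pi_pi]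
    simp
  have hpt : ∀ a ∈ Av q H, ∀ y ∈ Q a, G (n := q + 1) (H : ℝ) t (ra a) ≤ F y := by
    intro a ha y hy
    rw [mem_Av] at ha
    have haR : ∀ i, |ra a i| ≤ (H : ℝ) := by
      intro i
      unfold ra
      exact_mod_cast ha i
    have hyd : ∀ i, |(y - ra a) i| ≤ 1 := by
      intro i
      rw [hQ] at hy
      have := hy i (mem_univ i)
      rw [Pi.sub_apply, abs_le]
      unfold ra
      constructor <;> linarith [this.1, this.2]
    have hyX : ∀ i, |y i| ≤ X := by
      intro i
      have h1 := hyd i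
      have h2 := haR i
      have h3 : y i = (y - ra a) i + ra a i := by rw [Pi.sub_apply]; ring
      rw [h3, hX]
      have := abs_add_le ((y - ra a) i) (ra a i)
      linarith
    have hfs : fa (y - ra a) t = fa y t - fa (ra a) t := by
      unfold fa
      rw [← Finset.sum_sub_distrib]
      refine Finset.sum_congr rfl fun i _ => ?_
      rw [Pi.sub_apply]; ring
    have hgs : ga (y - ra a) t = ga y t - ga (ra a) t := by
      unfold ga
      rw [← Finset.sum_sub_distrib]
      refine Finset.sum_congr rfl fun i _ => ?_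
      rw [Pi.sub_apply]; ring
    have hf1 : |fa y t - fa (ra a) t| ≤ D := by
      rw [← hfs]
      refine (fa_le zero_le_one hT ht hyd).trans ?_
      rw [hD]
      push_cast
      have h1 : T ^ (q + 1 + 1) = T ^ (q + 2) := rfl
      rw [h1]
      nlinarith [hTk (q + 2), mul_nonneg hq0 (zero_le_one.trans (hTk (q + 2))),
        mul_nonneg (mul_nonneg hq0 hq0) (zero_le_one.trans (hTk (q + 2)))]
    have hg1 : |ga y t - ga (ra a) t| ≤ D := by
      rw [← hgs]
      refine (ga_le zero_le_one hT ht hyd).trans ?_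
      rw [hD]
      push_cast
      have h1 : T ^ (q + 1) ≤ T ^ (q + 2) := pow_le_pow_right₀ hT (by omega)
      have h2 : ((q : ℝ) + 1 + 1) ^ 2 = (q + 2) ^ 2 := by ring
      rw [h2, mul_one]
      exact mul_le_mul_of_nonneg_left h1 (by positivity)
    rw [hF]
    simp only
    have hyB : y ∈ Icc (fun _ : Fin (q + 1 + 1) => -X) (fun _ => X) := by
      rw [← box_eq]; exact hyX
    rw [indicator_of_mem hyB]
    by_cases h5 : |fa (ra a) t| ≤ (H : ℝ)
    · have h6 : |fa y t| ≤ X := by
        have := abs_sub_abs_le_abs_sub (fa y t) (fa (ra a) t)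
        rw [hX]
        linarith
      unfold G
      rw [if_pos ⟨haR, h5⟩, if_pos ⟨hyX, h6⟩]
      have := abs_sub_abs_le_abs_sub (ga (ra a) t) (ga y t)
      rw [abs_sub_comm] at this
      linarith
    · have h7 : G (n := q + 1) (H : ℝ) t (ra a) = 0 := by
        unfold G
        rw [if_neg (fun h => h5 h.2)]
      rw [h7]
      have := G_nonneg X t y
      linarith
  have hone : ∀ a ∈ Av q H, G (n := q + 1) (H : ℝ) t (ra a) ≤ ∫ y in Q a, F y := by
    intro a ha
    have h1 : ∫ _y in Q a, G (n := q + 1) (H : ℝ) t (ra a) ≤ ∫ y in Q a, F y := by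
      refine setIntegral_mono_on ?_ hFi.integrableOn (hQm a) (hpt a ha)
      refine integrableOn_const ?_
      rw [hQv]
      exact ENNReal.one_ne_top
    rw [setIntegral_const, Measure.real, hQv, ENNReal.toReal_one, one_smul] at h1
    exact h1
  have hsum : ∑ a ∈ Av q H, ∫ y in Q a, F y ≤ ∫ y, F y := by
    rw [← integral_biUnion_finset _ (fun a _ => hQm a) ?_ (fun a _ => hFi.integrableOn)]
    · exact setIntegral_le_integral hFi (Filter.Eventually.of_forall hF0)
    · intro a _ b _ hab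
      rw [Function.onFun, Set.disjoint_left]
      intro y hya hyb
      apply hab
      funext i
      have h1 := hya i (mem_univ i)
      have h2 := hyb i (mem_univ i)
      have h3 : (a i : ℝ) < b i + 1 := lt_of_le_of_lt h1.1 h2.2
      have h4 : (b i : ℝ) < a i + 1 := lt_of_le_of_lt h2.1 h1.2
      have h5 : a i < b i + 1 := by exact_mod_cast h3
      have h6 : b i < a i + 1 := by exact_mod_cast h4
      omega
  refine (Finset.sum_le_sum hone).trans (hsum.trans (le_of_eq ?_))
  rw [hF, integral_add (G_int hX0.le) hBI, int_scale hX0, integral_indicator measurableSet_Icc,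
    setIntegral_const, Measure.real, box_vol hX0.le, ENNReal.toReal_ofReal (by positivity), smul_eq_mul]

/-- **the upper bound for the number of all roots** -/
theorem tot_upper {q H : ℕ} {T A B : ℝ} (hT : 1 ≤ T) (hA : -T ≤ A) (hAB : A ≤ B) (hB : B ≤ T) {X : ℝ}
    (hX : X = H + (q + 2) ^ 2 * T ^ (q + 2)) :
    ((((Om q H).filter (fun p => p.2.2 ∈ Ico A B)).card : ℕ) : ℝ) ≤
      X ^ (q + 3) * (∫ t in A..B, ph (q + 1) t) +
        (B - A) * ((2 * X) ^ (q + 2) * ((q + 2) ^ 2 * T ^ (q + 2))) +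
        4 * (q + 2) * (2 * H + 1) ^ (q + 2) := by
  classical
  have hsplit : (((Om q H).filter (fun p => p.2.2 ∈ Ico A B)).card : ℝ) ≤
      (((Om q H).filter (fun p => p.1 (Fin.last (q + 1)) = 0)).card : ℝ) +
      (((Om q H).filter (fun p => p.1 (Fin.last (q + 1)) ≠ 0 ∧ p.2.2 ∈ Ico A B)).card : ℝ) := by
    have h1 : (Om q H).filter (fun p => p.2.2 ∈ Ico A B) ⊆
        (Om q H).filter (fun p => p.1 (Fin.last (q + 1)) = 0) ∪
        (Om q H).filter (fun p => p.1 (Fin.last (q + 1)) ≠ 0 ∧ p.2.2 ∈ Ico A B) := by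
      intro p hp
      rw [Finset.mem_filter] at hp
      rw [Finset.mem_union, Finset.mem_filter, Finset.mem_filter]
      by_cases h0 : p.1 (Fin.last (q + 1)) = 0
      · exact Or.inl ⟨hp.1, h0⟩
      · exact Or.inr ⟨hp.1, h0, hp.2⟩
    have h2 := (Finset.card_le_card h1).trans (Finset.card_union_le _ _)
    exact_mod_cast h2
  have hz := zero_card q H
  have hmain : (((Om q H).filter (fun p => p.1 (Fin.last (q + 1)) ≠ 0 ∧ p.2.2 ∈ Ico A B)).card : ℝ) ≤
      ∑ a ∈ (Av q H).filter (fun a => a (Fin.last (q + 1)) ≠ 0),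
        ((∫ t in A..B, G (n := q + 1) (H : ℝ) t (ra a)) + (q + 2)) := by
    have h1 : (((Om q H).filter (fun p => p.1 (Fin.last (q + 1)) ≠ 0 ∧ p.2.2 ∈ Ico A B)).card : ℂ) =
        ∑ a ∈ (Av q H).filter (fun a => a (Fin.last (q + 1)) ≠ 0),
          ∑ c ∈ Finset.Icc (-(H : ℤ)) H, ∑ x ∈ (pol q a c).roots.toFinset,
            (if x ∈ Ico A B then (1 : ℂ) else 0) := by
      rw [Finset.card_eq_sum_ones, Nat.cast_sum, Finset.sum_filter]
      unfold Om
      rw [Finset.sum_sigma, Finset.sum_filter]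
      refine Finset.sum_congr rfl fun a _ => ?_
      rw [Finset.sum_sigma]
      by_cases h0 : a (Fin.last (q + 1)) ≠ 0
      · rw [if_pos h0]
        refine Finset.sum_congr rfl fun c _ => Finset.sum_congr rfl fun x _ => ?_
        simp only [h0, ne_eq, not_false_eq_true, true_and, Nat.cast_one]
      · rw [if_neg h0]
        refine Finset.sum_eq_zero fun c _ => Finset.sum_eq_zero fun x _ => ?_
        rw [if_neg]
        exact fun h => h0 h.1
    have h2 : ∀ a ∈ (Av q H).filter (fun a => a (Fin.last (q + 1)) ≠ 0), ∃ s : Finset ℝ,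
        (∀ x ∈ s, x ∈ Ico A B ∧ ∃ c : ℤ, |(c : ℝ)| ≤ H ∧ (pol q a 0).eval x = c) ∧
        ∑ c ∈ Finset.Icc (-(H : ℤ)) H, ∑ x ∈ (pol q a c).roots.toFinset,
            (if x ∈ Ico A B then (1 : ℂ) else 0) = (s.card : ℂ) := by
      intro a ha
      rw [Finset.mem_filter] at ha
      obtain ⟨X, hX1, hX2⟩ := inner_eq (q := q) (H := H) a ha.2 (fun x => if x ∈ Ico A B then (1 : ℂ) else 0)
      refine ⟨X.filter (fun x => x ∈ Ico A B), ?_, ?_⟩
      · intro x hx
        rw [Finset.mem_filter] at hx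
        exact ⟨hx.2, (hX1 x).1 hx.1⟩
      · rw [hX2, Finset.card_eq_sum_ones, Nat.cast_sum, Finset.sum_filter]
        refine Finset.sum_congr rfl fun x _ => ?_
        split_ifs <;> simp
    choose! s hs1 hs2 using h2
    have h3 : (((Om q H).filter (fun p => p.1 (Fin.last (q + 1)) ≠ 0 ∧ p.2.2 ∈ Ico A B)).card : ℝ) =
        ∑ a ∈ (Av q H).filter (fun a => a (Fin.last (q + 1)) ≠ 0), ((s a).card : ℝ) := by
      have h4 : (((Om q H).filter (fun p => p.1 (Fin.last (q + 1)) ≠ 0 ∧ p.2.2 ∈ Ico A B)).card : ℂ) =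
          ∑ a ∈ (Av q H).filter (fun a => a (Fin.last (q + 1)) ≠ 0), ((s a).card : ℂ) := by
        rw [h1]
        exact Finset.sum_congr rfl fun a ha => hs2 a ha
      exact_mod_cast h4
    rw [h3]
    refine Finset.sum_le_sum fun a ha => ?_
    have ha' := ha
    rw [Finset.mem_filter, mem_Av] at ha'
    exact inner_count a ha'.2 ha'.1 hAB (s a) (hs1 a ha)
  have hcardAv : (((Av q H).filter (fun a => a (Fin.last (q + 1)) ≠ 0)).card : ℝ) ≤ (2 * H + 1) ^ (q + 2) := by
    have h1 := Finset.card_filter_le (Av q H) (fun a => a (Fin.last (q + 1)) ≠ 0)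
    rw [card_Av] at h1
    exact_mod_cast h1
  have hsumint : ∑ a ∈ (Av q H).filter (fun a => a (Fin.last (q + 1)) ≠ 0),
      (∫ t in A..B, G (n := q + 1) (H : ℝ) t (ra a)) ≤
      X ^ (q + 3) * (∫ t in A..B, ph (q + 1) t) +
        (B - A) * ((2 * X) ^ (q + 2) * ((q + 2) ^ 2 * T ^ (q + 2))) := by
    calc ∑ a ∈ (Av q H).filter (fun a => a (Fin.last (q + 1)) ≠ 0),
          (∫ t in A..B, G (n := q + 1) (H : ℝ) t (ra a))
        ≤ ∑ a ∈ Av q H, (∫ t in A..B, G (n := q + 1) (H : ℝ) t (ra a)) := by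
          refine Finset.sum_le_sum_of_subset_of_nonneg (Finset.filter_subset _ _) fun a _ _ => ?_
          exact intervalIntegral.integral_nonneg hAB fun t _ => G_nonneg _ _ _
      _ = ∫ t in A..B, ∑ a ∈ Av q H, G (n := q + 1) (H : ℝ) t (ra a) := by
          rw [intervalIntegral.integral_finsetSum]
          exact fun a _ => G_int_t _ _ _ _
      _ ≤ ∫ t in A..B, (X ^ (q + 3) * ph (q + 1) t +
            (2 * X) ^ (q + 2) * ((q + 2) ^ 2 * T ^ (q + 2))) := by
          refine intervalIntegral.integral_mono_on hAB ?_ ?_ ?_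
          · have h := IntervalIntegrable.sum (μ := volume) (a := A) (b := B) (Av q H)
              (f := fun a t => G (n := q + 1) (H : ℝ) t (ra a)) (fun a _ => G_int_t _ _ _ _)
            have e : (∑ a ∈ Av q H, fun t => G (n := q + 1) (H : ℝ) t (ra a)) =
                fun t => ∑ a ∈ Av q H, G (n := q + 1) (H : ℝ) t (ra a) := by
              funext t
              rw [Finset.sum_apply]
            rwa [e] at h
          · exact ((ph_cont.const_mul _).add continuous_const).intervalIntegrable _ _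
          · intro t ht
            have htT : |t| ≤ T := by rw [abs_le]; constructor <;> linarith [ht.1, ht.2]
            exact sum_G hT htT hX
      _ = _ := by
          rw [intervalIntegral.integral_add ((ph_cont.const_mul _).intervalIntegrable _ _)
            (continuous_const.intervalIntegrable _ _), intervalIntegral.integral_const_mul,
            intervalIntegral.integral_const, smul_eq_mul]
  rw [Finset.sum_add_distrib, Finset.sum_const, nsmul_eq_mul] at hmain
  have h9 : (((Av q H).filter (fun a => a (Fin.last (q + 1)) ≠ 0)).card : ℝ) * ((q : ℝ) + 2) ≤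
      (2 * H + 1) ^ (q + 2) * (q + 2) := mul_le_mul_of_nonneg_right hcardAv (by positivity)
  have h10 : 4 * ((q : ℝ) + 2) * (2 * H + 1) ^ (q + 2) =
      3 * (q + 2) * (2 * H + 1) ^ (q + 2) + (2 * H + 1) ^ (q + 2) * (q + 2) := by ring
  rw [h10]
  linarith

end Pool.Agent.W5h30.LL
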