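import Mathlib
import Pool.Agent.W5h30.LL.Cell
import Pool.Agent.W5h30.LL.Tot

/-!
# The number of the real roots in unions of short intervals, from below (helper30)
-/

set_option autoImplicit false

namespace Pool.Agent.W5h30.LL

open MeasureTheory Set Polynomial
open Pool.Agent.Y933.KG

/-- the mass of the cell number `u` -/
noncomputable def ms (q M : ℕ) (u : ℤ) : ℝ := ∫ t in ((u : ℝ) / M)..((u : ℝ) / M + 1 / M), ph (q + 1) t

/-- the number of roots of all polynomials in the cells `u ∈ J` -/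
noncomputable def NJ (q H M : ℕ) (J : Finset ℤ) : ℕ :=
  open Classical in ((Om q H).filter (fun p => ⌊(M : ℝ) * p.2.2⌋ ∈ J)).card

lemma mem_cell {M : ℕ} (hM : 1 ≤ M) (x : ℝ) (u : ℤ) :
    ⌊(M : ℝ) * x⌋ = u ↔ x ∈ Ico ((u : ℝ) / M) ((u : ℝ) / M + 1 / M) := by
  have hM0 : (0 : ℝ) < M := by exact_mod_cast hM
  rw [Int.floor_eq_iff, mem_Ico, ← add_div, div_le_iff₀ hM0, lt_div_iff₀ hM0, mul_comm x]

lemma NJ_sum (q H M : ℕ) (J : Finset ℤ) : NJ q H M J = ∑ u ∈ J, NJ q H M {u} := by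
  classical
  unfold NJ
  rw [Finset.card_eq_sum_card_fiberwise (f := fun p => ⌊(M : ℝ) * p.2.2⌋) (t := J)]
  · refine Finset.sum_congr rfl fun u hu => ?_
    congr 1
    ext p
    rw [Finset.mem_filter, Finset.mem_filter, Finset.mem_filter, Finset.mem_singleton]
    constructor
    · rintro ⟨⟨h1, _⟩, h3⟩
      exact ⟨h1, h3⟩
    · rintro ⟨h1, h3⟩
      exact ⟨⟨h1, h3 ▸ hu⟩, h3⟩
  · intro p hp
    exact (Finset.mem_filter.1 hp).2

lemma pv_pol {q : ℕ} (z : Fin (q + 3) → ℤ) (t : ℝ) :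
    (pv (iv z)).eval t = (pol q (fun i : Fin (q + 2) => z i.succ) (z 0)).eval t := by
  rw [pol_eval, pol_fa]
  have h1 : iv z = (Fin.cons (z 0 : ℝ) (ra (fun i : Fin (q + 2) => z i.succ)) : Fin (q + 3) → ℝ) := by
    funext i
    refine Fin.cases ?_ (fun j => ?_) i
    · rw [Fin.cons_zero]; rfl
    · rw [Fin.cons_succ]; rfl
  rw [h1, pv_cons]
  ring

/-- one cell -/
lemma one_cell {q H M : ℕ} {T B x : ℝ} (hT : 1 ≤ T) (hH : 1 ≤ H) (hM : 1 ≤ M) (hB : 0 < B) (u : ℤ)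
    (hu0 : -T ≤ (u : ℝ) / M) (hu1 : (u : ℝ) / M + 1 / M ≤ T)
    (hx : x ∈ Ico ((u : ℝ) / M) ((u : ℝ) / M + 1 / M)) (hcov : Cov (q + 2) x B (B / M)) :
    (H : ℝ) ^ (q + 3) / M * (ph (q + 1) x - Cc (q + 1) T * (B / H + 1 / M)) ≤ NJ q H M {u} := by
  classical
  have hMR : (1 : ℝ) ≤ M := by exact_mod_cast hM
  have hM0 : (0 : ℝ) < M := by linarith
  have hHR : (1 : ℝ) ≤ H := by exact_mod_cast hH
  have h1M : (0 : ℝ) < 1 / M := by positivity
  set S := (Om q H).filter (fun p => ⌊(M : ℝ) * p.2.2⌋ ∈ ({u} : Finset ℤ)) with hS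
  set Z : Finset (Fin (q + 1 + 2) → ℤ) := S.image (fun p => (Fin.cons p.2.1 p.1 : Fin (q + 3) → ℤ)) with hZ
  have hZcard : (Z.card : ℝ) ≤ NJ q H M {u} := by
    have : Z.card ≤ S.card := Finset.card_image_le
    exact_mod_cast this
  refine le_trans ?_ hZcard
  have hxT : |x| ≤ T := by rw [abs_le]; constructor <;> linarith [hx.1, hx.2]
  have h0T : |(u : ℝ) / M| ≤ T := by rw [abs_le]; constructor <;> linarith
  have h1T : |(u : ℝ) / M + 1 / M| ≤ T := by rw [abs_le]; constructor <;> linarith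
  refine cell (n := q + 1) hT (by linarith : (0 : ℝ) < H) hMR hB hx.1 hx.2.le hxT h0T h1T hcov Z ?_
  intro z hz hsign
  rw [hZ, Finset.mem_image]
  set a : Fin (q + 2) → ℤ := fun i => z i.succ with ha
  have hpv : ∀ t, (pv (iv z)).eval t = (pol q a (z 0)).eval t := fun t => pv_pol z t
  rw [hpv, hpv] at hsign
  have hcont : ContinuousOn (fun t => (pol q a (z 0)).eval t) (Icc ((u : ℝ) / M) ((u : ℝ) / M + 1 / M)) :=
    (pol q a (z 0)).continuous.continuousOn
  have hle : (u : ℝ) / M ≤ (u : ℝ) / M + 1 / M := by linarith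
  obtain ⟨r, hr, hr0⟩ : ∃ r ∈ Ioo ((u : ℝ) / M) ((u : ℝ) / M + 1 / M), (pol q a (z 0)).eval r = 0 := by
    rcases mul_neg_iff.1 hsign with ⟨h1, h2⟩ | ⟨h1, h2⟩
    · obtain ⟨r, hr, hr0⟩ := intermediate_value_Ioo' hle hcont ⟨h2, h1⟩
      exact ⟨r, hr, hr0⟩
    · obtain ⟨r, hr, hr0⟩ := intermediate_value_Ioo hle hcont ⟨h1, h2⟩
      exact ⟨r, hr, hr0⟩
  refine ⟨⟨a, z 0, r⟩, ?_, ?_⟩
  · rw [hS, Finset.mem_filter, mem_Om, Finset.mem_singleton]
    refine ⟨⟨fun i => ?_, ?_, ?_, hr0⟩, ?_⟩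
    · have := hz i.succ
      exact_mod_cast this
    · have := hz 0
      exact_mod_cast this
    · intro h
      simp only at h
      rw [h, eval_zero, eval_zero, mul_zero] at hsign
      exact lt_irrefl _ hsign
    · exact (mem_cell hM r u).2 ⟨hr.1.le, hr.2⟩
  · funext i
    refine Fin.cases ?_ (fun j => ?_) i
    · rw [Fin.cons_zero]
    · rw [Fin.cons_succ]

lemma ms_le {q M : ℕ} {T x : ℝ} (hT : 1 ≤ T) (hM : 1 ≤ M) (u : ℤ)
    (hu0 : -T ≤ (u : ℝ) / M) (hu1 : (u : ℝ) / M + 1 / M ≤ T)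
    (hx : x ∈ Icc ((u : ℝ) / M) ((u : ℝ) / M + 1 / M)) :
    |ms q M u - ph (q + 1) x * (1 / M)| ≤ Lc (q + 1) T * (1 / M) * (1 / M) := by
  have hMR : (1 : ℝ) ≤ M := by exact_mod_cast hM
  have hM0 : (0 : ℝ) < M := by linarith
  have h1M : (0 : ℝ) < 1 / M := by positivity
  have hxT : |x| ≤ T := by rw [abs_le]; constructor <;> linarith [hx.1, hx.2]
  have e1 : ph (q + 1) x * (1 / M) = ∫ _t in ((u : ℝ) / M)..((u : ℝ) / M + 1 / M), ph (q + 1) x := by
    rw [intervalIntegral.integral_const, add_sub_cancel_left, smul_eq_mul, mul_comm]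
  have hLc : 0 ≤ Lc (q + 1) T := by unfold Lc; positivity
  unfold ms
  rw [e1, ← intervalIntegral.integral_sub (ph_cont.intervalIntegrable _ _) intervalIntegrable_const]
  have h2 := intervalIntegral.norm_integral_le_of_norm_le_const
    (a := (u : ℝ) / M) (b := (u : ℝ) / M + 1 / M) (C := Lc (q + 1) T * (1 / M))
    (f := fun t => ph (q + 1) t - ph (q + 1) x) (by
      intro t ht
      rw [uIoc_of_le (by linarith)] at ht
      have htT : |t| ≤ T := by rw [abs_le]; constructor <;> linarith [ht.1, ht.2]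
      refine (ph_lip hT htT hxT).trans (mul_le_mul_of_nonneg_left ?_ hLc)
      rw [abs_le]
      constructor <;> linarith [ht.1, ht.2, hx.1, hx.2])
  rw [Real.norm_eq_abs, add_sub_cancel_left, abs_of_pos h1M] at h2
  exact h2

lemma ms_nonneg (q M : ℕ) (u : ℤ) : 0 ≤ ms q M u := by
  unfold ms
  refine intervalIntegral.integral_nonneg ?_ fun t _ => ph_nonneg t
  have : (0 : ℝ) ≤ 1 / M := by positivity
  linarith

/-- the bound for the density -/
noncomputable def Ph (n : ℕ) (T : ℝ) : ℝ := 2 ^ (n + 1) * ((n + 1) ^ 2 * T ^ n)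

lemma ms_up {q M : ℕ} {T : ℝ} (hT : 1 ≤ T) (hM : 1 ≤ M) (u : ℤ)
    (hu0 : -T ≤ (u : ℝ) / M) (hu1 : (u : ℝ) / M + 1 / M ≤ T) : ms q M u ≤ Ph (q + 1) T * (1 / M) := by
  have hM0 : (0 : ℝ) < M := by exact_mod_cast hM
  have h1M : (0 : ℝ) < 1 / M := by positivity
  have e1 : Ph (q + 1) T * (1 / M) = ∫ _t in ((u : ℝ) / M)..((u : ℝ) / M + 1 / M), Ph (q + 1) T := by
    rw [intervalIntegral.integral_const, add_sub_cancel_left, smul_eq_mul, mul_comm]
  rw [e1]
  unfold ms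
  refine intervalIntegral.integral_mono_on (by linarith) (ph_cont.intervalIntegrable _ _)
    intervalIntegrable_const fun t ht => ?_
  have htT : |t| ≤ T := by rw [abs_le]; constructor <;> linarith [ht.1, ht.2]
  exact ph_le hT htT

/-- all cells -/
theorem low (q : ℕ) : ∃ C : ℝ, 1 ≤ C ∧ ∃ α : ℝ, 0 < α ∧ ∀ H M T : ℕ, 1 ≤ H → 1 ≤ M → 1 ≤ T →
    ∀ ε : ℝ, 0 < ε → ε ≤ 1 → ∀ J : Finset ℤ, J ⊆ Finset.Ico (-((T * M : ℕ) : ℤ)) ((T * M : ℕ) : ℤ) →
      (H : ℝ) ^ (q + 3) * (∑ u ∈ J, ms q M u - 2 * T * (Lc (q + 1) T * (1 / M) +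
        Ph (q + 1) T * (C * ε ^ α) + Cc (q + 1) T * (C * (ε ^ (q + 2))⁻¹ * (M : ℝ) ^ (1 / ((q : ℝ) + 3)) / H +
          1 / M))) ≤ NJ q H M J := by
  classical
  obtain ⟨C, hC, α, hα, hcm⟩ := cov_measure (q + 2) (by omega)
  refine ⟨C, hC, α, hα, ?_⟩
  intro H M T hH hM hT ε hε hε1 J hJ
  have hMR : (1 : ℝ) ≤ M := by exact_mod_cast hM
  have hM0 : (0 : ℝ) < M := by linarith
  have hHR : (1 : ℝ) ≤ H := by exact_mod_cast hH
  have hTR : (1 : ℝ) ≤ T := by exact_mod_cast hT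
  have h1M : (0 : ℝ) < 1 / M := by positivity
  set R : ℝ := (M : ℝ) ^ (1 / ((q : ℝ) + 3)) with hR
  have hR1 : 1 ≤ R := Real.one_le_rpow hMR (by positivity)
  have hR0 : 0 < R := by linarith
  have hRd : R ^ (q + 3) = M := by
    rw [hR, ← Real.rpow_natCast, ← Real.rpow_mul hM0.le]
    have : 1 / ((q : ℝ) + 3) * ((q + 3 : ℕ) : ℝ) = 1 := by
      push_cast
      have : (q : ℝ) + 3 ≠ 0 := by positivity
      field_simp
    rw [this, Real.rpow_one]
  have hRinv : (R ^ (q + 2))⁻¹ = R / M := by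
    have h1 : R ^ (q + 2) ≠ 0 := by positivity
    rw [← hRd]
    field_simp
    rw [← pow_succ]
  set B : ℝ := C * (ε ^ (q + 2))⁻¹ * R with hB
  have hB0 : 0 < B := by
    have : 0 < (ε ^ (q + 2))⁻¹ := by positivity
    positivity
  have hBM : C * (ε ^ (q + 2))⁻¹ * (R ^ (q + 2))⁻¹ = B / M := by
    rw [hRinv, hB]; ring
  -- bad cells
  set W : Finset ℤ := J.filter (fun u => ∀ x ∈ Ico ((u : ℝ) / M) ((u : ℝ) / M + 1 / M),
    ¬ Cov (q + 2) x B (B / M)) with hW
  have hrange : ∀ u ∈ J, -(T : ℝ) ≤ (u : ℝ) / M ∧ (u : ℝ) / M + 1 / M ≤ T := by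
    intro u hu
    have h1 := Finset.mem_Ico.1 (hJ hu)
    constructor
    · rw [le_div_iff₀ hM0]
      have : (-((T * M : ℕ) : ℤ) : ℝ) ≤ (u : ℝ) := by exact_mod_cast h1.1
      push_cast at this
      linarith
    · rw [← add_div, div_le_iff₀ hM0]
      have h2 : u + 1 ≤ ((T * M : ℕ) : ℤ) := by omega
      have : ((u + 1 : ℤ) : ℝ) ≤ (((T * M : ℕ) : ℤ) : ℝ) := by exact_mod_cast h2
      push_cast at this
      linarith
  have hWcard : (W.card : ℝ) * (1 / M) ≤ 2 * T * (C * ε ^ α) := by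
    have hv1 : volume (⋃ u ∈ W, Ico ((u : ℝ) / M) ((u : ℝ) / M + 1 / M)) =
        ENNReal.ofReal ((W.card : ℝ) * (1 / M)) := by
      rw [measure_biUnion_finset]
      · simp only [Real.volume_Ico, add_sub_cancel_left]
        rw [Finset.sum_const, nsmul_eq_mul, ENNReal.ofReal_mul (Nat.cast_nonneg _), ENNReal.ofReal_natCast]
      · intro u _ v _ huv
        rw [Function.onFun, Set.disjoint_left]
        intro x hx1 hx2
        exact huv (((mem_cell hM x u).2 hx1).symm.trans ((mem_cell hM x v).2 hx2))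
      · exact fun _ _ => measurableSet_Ico
    have hv2 : (⋃ u ∈ W, Ico ((u : ℝ) / M) ((u : ℝ) / M + 1 / M)) ⊆
        ⋃ m ∈ Finset.Ico (-(T : ℤ)) T, {x ∈ Ico (m : ℝ) (m + 1) |
          ¬ Cov (q + 2) x (C * (ε ^ (q + 2))⁻¹ * R) (C * (ε ^ (q + 2))⁻¹ * (R ^ (q + 2))⁻¹)} := by
      intro x hx
      rw [mem_iUnion₂] at hx ⊢
      obtain ⟨u, hu, hxu⟩ := hx
      rw [hW, Finset.mem_filter] at hu
      obtain ⟨h1, h2⟩ := hrange u hu.1
      refine ⟨⌊x⌋, ?_, ⟨Int.floor_le x, Int.lt_floor_add_one x⟩, ?_⟩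
      · rw [Finset.mem_Ico]
        constructor
        · rw [Int.le_floor]
          push_cast
          linarith [hxu.1]
        · rw [Int.floor_lt]
          push_cast
          linarith [hxu.2]
      · rw [hBM, ← hB]
        exact hu.2 x hxu
    have hv3 := (measure_mono (μ := (volume : Measure ℝ)) hv2).trans (measure_biUnion_finset_le _ _)
    rw [hv1] at hv3
    have hv4 : ∑ m ∈ Finset.Ico (-(T : ℤ)) T, volume {x ∈ Ico (m : ℝ) (m + 1) |
          ¬ Cov (q + 2) x (C * (ε ^ (q + 2))⁻¹ * R) (C * (ε ^ (q + 2))⁻¹ * (R ^ (q + 2))⁻¹)} ≤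
        ENNReal.ofReal (2 * T * (C * ε ^ α)) := by
      refine (Finset.sum_le_sum fun m _ => hcm R hR1 ε hε hε1 m).trans ?_
      have h5 : ((((T : ℤ) - -(T : ℤ)).toNat : ℕ) : ENNReal) = ENNReal.ofReal (2 * T) := by
        have h6 : ((T : ℤ) - -(T : ℤ)).toNat = 2 * T := by omega
        rw [h6, ← ENNReal.ofReal_natCast]
        push_cast
        rfl
      rw [Finset.sum_const, Int.card_Ico, nsmul_eq_mul, h5, ← ENNReal.ofReal_mul (by positivity)]
    have hv5 := hv3.trans hv4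
    rwa [ENNReal.ofReal_le_ofReal_iff (by positivity)] at hv5
  -- sum over the good cells
  have hgood : ∀ u ∈ J, u ∉ W → (H : ℝ) ^ (q + 3) * (ms q M u - (Lc (q + 1) T * (1 / M) +
      Cc (q + 1) T * (B / H + 1 / M)) * (1 / M)) ≤ NJ q H M {u} := by
    intro u hu hnW
    rw [hW, Finset.mem_filter] at hnW
    push Not at hnW
    obtain ⟨x, hx, hcov⟩ := hnW hu
    obtain ⟨h1, h2⟩ := hrange u hu
    have h3 := one_cell (q := q) hTR hH hM hB0 u h1 h2 hx hcov
    have h4 := (abs_le.1 (ms_le (q := q) hTR hM u h1 h2 ⟨hx.1, hx.2.le⟩)).2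
    refine le_trans ?_ h3
    have h5 : (H : ℝ) ^ (q + 3) / M * (ph (q + 1) x - Cc (q + 1) T * (B / H + 1 / M)) =
        (H : ℝ) ^ (q + 3) * (ph (q + 1) x * (1 / M) - Cc (q + 1) T * (B / H + 1 / M) * (1 / M)) := by ring
    rw [h5]
    refine mul_le_mul_of_nonneg_left ?_ (by positivity)
    have h6 : (Lc (q + 1) T * (1 / M) + Cc (q + 1) T * (B / H + 1 / M)) * (1 / (M : ℝ)) =
        Lc (q + 1) T * (1 / M) * (1 / M) + Cc (q + 1) T * (B / H + 1 / M) * (1 / M) := by ring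
    rw [h6]
    linarith
  have hJcard : (J.card : ℝ) * (1 / M) ≤ 2 * T := by
    have h1 := Finset.card_le_card hJ
    rw [Int.card_Ico] at h1
    have h2 : (((T * M : ℕ) : ℤ) - -((T * M : ℕ) : ℤ)).toNat = 2 * (T * M) := by omega
    rw [h2] at h1
    have h3 : (J.card : ℝ) ≤ 2 * (T * M) := by exact_mod_cast h1
    calc (J.card : ℝ) * (1 / M) ≤ 2 * (T * M) * (1 / M) := mul_le_mul_of_nonneg_right h3 h1M.le
      _ = 2 * T := by field_simp
  have hE0 : 0 ≤ Lc (q + 1) T * (1 / M) + Cc (q + 1) T * (B / H + 1 / M) := by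
    have : 0 ≤ Lc (q + 1) (T : ℝ) := by unfold Lc; positivity
    have : 0 ≤ Cc (q + 1) (T : ℝ) := by unfold Cc kp; positivity
    positivity
  have hPh0 : 0 ≤ Ph (q + 1) (T : ℝ) := by unfold Ph; positivity
  have hNJ : (NJ q H M J : ℝ) = ∑ u ∈ J, (NJ q H M {u} : ℝ) := by
    rw [NJ_sum]
    push_cast
    rfl
  have hB' : C * (ε ^ (q + 2))⁻¹ * R / (H : ℝ) = B / H := rfl
  rw [hB']
  calc (H : ℝ) ^ (q + 3) * (∑ u ∈ J, ms q M u - 2 * T * (Lc (q + 1) T * (1 / M) +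
        Ph (q + 1) T * (C * ε ^ α) + Cc (q + 1) T * (B / H + 1 / M)))
      ≤ (H : ℝ) ^ (q + 3) * (∑ u ∈ J.filter (fun u => u ∉ W), (ms q M u -
          (Lc (q + 1) T * (1 / M) + Cc (q + 1) T * (B / H + 1 / M)) * (1 / M))) := by
        refine mul_le_mul_of_nonneg_left ?_ (by positivity)
        have h1 : ∑ u ∈ J, ms q M u = ∑ u ∈ J.filter (fun u => u ∈ W), ms q M u +
            ∑ u ∈ J.filter (fun u => u ∉ W), ms q M u := (Finset.sum_filter_add_sum_filter_not _ _ _).symm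
        have h2 : ∑ u ∈ J.filter (fun u => u ∈ W), ms q M u ≤ 2 * T * (C * ε ^ α) * Ph (q + 1) T := by
          calc ∑ u ∈ J.filter (fun u => u ∈ W), ms q M u ≤ ∑ _u ∈ J.filter (fun u => u ∈ W),
                Ph (q + 1) T * (1 / M) := by
                refine Finset.sum_le_sum fun u hu => ?_
                rw [Finset.mem_filter] at hu
                obtain ⟨h1, h2⟩ := hrange u hu.1
                exact ms_up hTR hM u h1 h2
            _ ≤ (W.card : ℝ) * (Ph (q + 1) T * (1 / M)) := by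
                rw [Finset.sum_const, nsmul_eq_mul]
                refine mul_le_mul_of_nonneg_right ?_ (by positivity)
                have : (J.filter (fun u => u ∈ W)).card ≤ W.card :=
                  Finset.card_le_card fun u hu => (Finset.mem_filter.1 hu).2
                exact_mod_cast this
            _ = (W.card : ℝ) * (1 / M) * Ph (q + 1) T := by ring
            _ ≤ _ := mul_le_mul_of_nonneg_right hWcard hPh0
        rw [Finset.sum_sub_distrib, Finset.sum_const, nsmul_eq_mul]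
        have h3 : ((J.filter (fun u => u ∉ W)).card : ℝ) *
            ((Lc (q + 1) T * (1 / M) + Cc (q + 1) T * (B / H + 1 / M)) * (1 / M)) ≤
            2 * T * (Lc (q + 1) T * (1 / M) + Cc (q + 1) T * (B / H + 1 / M)) := by
          have h4 : ((J.filter (fun u => u ∉ W)).card : ℝ) ≤ J.card := by
            exact_mod_cast Finset.card_filter_le _ _
          have h5 : ((J.filter (fun u => u ∉ W)).card : ℝ) * (1 / M) ≤ 2 * T :=
            (mul_le_mul_of_nonneg_right h4 h1M.le).trans hJcard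
          calc _ = ((J.filter (fun u => u ∉ W)).card : ℝ) * (1 / M) *
                (Lc (q + 1) T * (1 / M) + Cc (q + 1) T * (B / H + 1 / M)) := by ring
            _ ≤ _ := mul_le_mul_of_nonneg_right h5 hE0
        rw [h1]
        have h6 : 2 * (T : ℝ) * (Lc (q + 1) T * (1 / M) + Ph (q + 1) T * (C * ε ^ α) +
            Cc (q + 1) T * (B / H + 1 / M)) = 2 * T * (C * ε ^ α) * Ph (q + 1) T +
            2 * T * (Lc (q + 1) T * (1 / M) + Cc (q + 1) T * (B / H + 1 / M)) := by ring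
        rw [h6]
        linarith
    _ = ∑ u ∈ J.filter (fun u => u ∉ W), (H : ℝ) ^ (q + 3) * (ms q M u -
          (Lc (q + 1) T * (1 / M) + Cc (q + 1) T * (B / H + 1 / M)) * (1 / M)) := by
        rw [Finset.mul_sum]
    _ ≤ ∑ u ∈ J.filter (fun u => u ∉ W), (NJ q H M {u} : ℝ) := by
        refine Finset.sum_le_sum fun u hu => ?_
        rw [Finset.mem_filter] at hu
        exact hgood u hu.1 hu.2
    _ ≤ ∑ u ∈ J, (NJ q H M {u} : ℝ) :=
        Finset.sum_le_sum_of_subset_of_nonneg (Finset.filter_subset _ _) fun _ _ _ => Nat.cast_nonneg _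
    _ = _ := hNJ.symm

end Pool.Agent.W5h30.LL
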