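import Mathlib
import Pool.Agent.W5h30.LL.Low

/-!
# The local law for the real roots of all integer polynomials (helper30)
-/

set_option autoImplicit false

namespace Pool.Agent.W5h30.LL

open MeasureTheory Set Polynomial Filter
open Pool.Agent.Y933.KG

/-- all cells of `[-T, T)` -/
noncomputable def full (T M : ℕ) : Finset ℤ := Finset.Ico (-((T * M : ℕ) : ℤ)) ((T * M : ℕ) : ℤ)

lemma mem_full {T M : ℕ} (hM : 1 ≤ M) (x : ℝ) :
    ⌊(M : ℝ) * x⌋ ∈ full T M ↔ x ∈ Ico (-(T : ℝ)) T := by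
  have hM0 : (0 : ℝ) < M := by exact_mod_cast hM
  unfold full
  rw [Finset.mem_Ico, Int.le_floor, Int.floor_lt, mem_Ico]
  push_cast
  constructor
  · rintro ⟨h1, h2⟩
    constructor
    · by_contra h
      push Not at h
      nlinarith
    · by_contra h
      push Not at h
      nlinarith
  · rintro ⟨h1, h2⟩
    constructor
    · nlinarith
    · nlinarith

lemma ms_sum (q : ℕ) {M : ℕ} (hM : 1 ≤ M) (a : ℤ) (k : ℕ) :
    ∑ u ∈ Finset.Ico a (a + k), ms q M u = ∫ t in ((a : ℝ) / M)..(((a + k : ℤ) : ℝ) / M), ph (q + 1) t := by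
  induction k with
  | zero => simp
  | succ k ih =>
    have h1 : Finset.Ico a (a + (k + 1 : ℕ)) = insert (a + k) (Finset.Ico a (a + k)) := by
      ext u
      rw [Finset.mem_Ico, Finset.mem_insert, Finset.mem_Ico]
      push_cast
      omega
    rw [h1, Finset.sum_insert (by simp), ih, add_comm]
    have h2 : ms q M (a + k) = ∫ t in (((a + k : ℤ) : ℝ) / M)..(((a + (k + 1 : ℕ) : ℤ) : ℝ) / M), ph (q + 1) t := by
      unfold ms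
      congr 1
      push_cast
      ring
    rw [h2, intervalIntegral.integral_add_adjacent_intervals (ph_cont.intervalIntegrable _ _)
      (ph_cont.intervalIntegrable _ _)]

lemma ms_full (q : ℕ) {T M : ℕ} (hM : 1 ≤ M) :
    ∑ u ∈ full T M, ms q M u = ∫ t in (-(T : ℝ))..T, ph (q + 1) t := by
  have hM0 : (M : ℝ) ≠ 0 := by positivity
  have h1 := ms_sum q hM (-((T * M : ℕ) : ℤ)) (2 * (T * M))
  have h2 : -((T * M : ℕ) : ℤ) + ((2 * (T * M) : ℕ) : ℤ) = ((T * M : ℕ) : ℤ) := by push_cast; ring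
  rw [h2] at h1
  unfold full
  rw [h1]
  congr 1
  · push_cast; field_simp
  · push_cast; field_simp

/-- polynomial bounds for the constants -/
lemma consts (q : ℕ) : ∃ C : ℝ, 1 ≤ C ∧ ∀ T : ℝ, 1 ≤ T → Lc (q + 1) T ≤ C * T ^ (2 * q + 4) ∧
    Ph (q + 1) T ≤ C * T ^ (2 * q + 4) ∧ Cc (q + 1) T ≤ C * T ^ (2 * q + 4) ∧
    ((q : ℝ) + 2) ^ 2 * T ^ (q + 2) ≤ C * T ^ (q + 2) ∧ Ph (q + 1) T ≤ C * T ^ (q + 1) := by
  obtain ⟨C1, hC1⟩ : ∃ C1 : ℝ, C1 = 2 ^ (q + 1 + 6) * (((q + 1 : ℕ) : ℝ) + 1) ^ 6 := ⟨_, rfl⟩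
  obtain ⟨C2, hC2⟩ : ∃ C2 : ℝ, C2 = 2 ^ (q + 1 + 1) * (((q + 1 : ℕ) : ℝ) + 1) ^ 2 := ⟨_, rfl⟩
  obtain ⟨C4, hC4⟩ : ∃ C4 : ℝ, C4 = (((q + 1 : ℕ) : ℝ) + 2) * ((((q + 1 : ℕ) : ℝ) + 2) ^ 2 *
    2 ^ (q + 1 + 1)) * C2 := ⟨_, rfl⟩
  obtain ⟨C5, hC5⟩ : ∃ C5 : ℝ, C5 = 2 ^ (q + 1 + 1) * ((((q + 1 : ℕ) : ℝ) + 1) ^ 3 +
      2 * (((q + 1 : ℕ) : ℝ) + 3)) := ⟨_, rfl⟩
  have hC10 : 0 ≤ C1 := by rw [hC1]; positivity
  have hC20 : 0 ≤ C2 := by rw [hC2]; positivity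
  have hC40 : 0 ≤ C4 := by rw [hC4]; positivity
  have hC50 : 0 ≤ C5 := by rw [hC5]; positivity
  refine ⟨1 + C1 + C2 + (C4 + C5) + ((q : ℝ) + 2) ^ 2, by nlinarith [sq_nonneg ((q : ℝ) + 2)],
    fun T hT => ?_⟩
  have hsq : 0 ≤ ((q : ℝ) + 2) ^ 2 := by positivity
  have hTk : ∀ k : ℕ, 1 ≤ T ^ k := fun k => one_le_pow₀ hT
  have hTk0 : ∀ k : ℕ, 0 ≤ T ^ k := fun k => zero_le_one.trans (hTk k)
  refine ⟨?_, ?_, ?_, ?_, ?_⟩
  · have h1 : Lc (q + 1) T = C1 * T ^ (2 * q + 4) := by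
      unfold Lc
      rw [hC1]
      congr 2
    rw [h1]
    exact mul_le_mul_of_nonneg_right (by linarith) (hTk0 _)
  · have h1 : Ph (q + 1) T = C2 * T ^ (q + 1) := by
      unfold Ph
      rw [hC2]; ring
    rw [h1]
    exact mul_le_mul (by linarith) (pow_le_pow_right₀ hT (by omega)) (hTk0 _) (by positivity)
  · have h1 : Cc (q + 1) T ≤ (C4 + C5) * T ^ (2 * q + 4) := by
      have hA : (((q + 1 : ℕ) : ℝ) + 2) * kp (q + 1) T *
          (2 ^ (q + 1 + 1) * ((((q + 1 : ℕ) : ℝ) + 1) ^ 2 * T ^ (q + 1))) ≤ C4 * T ^ (2 * q + 4) := by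
        have h2 : (((q + 1 : ℕ) : ℝ) + 2) * kp (q + 1) T *
            (2 ^ (q + 1 + 1) * ((((q + 1 : ℕ) : ℝ) + 1) ^ 2 * T ^ (q + 1))) = C4 * T ^ (2 * q + 3) := by
          rw [hC4, hC2]; unfold kp; ring
        rw [h2]
        exact mul_le_mul_of_nonneg_left (pow_le_pow_right₀ hT (by omega)) hC40
      have hB : (2 : ℝ) ^ (q + 1 + 1) * ((((q + 1 : ℕ) : ℝ) + 1) ^ 3 * T ^ (q + 1 + 1) +
          2 * (((q + 1 : ℕ) : ℝ) + 3)) ≤ C5 * T ^ (2 * q + 4) := by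
        rw [hC5, mul_assoc]
        refine mul_le_mul_of_nonneg_left ?_ (by positivity)
        rw [add_mul]
        have e1 : (((q + 1 : ℕ) : ℝ) + 1) ^ 3 * T ^ (q + 1 + 1) ≤ (((q + 1 : ℕ) : ℝ) + 1) ^ 3 * T ^ (2 * q + 4) :=
          mul_le_mul_of_nonneg_left (pow_le_pow_right₀ hT (by omega)) (by positivity)
        have e3 : (0 : ℝ) ≤ 2 * (((q + 1 : ℕ) : ℝ) + 3) := by positivity
        have e2 : (2 * (((q + 1 : ℕ) : ℝ) + 3)) ≤ (2 * (((q + 1 : ℕ) : ℝ) + 3)) * T ^ (2 * q + 4) :=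
          le_mul_of_one_le_right e3 (hTk _)
        linarith
      unfold Cc
      rw [add_mul C4 C5]
      exact add_le_add hA hB
    refine h1.trans (mul_le_mul_of_nonneg_right (by linarith) (hTk0 _))
  · exact mul_le_mul_of_nonneg_right (by linarith) (hTk0 _)
  · have h1 : Ph (q + 1) T = C2 * T ^ (q + 1) := by
      unfold Ph
      rw [hC2]; ring
    rw [h1]
    exact mul_le_mul_of_nonneg_right (by linarith) (hTk0 _)

/-- the mass of `[-T, T]` -/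
lemma mass_le {q : ℕ} {C2 T : ℝ} (hT : 1 ≤ T) (c5 : Ph (q + 1) T ≤ C2 * T ^ (q + 1)) :
    ∫ t in (-T)..T, ph (q + 1) t ≤ 2 * T * (C2 * T ^ (q + 1)) := by
  have h1 : ∫ t in (-T)..T, ph (q + 1) t ≤ ∫ _t in (-T)..T, (C2 * T ^ (q + 1)) := by
    refine intervalIntegral.integral_mono_on (by linarith) (ph_cont.intervalIntegrable _ _)
      intervalIntegrable_const fun t ht => ?_
    have htT : |t| ≤ T := abs_le.2 ⟨ht.1, ht.2⟩
    exact (ph_le hT htT).trans c5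
  rw [intervalIntegral.integral_const, smul_eq_mul] at h1
  have h2 : (T - -T) = 2 * T := by ring
  rwa [h2] at h1

lemma pow_incr {q : ℕ} {X H D : ℝ} (hH : 0 < H) (hD : 0 ≤ D) (hDH : D ≤ H) (hX : X = H + D) :
    X ^ (q + 3) ≤ H ^ (q + 3) + (q + 3) * D * (2 ^ (q + 2) * H ^ (q + 2)) := by
  have hX0 : 0 < X := by rw [hX]; linarith
  have h2X : X ^ (q + 2) ≤ 2 ^ (q + 2) * H ^ (q + 2) := by
    rw [← mul_pow]
    exact pow_le_pow_left₀ hX0.le (by linarith) _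
  have h1 : X ^ (q + 3) - H ^ (q + 3) ≤ (X - H) * ((q + 3) * X ^ (q + 2)) := by
    have h2 := Commute.geom_sum₂_mul (Commute.all X H) (q + 3)
    have h2' : (∑ i ∈ Finset.range (q + 3), X ^ i * H ^ (q + 3 - 1 - i)) * (X - H) =
      X ^ (q + 3) - H ^ (q + 3) := h2
    rw [← h2', mul_comm]
    refine mul_le_mul_of_nonneg_left ?_ (by rw [hX]; linarith)
    calc ∑ i ∈ Finset.range (q + 3), X ^ i * H ^ (q + 3 - 1 - i)
        ≤ ∑ _i ∈ Finset.range (q + 3), X ^ (q + 2) := by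
          refine Finset.sum_le_sum fun i hi => ?_
          rw [Finset.mem_range] at hi
          have h3 : H ^ (q + 3 - 1 - i) ≤ X ^ (q + 3 - 1 - i) :=
            pow_le_pow_left₀ hH.le (by rw [hX]; linarith) _
          calc X ^ i * H ^ (q + 3 - 1 - i) ≤ X ^ i * X ^ (q + 3 - 1 - i) :=
                mul_le_mul_of_nonneg_left h3 (by positivity)
            _ = X ^ (q + 2) := by rw [← pow_add]; congr 1; omega
      _ = (q + 3) * X ^ (q + 2) := by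
          rw [Finset.sum_const, Finset.card_range, nsmul_eq_mul]
          push_cast
          ring
  have h5 : X - H = D := by rw [hX]; ring
  rw [h5] at h1
  have h6 := mul_le_mul_of_nonneg_left h2X (by positivity : (0 : ℝ) ≤ (q + 3) * D)
  have h7 : D * ((q + 3) * X ^ (q + 2)) = (q + 3) * D * X ^ (q + 2) := by ring
  linarith

lemma upA1 {q : ℕ} {X H D T C2 IT : ℝ} (hT : 1 ≤ T) (hC2 : 1 ≤ C2) (hH : 0 < H) (hD : 0 ≤ D)
    (hDle : D ≤ C2 * T ^ (q + 2)) (hDH : D ≤ H) (hX : X = H + D) (hIT0 : 0 ≤ IT)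
    (hIT : IT ≤ 2 * T * (C2 * T ^ (q + 1))) :
    X ^ (q + 3) * IT ≤ H ^ (q + 3) * IT + H ^ (q + 2) *
        ((q + 3) * 2 ^ (q + 2) * 2 * (C2 * C2) * T ^ (2 * q + 5)) := by
  have hT0 : 0 < T := by linarith
  have h1 := mul_le_mul_of_nonneg_right (pow_incr (q := q) hH hD hDH hX) hIT0
  have h2 : (q + 3) * D * (2 ^ (q + 2) * H ^ (q + 2)) * IT ≤
      (q + 3) * (C2 * T ^ (q + 2)) * (2 ^ (q + 2) * H ^ (q + 2)) * (2 * T * (C2 * T ^ (q + 1))) := by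
    refine mul_le_mul ?_ hIT hIT0 (by positivity)
    refine mul_le_mul_of_nonneg_right ?_ (by positivity)
    exact mul_le_mul_of_nonneg_left hDle (by positivity)
  have h3 : (q + 3) * (C2 * T ^ (q + 2)) * (2 ^ (q + 2) * H ^ (q + 2)) *
        (2 * T * (C2 * T ^ (q + 1))) = H ^ (q + 2) *
        ((q + 3) * 2 ^ (q + 2) * 2 * (C2 * C2) * T ^ (2 * q + 4)) := by ring
  have h4 : H ^ (q + 2) * ((q + 3) * 2 ^ (q + 2) * 2 * (C2 * C2) * T ^ (2 * q + 4)) ≤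
      H ^ (q + 2) * ((q + 3) * 2 ^ (q + 2) * 2 * (C2 * C2) * T ^ (2 * q + 5)) := by
    refine mul_le_mul_of_nonneg_left (mul_le_mul_of_nonneg_left ?_ (by positivity)) (by positivity)
    exact pow_le_pow_right₀ hT (by omega)
  rw [add_mul] at h1
  linarith

lemma upA2 {q : ℕ} {X H T C2 : ℝ} (hT : 1 ≤ T) (hC2 : 1 ≤ C2) (hH : 0 < H) (hX0 : 0 < X)
    (hX : X ≤ 2 * H) (c4 : ((q : ℝ) + 2) ^ 2 * T ^ (q + 2) ≤ C2 * T ^ (q + 2)) :
    (T - -T) * ((2 * X) ^ (q + 2) * (((q : ℝ) + 2) ^ 2 * T ^ (q + 2))) ≤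
        H ^ (q + 2) * (2 * 4 ^ (q + 2) * C2 * T ^ (2 * q + 5)) := by
  have hT0 : 0 < T := by linarith
  have h1 : (2 * X) ^ (q + 2) ≤ 4 ^ (q + 2) * H ^ (q + 2) := by
    rw [← mul_pow]
    exact pow_le_pow_left₀ (by positivity) (by linarith) _
  have h2 : (T - -T) = 2 * T := by ring
  rw [h2]
  calc 2 * T * ((2 * X) ^ (q + 2) * (((q : ℝ) + 2) ^ 2 * T ^ (q + 2)))
      ≤ 2 * T * ((4 ^ (q + 2) * H ^ (q + 2)) * (C2 * T ^ (q + 2))) := by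
        refine mul_le_mul_of_nonneg_left (mul_le_mul h1 c4 (by positivity) (by positivity)) (by positivity)
    _ = H ^ (q + 2) * (2 * 4 ^ (q + 2) * C2 * T ^ (q + 3)) := by ring
    _ ≤ _ := by
        refine mul_le_mul_of_nonneg_left (mul_le_mul_of_nonneg_left ?_ (by positivity)) (by positivity)
        exact pow_le_pow_right₀ hT (by omega)

lemma upA3 {q : ℕ} {H T : ℝ} (hT : 1 ≤ T) (hH : 1 ≤ H) :
    4 * ((q : ℝ) + 2) * (2 * H + 1) ^ (q + 2) ≤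
        H ^ (q + 2) * (4 * (q + 2) * 3 ^ (q + 2) * T ^ (2 * q + 5)) := by
  have h1 : (2 * H + 1) ^ (q + 2) ≤ 3 ^ (q + 2) * H ^ (q + 2) := by
    rw [← mul_pow]
    exact pow_le_pow_left₀ (by positivity) (by linarith) _
  have h2 : (0 : ℝ) ≤ 4 * (q + 2) * (3 ^ (q + 2) * H ^ (q + 2)) := by positivity
  calc 4 * ((q : ℝ) + 2) * (2 * H + 1) ^ (q + 2) ≤ 4 * (q + 2) * (3 ^ (q + 2) * H ^ (q + 2)) :=
        mul_le_mul_of_nonneg_left h1 (by positivity)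
    _ ≤ 4 * (q + 2) * (3 ^ (q + 2) * H ^ (q + 2)) * T ^ (2 * q + 5) :=
        le_mul_of_one_le_right h2 (one_le_pow₀ hT)
    _ = _ := by ring

/-- the upper bound for all cells -/
lemma up_full {q H M T : ℕ} {C2 : ℝ} (hC2 : 1 ≤ C2) (hH : 1 ≤ H) (hM : 1 ≤ M) (hT : 1 ≤ T)
    (c4 : ((q : ℝ) + 2) ^ 2 * (T : ℝ) ^ (q + 2) ≤ C2 * (T : ℝ) ^ (q + 2))
    (c5 : Ph (q + 1) T ≤ C2 * (T : ℝ) ^ (q + 1)) (hTH : C2 * (T : ℝ) ^ (q + 2) ≤ H) :
    (NJ q H M (full T M) : ℝ) ≤ (H : ℝ) ^ (q + 3) * (∫ t in (-(T : ℝ))..T, ph (q + 1) t) +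
      (H : ℝ) ^ (q + 2) * (((q + 3) * 2 ^ (q + 2) * 2 * (C2 * C2) +
    2 * 4 ^ (q + 2) * C2 + 4 * (q + 2) * 3 ^ (q + 2)) * (T : ℝ) ^ (2 * q + 5)) := by
  classical
  have hHR : (1 : ℝ) ≤ H := by exact_mod_cast hH
  have hH0 : (0 : ℝ) < H := by linarith
  have hTR : (1 : ℝ) ≤ T := by exact_mod_cast hT
  obtain ⟨D, hD⟩ : ∃ D : ℝ, D = (q + 2) ^ 2 * (T : ℝ) ^ (q + 2) := ⟨_, rfl⟩
  obtain ⟨X, hX⟩ : ∃ X : ℝ, X = H + (q + 2) ^ 2 * (T : ℝ) ^ (q + 2) := ⟨_, rfl⟩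
  have hD0 : 0 ≤ D := by rw [hD]; positivity
  have hDle : D ≤ C2 * (T : ℝ) ^ (q + 2) := by rw [hD]; exact c4
  have hDH : D ≤ H := hDle.trans hTH
  have hXD : X = H + D := by rw [hX, hD]
  have hX2 : X ≤ 2 * H := by rw [hXD]; linarith
  have hX0 : 0 < X := by rw [hXD]; linarith
  have htot := tot_upper (q := q) (H := H) (T := (T : ℝ)) (A := -(T : ℝ)) (B := T) hTR le_rfl
    (by linarith) le_rfl hX
  have hIT0 : 0 ≤ ∫ t in (-(T : ℝ))..T, ph (q + 1) t :=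
    intervalIntegral.integral_nonneg (by linarith) fun t _ => ph_nonneg t
  have hA1 := upA1 (q := q) hTR hC2 hH0 hD0 hDle hDH hXD hIT0 (mass_le hTR c5)
  have hA2 := upA2 (q := q) hTR hC2 hH0 hX0 hX2 c4
  have hA3 := upA3 (q := q) (H := (H : ℝ)) hTR hHR
  have hNfull : (NJ q H M (full T M) : ℝ) =
      ((((Om q H).filter (fun p => p.2.2 ∈ Ico (-(T : ℝ)) T)).card : ℕ) : ℝ) := by
    unfold NJ
    congr 2
    ext p
    rw [Finset.mem_filter, Finset.mem_filter, mem_full hM]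
  rw [hNfull]
  have e1 : (H : ℝ) ^ (q + 2) * (((q + 3) * 2 ^ (q + 2) * 2 * (C2 * C2) +
        2 * 4 ^ (q + 2) * C2 + 4 * (q + 2) * 3 ^ (q + 2)) * (T : ℝ) ^ (2 * q + 5)) =
        (H : ℝ) ^ (q + 2) * ((q + 3) * 2 ^ (q + 2) * 2 * (C2 * C2) * (T : ℝ) ^ (2 * q + 5)) +
        (H : ℝ) ^ (q + 2) * (2 * 4 ^ (q + 2) * C2 * (T : ℝ) ^ (2 * q + 5)) +
        (H : ℝ) ^ (q + 2) * (4 * (q + 2) * 3 ^ (q + 2) * (T : ℝ) ^ (2 * q + 5)) := by ring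
  rw [e1]
  linarith

/-- the error of the lower bound -/
lemma err_le {q : ℕ} {L P Cx C1 C2 T a b c : ℝ} (hT : 1 ≤ T) (hC1 : 1 ≤ C1) (hC2 : 1 ≤ C2) (ha : 0 ≤ a)
    (hb : 0 ≤ b) (hc : 0 ≤ c) (c1 : L ≤ C2 * T ^ (2 * q + 4)) (c2 : P ≤ C2 * T ^ (2 * q + 4))
    (c3 : Cx ≤ C2 * T ^ (2 * q + 4)) :
    2 * T * (L * a + P * (C1 * b) + Cx * (C1 * c + a)) ≤
      4 * (C1 * C2) * T ^ (2 * q + 5) * (a + b + c) := by
  have hT0 : 0 < T := by linarith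
  have hCT : 0 ≤ C2 * T ^ (2 * q + 4) := by positivity
  have hC10 : 0 ≤ C1 := by linarith
  have h1 : L * a ≤ C2 * T ^ (2 * q + 4) * a := mul_le_mul_of_nonneg_right c1 ha
  have h2 : P * (C1 * b) ≤ C2 * T ^ (2 * q + 4) * (C1 * b) :=
    mul_le_mul_of_nonneg_right c2 (mul_nonneg hC10 hb)
  have h3 : Cx * (C1 * c + a) ≤ C2 * T ^ (2 * q + 4) * (C1 * c + a) :=
    mul_le_mul_of_nonneg_right c3 (add_nonneg (mul_nonneg hC10 hc) ha)
  have h4 : a + C1 * b + (C1 * c + a) ≤ 2 * C1 * (a + b + c) := by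
    have e1 : a ≤ C1 * a := le_mul_of_one_le_left ha hC1
    have e2 : 0 ≤ C1 * b := mul_nonneg hC10 hb
    have e3 : 0 ≤ C1 * c := mul_nonneg hC10 hc
    linarith
  calc 2 * T * (L * a + P * (C1 * b) + Cx * (C1 * c + a))
      ≤ 2 * T * (C2 * T ^ (2 * q + 4) * (a + C1 * b + (C1 * c + a))) := by
        refine mul_le_mul_of_nonneg_left ?_ (by positivity)
        linarith
    _ ≤ 2 * T * (C2 * T ^ (2 * q + 4) * (2 * C1 * (a + b + c))) := by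
        refine mul_le_mul_of_nonneg_left (mul_le_mul_of_nonneg_left h4 hCT) (by positivity)
    _ = 4 * (C1 * C2) * T ^ (2 * q + 5) * (a + b + c) := by ring

/-- the two-sided estimate with an explicit error -/
theorem two_raw (q : ℕ) : ∃ C : ℝ, 1 ≤ C ∧ ∃ α : ℝ, 0 < α ∧ ∀ H M T : ℕ, 1 ≤ H → 1 ≤ M → 1 ≤ T →
    C * (T : ℝ) ^ (q + 2) ≤ H → ∀ ε : ℝ, 0 < ε → ε ≤ 1 → ∀ J : Finset ℤ, J ⊆ full T M →
      |(NJ q H M J : ℝ) - (H : ℝ) ^ (q + 3) * ∑ u ∈ J, ms q M u| ≤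
        (H : ℝ) ^ (q + 3) * (C * (T : ℝ) ^ (2 * q + 5) * (1 / H + (1 / M + ε ^ α +
          (ε ^ (q + 2))⁻¹ * (M : ℝ) ^ (1 / ((q : ℝ) + 3)) / H))) := by
  classical
  obtain ⟨C1, hC1, α, hα, hlow⟩ := low q
  obtain ⟨C2, hC2, hcon⟩ := consts q
  obtain ⟨K, hK⟩ : ∃ K : ℝ, K = 4 * (C1 * C2) := ⟨_, rfl⟩
  obtain ⟨K', hK'⟩ : ∃ K' : ℝ, K' = (q + 3) * 2 ^ (q + 2) * 2 * (C2 * C2) +
    2 * 4 ^ (q + 2) * C2 + 4 * (q + 2) * 3 ^ (q + 2) := ⟨_, rfl⟩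
  have hK0 : 0 ≤ K := by rw [hK]; positivity
  have hK'0 : 0 ≤ K' := by rw [hK']; positivity
  refine ⟨C2 + K + K', by linarith, α, hα, ?_⟩
  intro H M T hH hM hT hTH ε hε hε1 J hJ
  have hMR : (1 : ℝ) ≤ M := by exact_mod_cast hM
  have hM0 : (0 : ℝ) < M := by linarith
  have hHR : (1 : ℝ) ≤ H := by exact_mod_cast hH
  have hH0 : (0 : ℝ) < H := by linarith
  have hTR : (1 : ℝ) ≤ T := by exact_mod_cast hT
  have hT0 : (0 : ℝ) < T := by linarith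
  obtain ⟨c1, c2, c3, c4, c5⟩ := hcon T hTR
  obtain ⟨a, ha⟩ : ∃ a : ℝ, a = 1 / M := ⟨_, rfl⟩
  obtain ⟨b, hb⟩ : ∃ b : ℝ, b = ε ^ α := ⟨_, rfl⟩
  obtain ⟨c, hc⟩ : ∃ c : ℝ, c = (ε ^ (q + 2))⁻¹ * (M : ℝ) ^ (1 / ((q : ℝ) + 3)) / H := ⟨_, rfl⟩
  obtain ⟨d, hd⟩ : ∃ d : ℝ, d = 1 / H := ⟨_, rfl⟩
  have ha0 : 0 ≤ a := by rw [ha]; positivity
  have hb0 : 0 ≤ b := by rw [hb]; positivity
  have hc0 : 0 ≤ c := by rw [hc]; positivity
  have hd0 : 0 ≤ d := by rw [hd]; positivity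
  obtain ⟨E, hE⟩ : ∃ E : ℝ, E = 2 * T * (Lc (q + 1) T * a + Ph (q + 1) T * (C1 * b) +
    Cc (q + 1) T * (C1 * c + a)) := ⟨_, rfl⟩
  have hEle : E ≤ K * (T : ℝ) ^ (2 * q + 5) * (a + b + c) := by
    rw [hE, hK]
    exact err_le hTR hC1 hC2 ha0 hb0 hc0 c1 c2 c3
  have hlowJ : ∀ J' : Finset ℤ, J' ⊆ full T M →
      (H : ℝ) ^ (q + 3) * (∑ u ∈ J', ms q M u - E) ≤ NJ q H M J' := by
    intro J' hJ'
    have h1 := hlow H M T hH hM hT ε hε hε1 J' hJ'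
    have h2 : C1 * (ε ^ (q + 2))⁻¹ * (M : ℝ) ^ (1 / ((q : ℝ) + 3)) / H = C1 * c := by
      rw [hc]; ring
    rw [h2, ← ha, ← hb, ← hE] at h1
    exact h1
  have hTC : C2 * (T : ℝ) ^ (q + 2) ≤ H := by
    refine le_trans (mul_le_mul_of_nonneg_right ?_ (by positivity)) hTH
    linarith
  have hup := up_full (q := q) hC2 hH hM hT c4 c5 hTC
  rw [← hK'] at hup
  obtain ⟨IT, hIT⟩ : ∃ IT : ℝ, IT = ∫ t in (-(T : ℝ))..T, ph (q + 1) t := ⟨_, rfl⟩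
  rw [← hIT] at hup
  obtain ⟨P, hP⟩ : ∃ P : ℝ, P = (H : ℝ) ^ (q + 3) := ⟨_, rfl⟩
  have hP0 : 0 ≤ P := by rw [hP]; positivity
  have hP2 : (H : ℝ) ^ (q + 2) * (K' * (T : ℝ) ^ (2 * q + 5)) = P * (K' * (T : ℝ) ^ (2 * q + 5) * d) := by
    have e1 : P = (H : ℝ) ^ (q + 2) * H := by rw [hP]; exact pow_succ _ _
    have e2 : (H : ℝ) * d = 1 := by rw [hd]; field_simp
    calc (H : ℝ) ^ (q + 2) * (K' * (T : ℝ) ^ (2 * q + 5)) =
          (H : ℝ) ^ (q + 2) * (K' * (T : ℝ) ^ (2 * q + 5)) * (H * d) := by rw [e2, mul_one]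
      _ = _ := by rw [e1]; ring
  rw [hP2, ← hP] at hup
  rw [← ha, ← hb, ← hc, ← hd, ← hP]
  rw [← hP] at hlowJ
  obtain ⟨W, hW⟩ : ∃ W : ℝ, W = (T : ℝ) ^ (2 * q + 5) := ⟨_, rfl⟩
  have hW0 : 0 ≤ W := by rw [hW]; positivity
  rw [← hW] at hup hEle ⊢
  have hPE : P * E ≤ P * (K * W * (a + b + c)) := mul_le_mul_of_nonneg_left hEle hP0
  have hfin : P * (K * W * (a + b + c)) + P * (K' * W * d) ≤
      P * ((C2 + K + K') * W * (d + (a + b + c))) := by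
    rw [← mul_add]
    refine mul_le_mul_of_nonneg_left ?_ hP0
    have e1 : 0 ≤ C2 * W * (d + (a + b + c)) := by positivity
    have e2 : 0 ≤ K * W * d := by positivity
    have e3 : 0 ≤ K' * W * (a + b + c) := by positivity
    have e4 : (C2 + K + K') * W * (d + (a + b + c)) = C2 * W * (d + (a + b + c)) +
      (K * W * d + K * W * (a + b + c)) + (K' * W * d + K' * W * (a + b + c)) := by ring
    linarith
  have hK'W : 0 ≤ P * (K' * W * d) := by positivity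
  rw [abs_le]
  constructor
  · have h1 := hlowJ J hJ
    rw [mul_sub] at h1
    linarith
  · have h1 := hlowJ (full T M \ J) Finset.sdiff_subset
    have h2 : (NJ q H M (full T M \ J) : ℝ) + NJ q H M J = NJ q H M (full T M) := by
      rw [NJ_sum q H M (full T M), NJ_sum q H M J, NJ_sum q H M (full T M \ J)]
      exact_mod_cast Finset.sum_sdiff hJ
    have h3 : ∑ u ∈ full T M \ J, ms q M u + ∑ u ∈ J, ms q M u = IT := by
      rw [Finset.sum_sdiff hJ, ms_full q hM, hIT]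
    have h4 : ∑ u ∈ full T M \ J, ms q M u = IT - ∑ u ∈ J, ms q M u := by linarith
    rw [h4] at h1
    have e5 : P * (IT - ∑ u ∈ J, ms q M u - E) = P * IT - P * ∑ u ∈ J, ms q M u - P * E := by ring
    rw [e5] at h1
    linarith

end Pool.Agent.W5h30.LL
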