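import Mathlib
import Pool.Agent.W5h30.LL.TwoRaw

/-!
# The local law for the real roots of all integer polynomials (helper30)
-/

set_option autoImplicit false

namespace Pool.Agent.W5h30.LL

open MeasureTheory Set Polynomial Filter
open Pool.Agent.Y933.KG

lemma ev_rpow (C ρ : ℝ) (hρ : 0 < ρ) : ∀ᶠ H : ℕ in atTop, C ≤ (H : ℝ) ^ ρ := by
  have h1 := (tendsto_rpow_atTop hρ).comp tendsto_natCast_atTop_atTop
  exact h1.eventually_ge_atTop C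

/-- **the local law for all roots, with a power saving** -/
theorem two (q : ℕ) (η : ℝ) (hη : 0 < η) : ∃ c : ℝ, 0 < c ∧ ∃ κ : ℝ, 0 < κ ∧ ∃ H0 : ℕ, ∀ H : ℕ, H0 ≤ H →
    ∀ M T : ℕ, 1 ≤ T → (T : ℝ) ≤ (H : ℝ) ^ κ → H ≤ M → (M : ℝ) ≤ (H : ℝ) ^ ((q : ℝ) + 3 - η) →
    ∀ J : Finset ℤ, J ⊆ full T M →
      |(NJ q H M J : ℝ) - (H : ℝ) ^ (q + 3) * ∑ u ∈ J, ms q M u| ≤ (H : ℝ) ^ ((q : ℝ) + 3 - c) := by
  obtain ⟨C, hC, α, hα, htwo⟩ := two_raw q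
  have hq3 : (0 : ℝ) < (q : ℝ) + 3 := by positivity
  have hq2 : (0 : ℝ) < (q : ℝ) + 2 := by positivity
  obtain ⟨τ, hτ⟩ : ∃ τ : ℝ, τ = η / (2 * ((q + 3) * (q + 2))) := ⟨_, rfl⟩
  have hτ0 : 0 < τ := by rw [hτ]; positivity
  obtain ⟨c0, hc0⟩ : ∃ c0 : ℝ, c0 = min (min (τ * α) (η / (2 * (q + 3)))) 1 := ⟨_, rfl⟩
  have hc00 : 0 < c0 := by rw [hc0]; exact lt_min (lt_min (by positivity) (by positivity)) one_pos
  have hc0a : c0 ≤ τ * α := by rw [hc0]; exact (min_le_left _ _).trans (min_le_left _ _)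
  have hc0b : c0 ≤ η / (2 * (q + 3)) := by rw [hc0]; exact (min_le_left _ _).trans (min_le_right _ _)
  have hc01 : c0 ≤ 1 := by rw [hc0]; exact min_le_right _ _
  obtain ⟨κ, hκ⟩ : ∃ κ : ℝ, κ = c0 / (4 * (2 * q + 5)) := ⟨_, rfl⟩
  have hκ0 : 0 < κ := by rw [hκ]; positivity
  have hκc : κ * (2 * q + 5) = c0 / 4 := by
    rw [hκ]
    field_simp
  obtain ⟨H0, hH0⟩ := Filter.eventually_atTop.1 (ev_rpow (4 * C) (c0 / 4) (by positivity))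
  refine ⟨c0 / 2, by positivity, κ, hκ0, max H0 1, fun H hH M T hT hTH hMH hMH' J hJ => ?_⟩
  have hHH0 : H0 ≤ H := (le_max_left _ _).trans hH
  have hH1 : 1 ≤ H := (le_max_right _ _).trans hH
  have hHR : (1 : ℝ) ≤ H := by exact_mod_cast hH1
  have hHpos : (0 : ℝ) < H := by linarith
  have hTR : (1 : ℝ) ≤ T := by exact_mod_cast hT
  have hT0 : (0 : ℝ) < T := by linarith
  have hMR : (H : ℝ) ≤ M := by exact_mod_cast hMH
  have hM0 : (0 : ℝ) < M := by linarith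
  have hM1 : 1 ≤ M := hH1.trans hMH
  have h4C : 4 * C ≤ (H : ℝ) ^ (c0 / 4) := hH0 H hHH0
  have hTpow : (T : ℝ) ^ (2 * q + 5) ≤ (H : ℝ) ^ (c0 / 4) := by
    calc (T : ℝ) ^ (2 * q + 5) ≤ ((H : ℝ) ^ κ) ^ (2 * q + 5) := pow_le_pow_left₀ hT0.le hTH _
      _ = (H : ℝ) ^ (κ * (2 * q + 5)) := by
          rw [← Real.rpow_natCast, ← Real.rpow_mul hHpos.le]
          push_cast
          rfl
      _ = _ := by rw [hκc]
  have hTC : C * (T : ℝ) ^ (q + 2) ≤ H := by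
    have h1 : (T : ℝ) ^ (q + 2) ≤ (T : ℝ) ^ (2 * q + 5) := pow_le_pow_right₀ hTR (by omega)
    have h2 : (H : ℝ) ^ (c0 / 4) * (H : ℝ) ^ (c0 / 4) ≤ H := by
      rw [← Real.rpow_add hHpos]
      calc (H : ℝ) ^ (c0 / 4 + c0 / 4) ≤ (H : ℝ) ^ (1 : ℝ) :=
            Real.rpow_le_rpow_of_exponent_le hHR (by linarith)
        _ = H := Real.rpow_one _
    refine le_trans ?_ h2
    exact mul_le_mul (by linarith) (h1.trans hTpow) (by positivity) (by positivity)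
  have hε0 : 0 < (H : ℝ) ^ (-τ) := Real.rpow_pos_of_pos hHpos _
  have hε1 : (H : ℝ) ^ (-τ) ≤ 1 := Real.rpow_le_one_of_one_le_of_nonpos hHR (by linarith)
  refine (htwo H M T hH1 hM1 hT hTC ((H : ℝ) ^ (-τ)) hε0 hε1 J hJ).trans ?_
  have hHc : (0 : ℝ) < (H : ℝ) ^ (-c0) := Real.rpow_pos_of_pos hHpos _
  have e1 : 1 / (H : ℝ) ≤ (H : ℝ) ^ (-c0) := by
    rw [one_div, ← Real.rpow_neg_one]
    exact Real.rpow_le_rpow_of_exponent_le hHR (by linarith)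
  have e2 : 1 / (M : ℝ) ≤ (H : ℝ) ^ (-c0) :=
    (one_div_le_one_div_of_le hHpos hMR).trans e1
  have e3 : ((H : ℝ) ^ (-τ)) ^ α ≤ (H : ℝ) ^ (-c0) := by
    rw [← Real.rpow_mul hHpos.le]
    exact Real.rpow_le_rpow_of_exponent_le hHR (by nlinarith)
  have e4 : (((H : ℝ) ^ (-τ)) ^ (q + 2))⁻¹ * (M : ℝ) ^ (1 / ((q : ℝ) + 3)) / H ≤ (H : ℝ) ^ (-c0) := by
    have f1 : (((H : ℝ) ^ (-τ)) ^ (q + 2))⁻¹ = (H : ℝ) ^ (τ * (q + 2)) := by
      rw [← Real.rpow_natCast, ← Real.rpow_mul hHpos.le, ← Real.rpow_neg hHpos.le]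
      congr 1
      push_cast
      ring
    have f2 : (M : ℝ) ^ (1 / ((q : ℝ) + 3)) ≤ (H : ℝ) ^ (((q : ℝ) + 3 - η) * (1 / ((q : ℝ) + 3))) := by
      rw [Real.rpow_mul hHpos.le]
      exact Real.rpow_le_rpow hM0.le hMH' (by positivity)
    have f3 : (1 : ℝ) / H = (H : ℝ) ^ (-1 : ℝ) := by rw [one_div, Real.rpow_neg_one]
    calc (((H : ℝ) ^ (-τ)) ^ (q + 2))⁻¹ * (M : ℝ) ^ (1 / ((q : ℝ) + 3)) / H
        = (H : ℝ) ^ (τ * (q + 2)) * (M : ℝ) ^ (1 / ((q : ℝ) + 3)) * (H : ℝ) ^ (-1 : ℝ) := by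
          rw [f1, ← f3]; ring
      _ ≤ (H : ℝ) ^ (τ * (q + 2)) * (H : ℝ) ^ (((q : ℝ) + 3 - η) * (1 / ((q : ℝ) + 3))) *
            (H : ℝ) ^ (-1 : ℝ) := by
          refine mul_le_mul_of_nonneg_right (mul_le_mul_of_nonneg_left f2 ?_) ?_
          · positivity
          · positivity
      _ = (H : ℝ) ^ (τ * (q + 2) + ((q : ℝ) + 3 - η) * (1 / ((q : ℝ) + 3)) + (-1)) := by
          rw [← Real.rpow_add hHpos, ← Real.rpow_add hHpos]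
      _ ≤ (H : ℝ) ^ (-c0) := by
          refine Real.rpow_le_rpow_of_exponent_le hHR ?_
          have g1 : τ * (q + 2) = η / (2 * (q + 3)) := by
            rw [hτ]; field_simp
          have g2 : ((q : ℝ) + 3 - η) * (1 / ((q : ℝ) + 3)) = 1 - 2 * (η / (2 * (q + 3))) := by
            field_simp
          rw [g1, g2]
          linarith
  have hsum : 1 / (H : ℝ) + (1 / M + ((H : ℝ) ^ (-τ)) ^ α +
      (((H : ℝ) ^ (-τ)) ^ (q + 2))⁻¹ * (M : ℝ) ^ (1 / ((q : ℝ) + 3)) / H) ≤ 4 * (H : ℝ) ^ (-c0) := by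
    linarith
  have hHp : (H : ℝ) ^ (q + 3) = (H : ℝ) ^ ((q : ℝ) + 3) := by
    rw [← Real.rpow_natCast]
    push_cast
    rfl
  have hb : C * (T : ℝ) ^ (2 * q + 5) * (1 / (H : ℝ) + (1 / M + ((H : ℝ) ^ (-τ)) ^ α +
      (((H : ℝ) ^ (-τ)) ^ (q + 2))⁻¹ * (M : ℝ) ^ (1 / ((q : ℝ) + 3)) / H)) ≤
      (H : ℝ) ^ (-(c0 / 2)) := by
    calc _ ≤ C * (T : ℝ) ^ (2 * q + 5) * (4 * (H : ℝ) ^ (-c0)) :=
          mul_le_mul_of_nonneg_left hsum (by positivity)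
      _ = (4 * C) * (T : ℝ) ^ (2 * q + 5) * (H : ℝ) ^ (-c0) := by ring
      _ ≤ (H : ℝ) ^ (c0 / 4) * (H : ℝ) ^ (c0 / 4) * (H : ℝ) ^ (-c0) := by
          refine mul_le_mul_of_nonneg_right ?_ hHc.le
          exact mul_le_mul h4C hTpow (by positivity) (by positivity)
      _ = _ := by
          rw [← Real.rpow_add hHpos, ← Real.rpow_add hHpos]
          congr 1
          ring
  calc _ ≤ (H : ℝ) ^ (q + 3) * (H : ℝ) ^ (-(c0 / 2)) := mul_le_mul_of_nonneg_left hb (by positivity)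
    _ = (H : ℝ) ^ ((q : ℝ) + 3 - c0 / 2) := by
        rw [hHp, ← Real.rpow_add hHpos]
        congr 1

end Pool.Agent.W5h30.LL
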