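import Mathlib
import Pool.Agent.W5h30.LL.Two
import Pool.Agent.Y933.KG.Mob2
import Pool.Agent.Y933.KG.AlgHat

/-!
# The local law for the real algebraic numbers of degree `q + 2` (helper30)
-/

set_option autoImplicit false

namespace Pool.Agent.W5h30.LL

open MeasureTheory Set Polynomial Filter
open Pool.Agent.Y933.KG

open Classical in
/-- the number of the elements of the family with a root in `P` -/
noncomputable def NP (q H : ℕ) (P : ℝ → Prop) : ℕ := ((Om q H).filter (fun p => P p.2.2)).card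

open Classical in
/-- the number of the elements of `s` with `P` -/
noncomputable def cn (s : Finset ℝ) (P : ℝ → Prop) : ℕ := (s.filter P).card

/-- the identity of Möbius -/
theorem alg_id (q : ℕ) : ∃ Cq : ℝ, 0 ≤ Cq ∧ ∀ H : ℕ, 1 ≤ H → ∀ P : ℝ → Prop,
    ∀ s : Finset ℝ, (∀ x, x ∈ s ↔ x ∈ Alg (q + 2) H) →
    |2 * (cn s P : ℝ) -
      ∑ g ∈ Finset.Icc 1 H, ((ArithmeticFunction.moebius g : ℤ) : ℝ) * (NP q (H / g) P : ℝ)| ≤
      Cq * ((H : ℝ) ^ (q + 2) * Real.sqrt H) := by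
  classical
  obtain ⟨Cq, hCq, hbad⟩ := bad_card q
  refine ⟨Cq, hCq, fun H hH P s hs => ?_⟩
  set F : ℝ → ℂ := fun x => if P x then 1 else 0 with hFdef
  have hF : ∀ x, ‖F x‖ ≤ 1 := by
    intro x
    rw [hFdef]
    simp only
    split_ifs <;> simp
  have h1 := sum_prim q H F
  have h2 : ∑ p ∈ (Om q H).filter (fun p => NN q p = 1), F p.2.2 =
      2 * ∑ x ∈ s, F x + ∑ p ∈ (Om q H).filter (fun p => NN q p = 1 ∧
        ¬ (p.1 (Fin.last (q + 1)) ≠ 0 ∧ Irreducible (polZ q p.1 p.2.1))), F p.2.2 := by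
    rw [← Finset.sum_filter_add_sum_filter_not ((Om q H).filter (fun p => NN q p = 1))
      (fun p => p.1 (Fin.last (q + 1)) ≠ 0 ∧ Irreducible (polZ q p.1 p.2.1)), Finset.filter_filter,
      Finset.filter_filter]
    congr 1
    rw [two_mul]
    nth_rewrite 1 [← sign_sum q H F 1 (Or.inl rfl) s hs]
    rw [← sign_sum q H F (-1) (Or.inr rfl) s hs, ← Finset.sum_union]
    · refine Finset.sum_congr ?_ fun _ _ => rfl
      ext p
      rw [Finset.mem_filter, Finset.mem_union, Finset.mem_filter, Finset.mem_filter]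
      constructor
      · rintro ⟨h3, h4, h5, h6⟩
        rcases lt_or_gt_of_ne h5 with h | h
        · exact Or.inr ⟨h3, by linarith, h6⟩
        · exact Or.inl ⟨h3, by linarith, h6⟩
      · have key : ∀ σ : ℤ, p ∈ Om q H → 0 < σ * p.1 (Fin.last (q + 1)) →
            Irreducible (polZ q p.1 p.2.1) → p ∈ Om q H ∧ NN q p = 1 ∧
              p.1 (Fin.last (q + 1)) ≠ 0 ∧ Irreducible (polZ q p.1 p.2.1) := by
          intro σ h3 h4 h5
          have h6 : p.1 (Fin.last (q + 1)) ≠ 0 := by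
            intro h
            rw [h, mul_zero] at h4
            exact lt_irrefl _ h4
          refine ⟨h3, ?_, h6, h5⟩
          have h7 := h5.isPrimitive (by rw [pz_natDegree q _ h6]; omega)
          rw [isPrimitive_iff_content_eq_one] at h7
          unfold NN
          rw [h7]
          rfl
        rintro (⟨h3, h4, h5⟩ | ⟨h3, h4, h5⟩)
        · exact key 1 h3 h4 h5
        · exact key (-1) h3 h4 h5
    · rw [Finset.disjoint_left]
      intro p hp hp'
      rw [Finset.mem_filter] at hp hp'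
      have := hp.2.1
      have := hp'.2.1
      linarith
  have h3 : ‖∑ p ∈ (Om q H).filter (fun p => NN q p = 1 ∧
        ¬ (p.1 (Fin.last (q + 1)) ≠ 0 ∧ Irreducible (polZ q p.1 p.2.1))), F p.2.2‖ ≤
      Cq * ((H : ℝ) ^ (q + 2) * Real.sqrt H) := by
    refine (norm_sum_le _ _).trans (le_trans ?_ (hbad H hH))
    calc _ ≤ ∑ _p ∈ (Om q H).filter (fun p => NN q p = 1 ∧
        ¬ (p.1 (Fin.last (q + 1)) ≠ 0 ∧ Irreducible (polZ q p.1 p.2.1))), (1 : ℝ) :=
          Finset.sum_le_sum fun p _ => hF _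
      _ = _ := by rw [Finset.sum_const, nsmul_eq_mul, mul_one]
  have hsF : ∑ x ∈ s, F x = ((cn s P : ℕ) : ℂ) := by
    unfold cn
    rw [hFdef, Finset.sum_ite, Finset.sum_const_zero, add_zero, Finset.sum_const, nsmul_eq_mul, mul_one]
  have hOF : ∀ g : ℕ, ∑ p ∈ Om q (H / g), F p.2.2 = ((NP q (H / g) P : ℕ) : ℂ) := by
    intro g
    rw [hFdef]
    unfold NP
    rw [Finset.sum_ite, Finset.sum_const_zero, add_zero, Finset.sum_const, nsmul_eq_mul, mul_one]
  have h4 : ((2 * ((cn s P : ℕ) : ℝ) -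
      ∑ g ∈ Finset.Icc 1 H, ((ArithmeticFunction.moebius g : ℤ) : ℝ) * (NP q (H / g) P : ℝ) : ℝ) : ℂ) =
      -∑ p ∈ (Om q H).filter (fun p => NN q p = 1 ∧
        ¬ (p.1 (Fin.last (q + 1)) ≠ 0 ∧ Irreducible (polZ q p.1 p.2.1))), F p.2.2 := by
    push_cast
    have h5 : ∑ g ∈ Finset.Icc 1 H, ((ArithmeticFunction.moebius g : ℤ) : ℂ) * ((NP q (H / g) P : ℕ) : ℂ) =
        ∑ g ∈ Finset.Icc 1 H, ((ArithmeticFunction.moebius g : ℤ) : ℂ) * ∑ p ∈ Om q (H / g), F p.2.2 :=
      Finset.sum_congr rfl fun g _ => by rw [hOF g]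
    rw [h5, ← h1, h2, ← hsF]
    ring
  have h6 := congrArg (fun z : ℂ => ‖z‖) h4
  simp only [norm_neg, Complex.norm_real, Real.norm_eq_abs] at h6
  rw [h6]
  exact h3

lemma NJ_le (q H M : ℕ) (J : Finset ℤ) : NJ q H M J ≤ (Om q H).card := by
  classical
  unfold NJ
  exact Finset.card_filter_le _ _

end Pool.Agent.W5h30.LL
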