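import Mathlib
import Pool.Agent.W5h30.LL.Mob

/-!
# The local law for the real algebraic numbers of degree `q + 2` (helper30)
-/

set_option autoImplicit false

namespace Pool.Agent.W5h30.LL

open MeasureTheory Set Polynomial Filter
open Pool.Agent.Y933.KG

lemma NP_NJ (q H M : ℕ) (J : Finset ℤ) : NP q H (fun x => ⌊(M : ℝ) * x⌋ ∈ J) = NJ q H M J := by
  classical
  unfold NP NJ
  congr 1
  ext p
  simp only [Finset.mem_filter]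

lemma div_big {H g : ℕ} {c2 : ℝ} (hc2 : 0 < c2) (hc : 2 * c2 ≤ 1) (hH : 1 ≤ H) (h2 : 2 ≤ (H : ℝ) ^ c2)
    (hg : 1 ≤ g) (hgH : (g : ℝ) ≤ (H : ℝ) ^ c2) : (H : ℝ) ^ (1 - 2 * c2) ≤ ((H / g : ℕ) : ℝ) := by
  have hHR : (1 : ℝ) ≤ H := by exact_mod_cast hH
  have hH0 : (0 : ℝ) < H := by linarith
  have hg0 : (0 : ℝ) < g := by exact_mod_cast hg
  have h3 : (H : ℝ) / g < ((H / g : ℕ) : ℝ) + 1 := by
    rw [div_lt_iff₀ hg0]
    have h4 := Nat.div_add_mod H g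
    have h5 := Nat.mod_lt H hg
    have h6 : H < (H / g + 1) * g := by nlinarith
    exact_mod_cast h6
  have h4 : (H : ℝ) ^ (1 - c2) ≤ (H : ℝ) / g := by
    rw [le_div_iff₀ hg0]
    calc (H : ℝ) ^ (1 - c2) * g ≤ (H : ℝ) ^ (1 - c2) * (H : ℝ) ^ c2 :=
          mul_le_mul_of_nonneg_left hgH (by positivity)
      _ = H := by
          rw [← Real.rpow_add hH0, sub_add_cancel, Real.rpow_one]
  have h5 : 2 * (H : ℝ) ^ (1 - 2 * c2) ≤ (H : ℝ) ^ (1 - c2) := by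
    calc 2 * (H : ℝ) ^ (1 - 2 * c2) ≤ (H : ℝ) ^ c2 * (H : ℝ) ^ (1 - 2 * c2) :=
          mul_le_mul_of_nonneg_right h2 (by positivity)
      _ = (H : ℝ) ^ (1 - c2) := by
          rw [← Real.rpow_add hH0]
          congr 1
          ring
  have h6 : (1 : ℝ) ≤ (H : ℝ) ^ (1 - 2 * c2) := Real.one_le_rpow hHR (by linarith)
  linarith

lemma tail_g {q H : ℕ} {c2 : ℝ} (hH : 1 ≤ H) (N : ℕ → ℝ) (hN : ∀ g ∈ Finset.Icc 1 H, N g ≤ ((Om q (H / g)).card : ℝ)) :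
    ∑ g ∈ (Finset.Icc 1 H).filter (fun g : ℕ => ¬ (g : ℝ) ≤ (H : ℝ) ^ c2), N g ≤
      2 * (3 ^ (q + 3) * (q + 2)) * (H : ℝ) ^ ((q : ℝ) + 3 - c2) := by
  have hHR : (1 : ℝ) ≤ H := by exact_mod_cast hH
  have hH0 : (0 : ℝ) < H := by linarith
  have h1 : ∀ g ∈ (Finset.Icc 1 H).filter (fun g : ℕ => ¬ (g : ℝ) ≤ (H : ℝ) ^ c2), N g ≤
      (3 ^ (q + 3) * (q + 2)) * (H : ℝ) ^ ((q : ℝ) + 3 - c2) * ((g : ℝ) ^ 2)⁻¹ := by
    intro g hg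
    rw [Finset.mem_filter] at hg
    obtain ⟨hg1, hg2⟩ := hg
    refine (hN g hg1).trans ?_
    rw [Finset.mem_Icc] at hg1
    push Not at hg2
    have hg0 : (0 : ℝ) < g := by exact_mod_cast hg1.1
    have hg1' : (1 : ℝ) ≤ g := by exact_mod_cast hg1.1
    have h2 : 1 ≤ H / g := (Nat.one_le_div_iff hg1.1).2 hg1.2
    have h3 := card_Om_le q (H / g) h2
    have h4 : ((H / g : ℕ) : ℝ) ≤ H / g := Nat.cast_div_le
    have h5 : ((H / g : ℕ) : ℝ) ^ (q + 3) ≤ (H : ℝ) ^ ((q : ℝ) + 3 - c2) * ((g : ℝ) ^ 2)⁻¹ := by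
      have e1 : (H : ℝ) ^ ((q : ℝ) + 3 - c2) = (H : ℝ) ^ (q + 3) * ((H : ℝ) ^ c2)⁻¹ := by
        rw [sub_eq_add_neg, Real.rpow_add hH0, Real.rpow_neg hH0.le, ← Real.rpow_natCast]
        push_cast
        rfl
      have hc : 0 < (H : ℝ) ^ c2 := Real.rpow_pos_of_pos hH0 _
      calc ((H / g : ℕ) : ℝ) ^ (q + 3) ≤ ((H : ℝ) / g) ^ (q + 3) := pow_le_pow_left₀ (by positivity) h4 _
        _ = (H : ℝ) ^ (q + 3) * ((g : ℝ) ^ (q + 3))⁻¹ := by rw [div_pow, div_eq_mul_inv]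
        _ ≤ (H : ℝ) ^ (q + 3) * (((H : ℝ) ^ c2)⁻¹ * ((g : ℝ) ^ 2)⁻¹) := by
            refine mul_le_mul_of_nonneg_left ?_ (by positivity)
            rw [← mul_inv]
            refine inv_anti₀ (by positivity) ?_
            calc (H : ℝ) ^ c2 * (g : ℝ) ^ 2 ≤ g * (g : ℝ) ^ 2 :=
                  mul_le_mul_of_nonneg_right hg2.le (by positivity)
              _ = (g : ℝ) ^ 3 := by ring
              _ ≤ (g : ℝ) ^ (q + 3) := pow_le_pow_right₀ hg1' (by omega)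
        _ = _ := by rw [e1]; ring
    calc ((Om q (H / g)).card : ℝ) ≤ 3 ^ (q + 3) * (q + 2) * ((H / g : ℕ) : ℝ) ^ (q + 3) := h3
      _ ≤ 3 ^ (q + 3) * (q + 2) * ((H : ℝ) ^ ((q : ℝ) + 3 - c2) * ((g : ℝ) ^ 2)⁻¹) :=
          mul_le_mul_of_nonneg_left h5 (by positivity)
      _ = _ := by ring
  refine (Finset.sum_le_sum h1).trans ?_
  rw [← Finset.mul_sum]
  have h2 : ∑ g ∈ (Finset.Icc 1 H).filter (fun g : ℕ => ¬ (g : ℝ) ≤ (H : ℝ) ^ c2), ((g : ℝ) ^ 2)⁻¹ ≤ 2 :=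
    (Finset.sum_le_sum_of_subset_of_nonneg (Finset.filter_subset _ _) fun g _ _ => by positivity).trans
      (sum_sq H hH)
  calc _ ≤ (3 ^ (q + 3) * (q + 2)) * (H : ℝ) ^ ((q : ℝ) + 3 - c2) * 2 :=
        mul_le_mul_of_nonneg_left h2 (by positivity)
    _ = _ := by ring

/-- **the local law for the algebraic numbers in a bounded window** -/
theorem alg_two (q : ℕ) (η : ℝ) (hη : 0 < η) : ∃ c : ℝ, 0 < c ∧ ∃ κ : ℝ, 0 < κ ∧ ∃ H0 : ℕ,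
    ∀ H : ℕ, H0 ≤ H → ∃ S : ℝ, ∀ M T : ℕ, 1 ≤ T → (T : ℝ) ≤ (H : ℝ) ^ κ → H ≤ M →
    (M : ℝ) ≤ (H : ℝ) ^ ((q : ℝ) + 3 - η) → ∀ J : Finset ℤ, J ⊆ full T M →
    ∀ s : Finset ℝ, (∀ x, x ∈ s ↔ x ∈ Alg (q + 2) H) →
      |(cn s (fun x => ⌊(M : ℝ) * x⌋ ∈ J) : ℝ) -
        S * ∑ u ∈ J, ms q M u| ≤ (H : ℝ) ^ ((q : ℝ) + 3 - c) := by
  classical
  obtain ⟨c1, hc1, κ1, hκ1, H1, htwo⟩ := two q (η / 2) (by positivity)
  obtain ⟨Cq, hCq, hid⟩ := alg_id q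
  obtain ⟨c1', hc1'⟩ : ∃ c1' : ℝ, c1' = min c1 1 := ⟨_, rfl⟩
  have hc1'0 : 0 < c1' := by rw [hc1']; exact lt_min hc1 one_pos
  have hc1'1 : c1' ≤ 1 := by rw [hc1']; exact min_le_right _ _
  have hc1'2 : c1' ≤ c1 := by rw [hc1']; exact min_le_left _ _
  have hq3 : (0 : ℝ) < (q : ℝ) + 3 := by positivity
  obtain ⟨c2, hc2⟩ : ∃ c2 : ℝ, c2 = min (min (c1' / 2) (η / (4 * (q + 3)))) (1 / 8) := ⟨_, rfl⟩
  have hc20 : 0 < c2 := by rw [hc2]; exact lt_min (lt_min (by positivity) (by positivity)) (by norm_num)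
  have hc2a : c2 ≤ c1' / 2 := by rw [hc2]; exact (min_le_left _ _).trans (min_le_left _ _)
  have hc2b : c2 ≤ η / (4 * (q + 3)) := by rw [hc2]; exact (min_le_left _ _).trans (min_le_right _ _)
  have hc2c : c2 ≤ 1 / 8 := by rw [hc2]; exact min_le_right _ _
  obtain ⟨C3, hC3⟩ : ∃ C3 : ℝ, C3 = 2 * (3 ^ (q + 3) * (q + 2)) := ⟨_, rfl⟩
  have hC30 : 0 < C3 := by rw [hC3]; positivity
  have hev : ∀ᶠ H : ℕ in atTop, Cq + 1 + C3 ≤ (H : ℝ) ^ (c2 / 2) ∧ 2 ≤ (H : ℝ) ^ c2 ∧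
      (H1 : ℝ) ≤ (H : ℝ) ^ (1 / 2 : ℝ) ∧ 2 ≤ H := by
    filter_upwards [ev_rpow (Cq + 1 + C3) (c2 / 2) (by positivity), ev_rpow 2 c2 hc20,
      ev_rpow H1 (1 / 2) (by norm_num), eventually_ge_atTop 2] with H a b c d
    exact ⟨a, b, c, d⟩
  obtain ⟨H0, hH0⟩ := Filter.eventually_atTop.1 hev
  refine ⟨c2 / 2, by positivity, κ1 / 2, by positivity, H0, fun H hH => ?_⟩
  obtain ⟨hE1, hE2, hE3, hH2⟩ := hH0 H hH
  have hH1 : 1 ≤ H := by omega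
  have hHR : (1 : ℝ) ≤ H := by exact_mod_cast hH1
  have hHR2 : (1 : ℝ) < H := by
    have : (2 : ℝ) ≤ H := by exact_mod_cast hH2
    linarith
  have hHpos : (0 : ℝ) < H := by linarith
  obtain ⟨S0, hS0⟩ : ∃ S0 : ℝ, S0 = ∑ g ∈ (Finset.Icc 1 H).filter (fun g : ℕ => (g : ℝ) ≤ (H : ℝ) ^ c2),
    ((ArithmeticFunction.moebius g : ℤ) : ℝ) * ((H / g : ℕ) : ℝ) ^ (q + 3) := ⟨_, rfl⟩
  refine ⟨S0 / 2, fun M T hT hTH hHM hMH J hJ s hs => ?_⟩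
  have hMR : (H : ℝ) ≤ M := by exact_mod_cast hHM
  have hη1 : 1 ≤ (q : ℝ) + 3 - η := by
    by_contra hcon
    push Not at hcon
    have h1 : (H : ℝ) ^ ((q : ℝ) + 3 - η) < (H : ℝ) ^ (1 : ℝ) := Real.rpow_lt_rpow_of_exponent_lt hHR2 hcon
    rw [Real.rpow_one] at h1
    linarith
  have hmain := hid H hH1 (fun x => ⌊(M : ℝ) * x⌋ ∈ J) s hs
  have hNP : ∀ g : ℕ, (NP q (H / g) (fun x => ⌊(M : ℝ) * x⌋ ∈ J) : ℝ) = (NJ q (H / g) M J : ℝ) := by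
    intro g
    rw [NP_NJ]
  simp_rw [hNP] at hmain
  have hμ : ∀ g : ℕ, |((ArithmeticFunction.moebius g : ℤ) : ℝ)| ≤ 1 := by
    intro g
    rw [← Int.cast_abs]
    exact_mod_cast ArithmeticFunction.abs_moebius_le_one
  -- small `g`
  have hsmall : ∀ g ∈ (Finset.Icc 1 H).filter (fun g : ℕ => (g : ℝ) ≤ (H : ℝ) ^ c2),
      |((ArithmeticFunction.moebius g : ℤ) : ℝ) * (NJ q (H / g) M J : ℝ) -
        ((ArithmeticFunction.moebius g : ℤ) : ℝ) * ((H / g : ℕ) : ℝ) ^ (q + 3) * ∑ u ∈ J, ms q M u| ≤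
      (H : ℝ) ^ ((q : ℝ) + 3 - c1') := by
    intro g hg
    rw [Finset.mem_filter, Finset.mem_Icc] at hg
    obtain ⟨⟨hg1, hgH⟩, hg2⟩ := hg
    have hbig := div_big hc20 (by linarith) hH1 hE2 hg1 hg2
    have hH'le : H / g ≤ H := Nat.div_le_self _ _
    have hH'leR : ((H / g : ℕ) : ℝ) ≤ H := by exact_mod_cast hH'le
    have hhalf : (H : ℝ) ^ (1 / 2 : ℝ) ≤ ((H / g : ℕ) : ℝ) :=
      (Real.rpow_le_rpow_of_exponent_le hHR (by linarith)).trans hbig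
    have hH'1 : H1 ≤ H / g := by
      have := hE3.trans hhalf
      exact_mod_cast this
    have hH'one : (1 : ℝ) ≤ ((H / g : ℕ) : ℝ) := (Real.one_le_rpow hHR (by norm_num)).trans hhalf
    have hH'pos : (0 : ℝ) < ((H / g : ℕ) : ℝ) := by linarith
    have hT' : (T : ℝ) ≤ ((H / g : ℕ) : ℝ) ^ κ1 := by
      refine hTH.trans ?_
      have : (H : ℝ) ^ (κ1 / 2) = ((H : ℝ) ^ (1 / 2 : ℝ)) ^ κ1 := by
        rw [← Real.rpow_mul hHpos.le]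
        congr 1
        ring
      rw [this]
      exact Real.rpow_le_rpow (by positivity) hhalf hκ1.le
    have hM' : (M : ℝ) ≤ ((H / g : ℕ) : ℝ) ^ ((q : ℝ) + 3 - η / 2) := by
      refine hMH.trans ?_
      calc (H : ℝ) ^ ((q : ℝ) + 3 - η) ≤ (H : ℝ) ^ ((1 - 2 * c2) * ((q : ℝ) + 3 - η / 2)) := by
            refine Real.rpow_le_rpow_of_exponent_le hHR ?_
            have h1 : c2 * (4 * (q + 3)) ≤ η := by
              rw [le_div_iff₀ (by positivity)] at hc2b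
              exact hc2b
            nlinarith
        _ = ((H : ℝ) ^ (1 - 2 * c2)) ^ ((q : ℝ) + 3 - η / 2) := Real.rpow_mul hHpos.le _ _
        _ ≤ _ := Real.rpow_le_rpow (by positivity) hbig (by linarith)
    have h1 := htwo (H / g) hH'1 M T hT hT' (hH'le.trans hHM) hM' J hJ
    have h2 : ((H / g : ℕ) : ℝ) ^ ((q : ℝ) + 3 - c1) ≤ (H : ℝ) ^ ((q : ℝ) + 3 - c1') :=
      (Real.rpow_le_rpow_of_exponent_le hH'one (by linarith)).trans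
        (Real.rpow_le_rpow hH'pos.le hH'leR (by linarith))
    have e1 : ((ArithmeticFunction.moebius g : ℤ) : ℝ) * (NJ q (H / g) M J : ℝ) -
        ((ArithmeticFunction.moebius g : ℤ) : ℝ) * ((H / g : ℕ) : ℝ) ^ (q + 3) * ∑ u ∈ J, ms q M u =
        ((ArithmeticFunction.moebius g : ℤ) : ℝ) * ((NJ q (H / g) M J : ℝ) -
          ((H / g : ℕ) : ℝ) ^ (q + 3) * ∑ u ∈ J, ms q M u) := by ring
    rw [e1, abs_mul]
    calc _ ≤ 1 * |(NJ q (H / g) M J : ℝ) - ((H / g : ℕ) : ℝ) ^ (q + 3) * ∑ u ∈ J, ms q M u| :=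
          mul_le_mul_of_nonneg_right (hμ g) (abs_nonneg _)
      _ ≤ _ := by rw [one_mul]; exact h1.trans h2
  have hcard : ((((Finset.Icc 1 H).filter (fun g : ℕ => (g : ℝ) ≤ (H : ℝ) ^ c2)).card : ℕ) : ℝ) ≤
      (H : ℝ) ^ c2 := by
    have h1 : (Finset.Icc 1 H).filter (fun g : ℕ => (g : ℝ) ≤ (H : ℝ) ^ c2) ⊆
        Finset.Icc 1 ⌊(H : ℝ) ^ c2⌋₊ := by
      intro g hg
      rw [Finset.mem_filter, Finset.mem_Icc] at hg
      rw [Finset.mem_Icc]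
      exact ⟨hg.1.1, Nat.le_floor hg.2⟩
    have h2 := Finset.card_le_card h1
    rw [Nat.card_Icc, Nat.add_sub_cancel] at h2
    have h3 : ((⌊(H : ℝ) ^ c2⌋₊ : ℕ) : ℝ) ≤ (H : ℝ) ^ c2 := Nat.floor_le (by positivity)
    exact le_trans (by exact_mod_cast h2) h3
  have hsum1 : |∑ g ∈ (Finset.Icc 1 H).filter (fun g : ℕ => (g : ℝ) ≤ (H : ℝ) ^ c2),
      ((ArithmeticFunction.moebius g : ℤ) : ℝ) * (NJ q (H / g) M J : ℝ) - S0 * ∑ u ∈ J, ms q M u| ≤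
      (H : ℝ) ^ ((q : ℝ) + 3 - c2) := by
    rw [hS0, Finset.sum_mul, ← Finset.sum_sub_distrib]
    refine (Finset.abs_sum_le_sum_abs _ _).trans ((Finset.sum_le_sum hsmall).trans ?_)
    rw [Finset.sum_const, nsmul_eq_mul]
    calc _ ≤ (H : ℝ) ^ c2 * (H : ℝ) ^ ((q : ℝ) + 3 - c1') := mul_le_mul_of_nonneg_right hcard (by positivity)
      _ = (H : ℝ) ^ (c2 + ((q : ℝ) + 3 - c1')) := by rw [← Real.rpow_add hHpos]
      _ ≤ _ := Real.rpow_le_rpow_of_exponent_le hHR (by linarith)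
  have hsum2 : |∑ g ∈ (Finset.Icc 1 H).filter (fun g : ℕ => ¬ (g : ℝ) ≤ (H : ℝ) ^ c2),
      ((ArithmeticFunction.moebius g : ℤ) : ℝ) * (NJ q (H / g) M J : ℝ)| ≤
      C3 * (H : ℝ) ^ ((q : ℝ) + 3 - c2) := by
    refine (Finset.abs_sum_le_sum_abs _ _).trans ?_
    rw [hC3]
    refine tail_g (c2 := c2) hH1 (fun g => |((ArithmeticFunction.moebius g : ℤ) : ℝ) * (NJ q (H / g) M J : ℝ)|)
      fun g _ => ?_
    rw [abs_mul, Nat.abs_cast (NJ q (H / g) M J)]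
    calc _ ≤ 1 * (NJ q (H / g) M J : ℝ) := mul_le_mul_of_nonneg_right (hμ g) (Nat.cast_nonneg _)
      _ ≤ _ := by
          rw [one_mul]
          exact_mod_cast NJ_le q (H / g) M J
  have hsplit := Finset.sum_filter_add_sum_filter_not (Finset.Icc 1 H) (fun g : ℕ => (g : ℝ) ≤ (H : ℝ) ^ c2)
    (fun g => ((ArithmeticFunction.moebius g : ℤ) : ℝ) * (NJ q (H / g) M J : ℝ))
  rw [← hsplit] at hmain
  have hsqrt : (H : ℝ) ^ (q + 2) * Real.sqrt H ≤ (H : ℝ) ^ ((q : ℝ) + 3 - c2) := by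
    rw [Real.sqrt_eq_rpow, ← Real.rpow_natCast, ← Real.rpow_add hHpos]
    refine Real.rpow_le_rpow_of_exponent_le hHR ?_
    push_cast
    linarith
  have hCq2 : Cq * ((H : ℝ) ^ (q + 2) * Real.sqrt H) ≤ Cq * (H : ℝ) ^ ((q : ℝ) + 3 - c2) :=
    mul_le_mul_of_nonneg_left hsqrt hCq
  have hfin : (Cq + 1 + C3) * (H : ℝ) ^ ((q : ℝ) + 3 - c2) ≤ (H : ℝ) ^ ((q : ℝ) + 3 - c2 / 2) := by
    calc _ ≤ (H : ℝ) ^ (c2 / 2) * (H : ℝ) ^ ((q : ℝ) + 3 - c2) := mul_le_mul_of_nonneg_right hE1 (by positivity)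
      _ = _ := by
          rw [← Real.rpow_add hHpos]
          congr 1
          ring
  rw [abs_le] at hmain hsum1 hsum2 ⊢
  have hpos : (0 : ℝ) ≤ (H : ℝ) ^ ((q : ℝ) + 3 - c2 / 2) := by positivity
  constructor <;> linarith [hmain.1, hmain.2, hsum1.1, hsum1.2, hsum2.1, hsum2.2]

end Pool.Agent.W5h30.LL
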