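import Mathlib
import Pool.Agent.W5h30.LL.AlgTwo

/-!
# Few roots are large (helper30)
-/

set_option autoImplicit false

namespace Pool.Agent.W5h30.LL

open MeasureTheory Set Polynomial Filter
open Pool.Agent.Y933.KG

lemma root_big {q H : ℕ} {p : Σ _ : (Fin (q + 2) → ℤ), Σ _ : ℤ, ℝ} (hp : p ∈ Om q H) {T : ℝ} (hT : 1 ≤ T)
    (hr : T ≤ |p.2.2|) : |(p.1 (Fin.last (q + 1)) : ℝ)| ≤ (q + 2) * H / T := by
  obtain ⟨h1, h2, _, h4⟩ := mem_Om.1 hp
  set r := p.2.2 with hrdef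
  have hT0 : 0 < T := by linarith
  have hr0 : 0 < |r| := by linarith
  have hr1 : 1 ≤ |r| := by linarith
  have hH0 : (0 : ℝ) ≤ H := Nat.cast_nonneg H
  unfold pol at h4
  rw [eval_add, eval_C, eval_finsetSum, Fin.sum_univ_castSucc] at h4
  simp only [eval_mul, eval_C, eval_pow, eval_X, Fin.val_castSucc, Fin.val_last] at h4
  have h5 : (p.1 (Fin.last (q + 1)) : ℝ) * r ^ (q + 1 + 1) =
      -(∑ i : Fin (q + 1), (p.1 i.castSucc : ℝ) * r ^ ((i : ℕ) + 1) + (p.2.1 : ℝ)) := by linarith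
  have hab : ∀ i : Fin (q + 2), |(p.1 i : ℝ)| ≤ H := fun i => by
    rw [← Int.cast_abs]
    exact_mod_cast h1 i
  have hc : |(p.2.1 : ℝ)| ≤ H := by
    rw [← Int.cast_abs]
    exact_mod_cast h2
  have h6 : |(p.1 (Fin.last (q + 1)) : ℝ)| * |r| ^ (q + 1 + 1) ≤ ((q + 2) * H) * |r| ^ (q + 1) := by
    rw [← abs_pow, ← abs_mul, h5, abs_neg]
    refine (abs_add_le _ _).trans ?_
    have h7 : |∑ i : Fin (q + 1), (p.1 i.castSucc : ℝ) * r ^ ((i : ℕ) + 1)| ≤ (q + 1) * (H * |r| ^ (q + 1)) := by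
      refine (Finset.abs_sum_le_sum_abs _ _).trans ?_
      calc ∑ i : Fin (q + 1), |(p.1 i.castSucc : ℝ) * r ^ ((i : ℕ) + 1)|
          ≤ ∑ _i : Fin (q + 1), H * |r| ^ (q + 1) := by
            refine Finset.sum_le_sum fun i _ => ?_
            rw [abs_mul, abs_pow]
            exact mul_le_mul (hab _) (pow_le_pow_right₀ hr1 (by omega)) (by positivity) hH0
        _ = _ := by
            rw [Finset.sum_const, Finset.card_univ, Fintype.card_fin, nsmul_eq_mul]
            push_cast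
            rfl
    have h8 : |(p.2.1 : ℝ)| ≤ H * |r| ^ (q + 1) :=
      hc.trans (le_mul_of_one_le_right hH0 (one_le_pow₀ hr1))
    linarith
  have h7 : |(p.1 (Fin.last (q + 1)) : ℝ)| * |r| ≤ (q + 2) * H := by
    have h8 : (|(p.1 (Fin.last (q + 1)) : ℝ)| * |r|) * |r| ^ (q + 1) ≤ ((q + 2) * H) * |r| ^ (q + 1) := by
      calc _ = |(p.1 (Fin.last (q + 1)) : ℝ)| * |r| ^ (q + 1 + 1) := by ring
        _ ≤ _ := h6
    exact le_of_mul_le_mul_right h8 (by positivity)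
  rw [le_div_iff₀ hT0]
  exact (mul_le_mul_of_nonneg_left hr (abs_nonneg _)).trans h7

/-- few roots are large -/
theorem tail_Om (q : ℕ) : ∃ C : ℝ, 0 ≤ C ∧ ∀ (H : ℕ) (T : ℝ), 1 ≤ H → 1 ≤ T → T ≤ H →
    (NP q H (fun x => T ≤ |x|) : ℝ) ≤ C * ((H : ℝ) ^ (q + 3) / T) := by
  classical
  refine ⟨3 ^ (q + 2) * (2 * (q + 2) + 3) * (q + 2), by positivity, fun H T hH hT hTH => ?_⟩
  have hHR : (1 : ℝ) ≤ H := by exact_mod_cast hH
  have hH0 : (0 : ℝ) < H := by linarith
  have hT0 : 0 < T := by linarith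
  set Y : ℝ := (q + 2) * H / T + 1 with hY
  have hY0 : 0 ≤ Y := by rw [hY]; positivity
  have h1 : (Om q H).filter (fun p => T ≤ |p.2.2|) ⊆
      ((Av q H).filter (fun a => |(a (Fin.last (q + 1)) : ℝ)| < Y)).sigma fun a =>
        (Finset.Icc (-(H : ℤ)) H).sigma fun c => (pol q a c).roots.toFinset := by
    intro p hp
    rw [Finset.mem_filter] at hp
    have h2 := root_big hp.1 hT hp.2
    have h3 := hp.1
    unfold Om at h3
    rw [Finset.mem_sigma] at h3 ⊢
    refine ⟨?_, h3.2⟩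
    rw [Finset.mem_filter]
    refine ⟨h3.1, ?_⟩
    rw [hY]
    linarith
  have h2 : (NP q H (fun x => T ≤ |x|) : ℝ) ≤
      (((((Av q H).filter (fun a => |(a (Fin.last (q + 1)) : ℝ)| < Y)).card * ((2 * H + 1) * (q + 2))) : ℕ) : ℝ) := by
    have h3 := Finset.card_le_card h1
    rw [Finset.card_sigma] at h3
    have h4 : ∑ a ∈ (Av q H).filter (fun a => |(a (Fin.last (q + 1)) : ℝ)| < Y),
        ((Finset.Icc (-(H : ℤ)) H).sigma fun c => (pol q a c).roots.toFinset).card ≤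
        ((Av q H).filter (fun a => |(a (Fin.last (q + 1)) : ℝ)| < Y)).card * ((2 * H + 1) * (q + 2)) := by
      refine (Finset.sum_le_card_nsmul _ _ ((2 * H + 1) * (q + 2)) fun a _ => ?_).trans
        (le_of_eq (smul_eq_mul _ _))
      rw [Finset.card_sigma]
      refine (Finset.sum_le_card_nsmul _ _ (q + 2) fun c _ => roots_card q a c).trans (le_of_eq ?_)
      rw [card_Icc_H, smul_eq_mul]
    have h5 := h3.trans h4
    unfold NP
    have h6 : (Finset.filter (fun p => (fun x => T ≤ |x|) p.2.2) (Om q H)) =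
      (Om q H).filter (fun p => T ≤ |p.2.2|) := by
      ext p
      simp only [Finset.mem_filter]
    rw [h6]
    exact_mod_cast h5
  refine h2.trans ?_
  push_cast
  have h3 := card_small q H Y hY0
  have h4 : 2 * Y + 1 ≤ (2 * (q + 2) + 3) * (H / T) := by
    have h5 : 1 ≤ (H : ℝ) / T := by rwa [le_div_iff₀ hT0, one_mul]
    have h6 : (q + 2) * (H : ℝ) / T = (q + 2) * (H / T) := by ring
    rw [hY, h6]
    linarith
  have h5 : (2 * (H : ℝ) + 1) ≤ 3 * H := by linarith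
  calc (((((Av q H).filter (fun a => |(a (Fin.last (q + 1)) : ℝ)| < Y)).card : ℕ)) : ℝ) *
      ((2 * (H : ℝ) + 1) * (q + 2)) ≤ ((2 * H + 1) ^ (q + 1) * (2 * Y + 1)) * ((2 * (H : ℝ) + 1) * (q + 2)) :=
        mul_le_mul_of_nonneg_right h3 (by positivity)
    _ = (2 * H + 1) ^ (q + 2) * (2 * Y + 1) * (q + 2) := by ring
    _ ≤ (3 * (H : ℝ)) ^ (q + 2) * ((2 * (q + 2) + 3) * (H / T)) * (q + 2) := by
        refine mul_le_mul_of_nonneg_right ?_ (by positivity)
        exact mul_le_mul (pow_le_pow_left₀ (by positivity) h5 _) h4 (by positivity) (by positivity)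
    _ = _ := by
        rw [mul_pow, pow_succ (H : ℝ) (q + 2)]
        ring

end Pool.Agent.W5h30.LL
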