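import Mathlib
import Pool.Agent.W5h30.LL.Tail
import Pool.Agent.Y933.KG.Gd

/-!
# The density of the real roots is integrable (helper30)
-/

set_option autoImplicit false

namespace Pool.Agent.W5h30.LL

open MeasureTheory Set Polynomial Filter
open Pool.Agent.Y933.KG

lemma full_sub {T T' M : ℕ} (h : T ≤ T') : full T M ⊆ full T' M := by
  unfold full
  have h1 : T * M ≤ T' * M := Nat.mul_le_mul_right _ h
  intro u hu
  rw [Finset.mem_Ico] at hu ⊢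
  constructor
  · have : -((T' * M : ℕ) : ℤ) ≤ -((T * M : ℕ) : ℤ) := by
      rw [neg_le_neg_iff]
      exact_mod_cast h1
    linarith [hu.1]
  · have : ((T * M : ℕ) : ℤ) ≤ ((T' * M : ℕ) : ℤ) := by exact_mod_cast h1
    linarith [hu.2]

lemma out_abs {T : ℕ} {x : ℝ} (h : x ∉ Ico (-(T : ℝ)) T) : (T : ℝ) ≤ |x| := by
  by_contra hcon
  push Not at hcon
  rw [abs_lt] at hcon
  exact h ⟨hcon.1.le, hcon.2⟩

theorem phi_tail (q : ℕ) : ∃ C : ℝ, 0 ≤ C ∧ ∀ T T' : ℕ, 1 ≤ T → T ≤ T' →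
    (∫ t in (-(T' : ℝ))..T', ph (q + 1) t) - (∫ t in (-(T : ℝ))..T, ph (q + 1) t) ≤ C / T := by
  classical
  obtain ⟨C, hC, htail⟩ := tail_Om q
  obtain ⟨c, hc, κ, hκ, H0, htwo⟩ := two q 1 one_pos
  refine ⟨C, hC, fun T T' hT hTT' => ?_⟩
  have hTR : (1 : ℝ) ≤ T := by exact_mod_cast hT
  refine le_of_forall_pos_le_add fun δ hδ => ?_
  have hev : ∀ᶠ H : ℕ in atTop, (T' : ℝ) ≤ (H : ℝ) ^ κ ∧ 1 / δ ≤ (H : ℝ) ^ c ∧ H0 ≤ H ∧ 1 ≤ H ∧ T ≤ H := by
    filter_upwards [ev_rpow T' κ hκ, ev_rpow (1 / δ) c hc, eventually_ge_atTop H0, eventually_ge_atTop 1,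
      eventually_ge_atTop T] with H a b c d e
    exact ⟨a, b, c, d, e⟩
  obtain ⟨H, h1, h2, h3, h4, h5⟩ := hev.exists
  have hHR : (1 : ℝ) ≤ H := by exact_mod_cast h4
  have hHpos : (0 : ℝ) < H := by linarith
  have hMH : (H : ℝ) ≤ (H : ℝ) ^ ((q : ℝ) + 3 - 1) := by
    have hq : (0 : ℝ) ≤ q := Nat.cast_nonneg q
    calc (H : ℝ) = (H : ℝ) ^ (1 : ℝ) := (Real.rpow_one _).symm
      _ ≤ _ := Real.rpow_le_rpow_of_exponent_le hHR (by linarith)
  have h6 := htwo H h3 H T' (hT.trans hTT') h1 le_rfl hMH (full T' H \ full T H) Finset.sdiff_subset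
  have h7 : ∑ u ∈ full T' H \ full T H, ms q H u =
      (∫ t in (-(T' : ℝ))..T', ph (q + 1) t) - (∫ t in (-(T : ℝ))..T, ph (q + 1) t) := by
    have h8 := Finset.sum_sdiff (f := fun u => ms q H u) (full_sub (M := H) hTT')
    rw [ms_full q h4, ms_full q h4] at h8
    linarith
  have h8 : (NJ q H H (full T' H \ full T H) : ℝ) ≤ C * ((H : ℝ) ^ (q + 3) / T) := by
    refine le_trans ?_ (htail H T h4 hTR (by exact_mod_cast h5))
    unfold NJ NP
    have h9 : (Om q H).filter (fun p => ⌊(H : ℝ) * p.2.2⌋ ∈ full T' H \ full T H) ⊆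
        (Om q H).filter (fun p => (fun x : ℝ => (T : ℝ) ≤ |x|) p.2.2) := by
      intro p hp
      rw [Finset.mem_filter, Finset.mem_sdiff] at hp
      rw [Finset.mem_filter]
      refine ⟨hp.1, ?_⟩
      have := hp.2.2
      rw [mem_full h4] at this
      exact out_abs this
    exact_mod_cast Finset.card_le_card h9
  rw [h7] at h6
  have h9 := (abs_le.1 h6).1
  have hHp : (H : ℝ) ^ ((q : ℝ) + 3 - c) = (H : ℝ) ^ (q + 3) * ((H : ℝ) ^ c)⁻¹ := by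
    rw [sub_eq_add_neg, Real.rpow_add hHpos, Real.rpow_neg hHpos.le, ← Real.rpow_natCast]
    push_cast
    rfl
  have hHc : ((H : ℝ) ^ c)⁻¹ ≤ δ := by
    rw [inv_le_comm₀ (by positivity) hδ, ← one_div]
    exact h2
  have hP : (0 : ℝ) < (H : ℝ) ^ (q + 3) := by positivity
  have h10 : (H : ℝ) ^ (q + 3) * ((∫ t in (-(T' : ℝ))..T', ph (q + 1) t) -
      (∫ t in (-(T : ℝ))..T, ph (q + 1) t)) ≤ (H : ℝ) ^ (q + 3) * (C / T + δ) := by
    have h11 : (H : ℝ) ^ (q + 3) * ((H : ℝ) ^ c)⁻¹ ≤ (H : ℝ) ^ (q + 3) * δ :=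
      mul_le_mul_of_nonneg_left hHc hP.le
    have h12 : (H : ℝ) ^ (q + 3) * (C / T + δ) = C * ((H : ℝ) ^ (q + 3) / T) + (H : ℝ) ^ (q + 3) * δ := by
      ring
    rw [hHp] at h9
    rw [h12]
    linarith
  exact le_of_mul_le_mul_left h10 hP

lemma phi_int (q : ℕ) : Integrable (ph (q + 1)) := by
  obtain ⟨C, hC, htail⟩ := phi_tail q
  have ha : Tendsto (fun n : ℕ => -(n : ℝ)) atTop atBot :=
    tendsto_neg_atTop_atBot.comp tendsto_natCast_atTop_atTop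
  have hb : Tendsto (fun n : ℕ => (n : ℝ)) atTop atTop := tendsto_natCast_atTop_atTop
  refine integrable_of_intervalIntegral_norm_bounded
    ((∫ t in (-((1 : ℕ) : ℝ))..(1 : ℕ), ph (q + 1) t) + C / (1 : ℕ)) (fun n => ?_) ha hb ?_
  · exact (ph_cont.integrableOn_Icc).mono_set Ioc_subset_Icc_self
  · filter_upwards [eventually_ge_atTop 1] with n hn
    have h1 := htail 1 n le_rfl hn
    have h2 : ∫ t in (-(n : ℝ))..n, ‖ph (q + 1) t‖ = ∫ t in (-(n : ℝ))..n, ph (q + 1) t := by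
      congr 1
      funext t
      exact Real.norm_of_nonneg (ph_nonneg t)
    rw [h2]
    linarith

/-- the total mass -/
noncomputable def I0 (q : ℕ) : ℝ := ∫ t, ph (q + 1) t

lemma phi_tail' (q : ℕ) : ∃ C : ℝ, 0 ≤ C ∧ ∀ T : ℕ, 1 ≤ T →
    I0 q - (∫ t in (-(T : ℝ))..T, ph (q + 1) t) ≤ C / T := by
  obtain ⟨C, hC, htail⟩ := phi_tail q
  refine ⟨C, hC, fun T hT => ?_⟩
  have ha : Tendsto (fun n : ℕ => -(n : ℝ)) atTop atBot :=
    tendsto_neg_atTop_atBot.comp tendsto_natCast_atTop_atTop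
  have hb : Tendsto (fun n : ℕ => (n : ℝ)) atTop atTop := tendsto_natCast_atTop_atTop
  have h1 := intervalIntegral_tendsto_integral (phi_int q) ha hb
  have h2 : Tendsto (fun n : ℕ => (∫ t in (-(n : ℝ))..n, ph (q + 1) t) -
      ∫ t in (-(T : ℝ))..T, ph (q + 1) t) atTop (nhds (I0 q - ∫ t in (-(T : ℝ))..T, ph (q + 1) t)) :=
    h1.sub_const _
  refine le_of_tendsto h2 ?_
  filter_upwards [eventually_ge_atTop T] with n hn
  exact htail T n hT hn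

lemma I0_ge (q : ℕ) (T : ℕ) : (∫ t in (-(T : ℝ))..T, ph (q + 1) t) ≤ I0 q := by
  have hT : (0 : ℝ) ≤ T := Nat.cast_nonneg T
  rw [intervalIntegral.integral_of_le (by linarith)]
  exact setIntegral_le_integral (phi_int q) (Filter.Eventually.of_forall fun t => ph_nonneg t)

lemma phi_pos (q : ℕ) : ∃ T0 : ℕ, 1 ≤ T0 ∧ 0 < ∫ t in (-(T0 : ℝ))..T0, ph (q + 1) t := by
  classical
  obtain ⟨C, hC, htail⟩ := tail_Om q
  obtain ⟨c, hc, κ, hκ, H0, htwo⟩ := two q 1 one_pos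
  obtain ⟨T, hTC⟩ := exists_nat_ge (16 * C + 1)
  have hTR : (1 : ℝ) ≤ T := by linarith
  have hT : 1 ≤ T := by exact_mod_cast hTR
  refine ⟨T, hT, ?_⟩
  have hev : ∀ᶠ H : ℕ in atTop, (T : ℝ) ≤ (H : ℝ) ^ κ ∧ 32 ≤ (H : ℝ) ^ c ∧ H0 ≤ H ∧ 2 ≤ H ∧ T ≤ H := by
    filter_upwards [ev_rpow T κ hκ, ev_rpow 32 c hc, eventually_ge_atTop H0, eventually_ge_atTop 2,
      eventually_ge_atTop T] with H a b c d e
    exact ⟨a, b, c, d, e⟩
  obtain ⟨H, h1, h2, h3, h4, h5⟩ := hev.exists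
  have h41 : 1 ≤ H := by omega
  have hHR : (1 : ℝ) ≤ H := by exact_mod_cast h41
  have hHpos : (0 : ℝ) < H := by linarith
  have hMH : (H : ℝ) ≤ (H : ℝ) ^ ((q : ℝ) + 3 - 1) := by
    have hq : (0 : ℝ) ≤ q := Nat.cast_nonneg q
    calc (H : ℝ) = (H : ℝ) ^ (1 : ℝ) := (Real.rpow_one _).symm
      _ ≤ _ := Real.rpow_le_rpow_of_exponent_le hHR (by linarith)
  have h6 := htwo H h3 H T hT h1 le_rfl hMH (full T H) subset_rfl
  rw [ms_full q h41] at h6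
  have h7 := card_Om_ge q H h4
  have h8 := htail H T h41 hTR (by exact_mod_cast h5)
  have h9 : ((Om q H).card : ℝ) ≤ (NJ q H H (full T H) : ℝ) + (NP q H (fun x => (T : ℝ) ≤ |x|) : ℝ) := by
    have h10 : Om q H ⊆ (Om q H).filter (fun p => ⌊(H : ℝ) * p.2.2⌋ ∈ full T H) ∪
        (Om q H).filter (fun p => (fun x : ℝ => (T : ℝ) ≤ |x|) p.2.2) := by
      intro p hp
      rw [Finset.mem_union, Finset.mem_filter, Finset.mem_filter]
      by_cases h : ⌊(H : ℝ) * p.2.2⌋ ∈ full T H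
      · exact Or.inl ⟨hp, h⟩
      · right
        refine ⟨hp, ?_⟩
        rw [mem_full h41] at h
        exact out_abs h
    have h11 := (Finset.card_le_card h10).trans (Finset.card_union_le _ _)
    unfold NJ NP
    exact_mod_cast h11
  have h10 := (abs_le.1 h6).2
  have hHp : (H : ℝ) ^ ((q : ℝ) + 3 - c) = (H : ℝ) ^ (q + 3) * ((H : ℝ) ^ c)⁻¹ := by
    rw [sub_eq_add_neg, Real.rpow_add hHpos, Real.rpow_neg hHpos.le, ← Real.rpow_natCast]
    push_cast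
    rfl
  have hHc : ((H : ℝ) ^ c)⁻¹ ≤ 1 / 32 := by
    rw [inv_le_comm₀ (by positivity) (by norm_num)]
    norm_num
    exact h2
  have hP : (0 : ℝ) < (H : ℝ) ^ (q + 3) := by positivity
  have hT0 : (0 : ℝ) < T := by linarith
  have h11 : C * ((H : ℝ) ^ (q + 3) / T) ≤ (H : ℝ) ^ (q + 3) * (1 / 16) := by
    have h12 : C / T ≤ 1 / 16 := by
      rw [div_le_div_iff₀ hT0 (by norm_num)]
      linarith
    calc C * ((H : ℝ) ^ (q + 3) / T) = (H : ℝ) ^ (q + 3) * (C / T) := by ring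
      _ ≤ _ := mul_le_mul_of_nonneg_left h12 hP.le
  have h12 : (H : ℝ) ^ (q + 3) * ((H : ℝ) ^ c)⁻¹ ≤ (H : ℝ) ^ (q + 3) * (1 / 32) :=
    mul_le_mul_of_nonneg_left hHc hP.le
  rw [hHp] at h10
  have h13 : 0 < (H : ℝ) ^ (q + 3) * ∫ t in (-(T : ℝ))..T, ph (q + 1) t := by linarith
  exact pos_of_mul_pos_right h13 hP.le

lemma I0_pos (q : ℕ) : 0 < I0 q := by
  obtain ⟨T, _, h⟩ := phi_pos q
  exact h.trans_le (I0_ge q T)

end Pool.Agent.W5h30.LL
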