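import Mathlib
import Pool.Agent.W5h30.LL.Phi
import Pool.Agent.Y933.KG.Cnt2

/-!
# The local law for the real algebraic numbers, in total variation (helper30)
-/

set_option autoImplicit false

namespace Pool.Agent.W5h30.LL

open MeasureTheory Set Polynomial Filter
open Pool.Agent.Y933.KG

/-- the union of the cells in `J` -/
def EJ (M : ℕ) (J : Set ℤ) : Set ℝ := {t | ⌊(M : ℝ) * t⌋ ∈ J}

lemma EJ_meas (M : ℕ) (J : Set ℤ) : MeasurableSet (EJ M J) := by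
  unfold EJ
  have h1 : Measurable fun t : ℝ => ⌊(M : ℝ) * t⌋ := Int.measurable_floor.comp (measurable_const_mul _)
  exact h1 (MeasurableSet.of_discrete)

lemma ms_cell {q M : ℕ} (hM : 1 ≤ M) (u : ℤ) :
    ∫ t in {t : ℝ | ⌊(M : ℝ) * t⌋ = u}, ph (q + 1) t = ms q M u := by
  have hM0 : (0 : ℝ) < M := by exact_mod_cast hM
  have h1 : {t : ℝ | ⌊(M : ℝ) * t⌋ = u} = Ico ((u : ℝ) / M) ((u : ℝ) / M + 1 / M) := by
    ext t
    exact mem_cell hM t u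
  rw [h1, integral_Ico_eq_integral_Ioc]
  unfold ms
  rw [intervalIntegral.integral_of_le]
  have : (0 : ℝ) < 1 / M := by positivity
  linarith

open Classical in
/-- the cells of `J` in the window -/
noncomputable def Jf (T M : ℕ) (J : Set ℤ) : Finset ℤ := (full T M).filter (fun u => u ∈ J)

lemma mem_Jf {T M : ℕ} {J : Set ℤ} {u : ℤ} : u ∈ Jf T M J ↔ u ∈ full T M ∧ u ∈ J := by
  classical
  unfold Jf
  rw [Finset.mem_filter]

lemma mass_in {q M T : ℕ} (hM : 1 ≤ M) (J : Set ℤ) :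
    ∫ t in EJ M J ∩ Ico (-(T : ℝ)) T, ph (q + 1) t = ∑ u ∈ Jf T M J, ms q M u := by
  classical
  have h1 : EJ M J ∩ Ico (-(T : ℝ)) T = ⋃ u ∈ Jf T M J, {t : ℝ | ⌊(M : ℝ) * t⌋ = u} := by
    ext t
    rw [mem_inter_iff, mem_iUnion₂]
    unfold EJ Jf
    constructor
    · rintro ⟨h2, h3⟩
      rw [← mem_full hM] at h3
      refine ⟨⌊(M : ℝ) * t⌋, ?_, rfl⟩
      rw [Finset.mem_filter]
      exact ⟨h3, h2⟩
    · rintro ⟨u, h2, h3⟩
      rw [Finset.mem_filter] at h2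
      rw [mem_ofPred_eq] at h3
      rw [← h3] at h2
      exact ⟨h2.2, (mem_full hM t).1 h2.1⟩
  rw [h1, integral_biUnion_finset]
  · exact Finset.sum_congr rfl fun u _ => ms_cell hM u
  · intro u _
    have h2 : Measurable fun t : ℝ => ⌊(M : ℝ) * t⌋ := Int.measurable_floor.comp (measurable_const_mul _)
    exact h2 (measurableSet_singleton u)
  · intro u _ v _ huv
    refine Set.disjoint_left.2 fun t ht ht' => huv ?_
    rw [mem_ofPred_eq] at ht ht'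
    rw [← ht, ← ht']
  · intro u _
    exact (phi_int q).integrableOn

lemma mass_set {q M T : ℕ} (hM : 1 ≤ M) (J : Set ℤ) :
    ∑ u ∈ Jf T M J, ms q M u ≤ ∫ t in EJ M J, ph (q + 1) t ∧
    (∫ t in EJ M J, ph (q + 1) t) - ∑ u ∈ Jf T M J, ms q M u ≤
      I0 q - ∫ t in (-(T : ℝ))..T, ph (q + 1) t := by
  have hT : (0 : ℝ) ≤ T := Nat.cast_nonneg T
  have hint := phi_int q
  have h1 := integral_inter_add_sdiff (μ := volume) (f := ph (q + 1)) (s := EJ M J)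
    (t := Ico (-(T : ℝ)) T) measurableSet_Ico hint.integrableOn
  rw [mass_in hM J] at h1
  have h2 : 0 ≤ ∫ t in EJ M J \ Ico (-(T : ℝ)) T, ph (q + 1) t :=
    setIntegral_nonneg ((EJ_meas M J).diff measurableSet_Ico) fun t _ => ph_nonneg t
  have h3 : ∫ t in EJ M J \ Ico (-(T : ℝ)) T, ph (q + 1) t ≤ ∫ t in (Ico (-(T : ℝ)) T)ᶜ, ph (q + 1) t :=
    setIntegral_mono_set hint.integrableOn (Filter.Eventually.of_forall fun t => ph_nonneg t)
      (Filter.Eventually.of_forall fun t ht => ht.2)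
  have h4 := integral_add_compl (μ := volume) (measurableSet_Ico (a := -(T : ℝ)) (b := (T : ℝ))) hint
  have h5 : ∫ t in Ico (-(T : ℝ)) T, ph (q + 1) t = ∫ t in (-(T : ℝ))..T, ph (q + 1) t := by
    rw [integral_Ico_eq_integral_Ioc, intervalIntegral.integral_of_le (by linarith)]
  rw [h5] at h4
  unfold I0
  constructor <;> linarith

lemma mass_le_I0 (q M : ℕ) (J : Set ℤ) : ∫ t in EJ M J, ph (q + 1) t ≤ I0 q :=
  setIntegral_le_integral (phi_int q) (Filter.Eventually.of_forall fun t => ph_nonneg t)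

lemma mass_nonneg (q M : ℕ) (J : Set ℤ) : 0 ≤ ∫ t in EJ M J, ph (q + 1) t :=
  setIntegral_nonneg (EJ_meas M J) fun t _ => ph_nonneg t

lemma cn_le_NP {q H : ℕ} {s : Finset ℝ} (hs : ∀ x, x ∈ s ↔ x ∈ Alg (q + 2) H) (P : ℝ → Prop) :
    cn s P ≤ NP q H P := by
  classical
  unfold cn NP
  have h1 : s.filter P ⊆ ((Om q H).filter (fun p => P p.2.2)).image (fun p => p.2.2) := by
    intro x hx
    rw [Finset.mem_filter] at hx
    obtain ⟨p, hp, hpx⟩ := Alg_sub q H ((hs x).1 hx.1)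
    rw [Finset.mem_image]
    refine ⟨p, ?_, hpx⟩
    rw [Finset.mem_filter]
    refine ⟨hp, ?_⟩
    rw [hpx]
    exact hx.2
  exact (Finset.card_le_card h1).trans Finset.card_image_le

lemma cn_mono {s : Finset ℝ} {P Q : ℝ → Prop} (h : ∀ x, P x → Q x) : cn s P ≤ cn s Q := by
  classical
  unfold cn
  refine Finset.card_le_card fun x hx => ?_
  rw [Finset.mem_filter] at hx ⊢
  exact ⟨hx.1, h x hx.2⟩

lemma cn_or_le {s : Finset ℝ} {P Q R : ℝ → Prop} (h : ∀ x, P x → Q x ∨ R x) : cn s P ≤ cn s Q + cn s R := by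
  classical
  unfold cn
  have h1 : s.filter P ⊆ s.filter Q ∪ s.filter R := by
    intro x hx
    rw [Finset.mem_filter] at hx
    rw [Finset.mem_union, Finset.mem_filter, Finset.mem_filter]
    rcases h x hx.2 with h2 | h2
    · exact Or.inl ⟨hx.1, h2⟩
    · exact Or.inr ⟨hx.1, h2⟩
  exact (Finset.card_le_card h1).trans (Finset.card_union_le _ _)

lemma cn_of_forall (s : Finset ℝ) (P : ℝ → Prop) (h : ∀ x ∈ s, P x) : cn s P = s.card := by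
  classical
  unfold cn
  rw [Finset.filter_true_of_mem h]

lemma cn_true (s : Finset ℝ) : cn s (fun _ => True) = s.card := cn_of_forall s _ fun _ _ => trivial

lemma NP_le (q H : ℕ) (P : ℝ → Prop) : NP q H P ≤ (Om q H).card := by
  classical
  unfold NP
  exact Finset.card_filter_le _ _

/-- the final comparison -/
lemma ratio {a m N I S E : ℝ} (hN : 0 < N) (hI : 0 < I) (hm0 : 0 ≤ m) (hmI : m ≤ I)
    (h1 : |a - S * m| ≤ E) (h2 : |N - S * I| ≤ E) : |a / N - m / I| ≤ 2 * E / N := by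
  have hE : 0 ≤ E := (abs_nonneg _).trans h1
  have e1 : a / N - m / I = ((a - S * m) * I - m * (N - S * I)) / (N * I) := by
    field_simp
    ring
  rw [e1, abs_div, abs_of_pos (mul_pos hN hI), div_le_div_iff₀ (mul_pos hN hI) hN]
  have h3 : |(a - S * m) * I - m * (N - S * I)| ≤ E * I + I * E := by
    refine (abs_sub _ _).trans ?_
    rw [abs_mul, abs_mul, abs_of_pos hI, abs_of_nonneg hm0]
    exact add_le_add (mul_le_mul_of_nonneg_right h1 hI.le)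
      (mul_le_mul hmI h2 (abs_nonneg _) hI.le)
  calc _ ≤ (E * I + I * E) * N := mul_le_mul_of_nonneg_right h3 hN.le
    _ = _ := by ring

/-- **the local law at fine scales** -/
theorem law_big (q : ℕ) (η : ℝ) (hη : 0 < η) : ∃ c : ℝ, 0 < c ∧ ∃ H0 : ℕ, ∀ H : ℕ, H0 ≤ H →
    ∀ M : ℕ, H ≤ M → (M : ℝ) ≤ (H : ℝ) ^ ((q : ℝ) + 3 - η) → ∀ J : Set ℤ,
    ∀ s : Finset ℝ, (∀ x, x ∈ s ↔ x ∈ Alg (q + 2) H) → 0 < s.card ∧
      |(cn s (fun x => ⌊(M : ℝ) * x⌋ ∈ J) : ℝ) / s.card - (∫ t in EJ M J, ph (q + 1) t) / I0 q| ≤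
        (H : ℝ) ^ (-c) := by
  classical
  obtain ⟨c1, hc1, κ1, hκ1, H1, halg⟩ := alg_two q η hη
  obtain ⟨C1, hC1, htail⟩ := tail_Om q
  obtain ⟨C2, hC2, hphi⟩ := phi_tail' q
  obtain ⟨T0, hT0, hi0⟩ := phi_pos q
  obtain ⟨i0, hi0'⟩ : ∃ i0 : ℝ, i0 = ∫ t in (-(T0 : ℝ))..T0, ph (q + 1) t := ⟨_, rfl⟩
  rw [← hi0'] at hi0
  obtain ⟨κ, hκ⟩ : ∃ κ : ℝ, κ = min κ1 1 := ⟨_, rfl⟩
  have hκ0 : 0 < κ := by rw [hκ]; exact lt_min hκ1 one_pos
  have hκa : κ ≤ κ1 := by rw [hκ]; exact min_le_left _ _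
  have hκb : κ ≤ 1 := by rw [hκ]; exact min_le_right _ _
  obtain ⟨ρ, hρ⟩ : ∃ ρ : ℝ, ρ = min κ c1 := ⟨_, rfl⟩
  have hρ0 : 0 < ρ := by rw [hρ]; exact lt_min hκ0 hc1
  have hρa : ρ ≤ κ := by rw [hρ]; exact min_le_left _ _
  have hρb : ρ ≤ c1 := by rw [hρ]; exact min_le_right _ _
  obtain ⟨C3, hC3⟩ : ∃ C3 : ℝ, C3 = 3 ^ (q + 3) * (q + 2) := ⟨_, rfl⟩
  have hC30 : 0 < C3 := by rw [hC3]; positivity
  obtain ⟨C4, hC4⟩ : ∃ C4 : ℝ, C4 = (C3 + 1) / i0 := ⟨_, rfl⟩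
  have hC40 : 0 ≤ C4 := by rw [hC4]; positivity
  obtain ⟨C5, hC5⟩ : ∃ C5 : ℝ, C5 = 2 * (2 * C1 + 1 + C4 * (2 * C2)) := ⟨_, rfl⟩
  have hC50 : 0 ≤ C5 := by rw [hC5]; positivity
  have hev : ∀ᶠ H : ℕ in atTop, C5 ≤ (H : ℝ) ^ (ρ / 4) ∧ 2 ≤ (H : ℝ) ^ κ ∧ (T0 : ℝ) ≤ (H : ℝ) ^ κ ∧ H1 ≤ H ∧
      1 ≤ H ∧ (H : ℝ) ^ ((q : ℝ) + 3 - ρ / 4) ≤ ((Alg (q + 2) H).ncard : ℝ) := by
    filter_upwards [ev_rpow C5 (ρ / 4) (by positivity), ev_rpow 2 κ hκ0, ev_rpow T0 κ hκ0,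
      eventually_ge_atTop H1, eventually_ge_atTop 1, Alg_many q (ρ / 4) (by positivity)] with H a b c d e f
    exact ⟨a, b, c, d, e, f⟩
  obtain ⟨H0, hH0⟩ := Filter.eventually_atTop.1 hev
  refine ⟨ρ / 2, by positivity, H0, fun H hH M hHM hMH J s hs => ?_⟩
  obtain ⟨g1, g2, g3, g4, g5, g6⟩ := hH0 H hH
  have hHR : (1 : ℝ) ≤ H := by exact_mod_cast g5
  have hHpos : (0 : ℝ) < H := by linarith
  have hM1 : 1 ≤ M := g5.trans hHM
  obtain ⟨T, hT⟩ : ∃ T : ℕ, T = ⌊(H : ℝ) ^ κ⌋₊ := ⟨_, rfl⟩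
  have hTle : (T : ℝ) ≤ (H : ℝ) ^ κ := by rw [hT]; exact Nat.floor_le (by positivity)
  have hTgt : (H : ℝ) ^ κ < T + 1 := by rw [hT]; exact Nat.lt_floor_add_one _
  have hTge : (H : ℝ) ^ κ ≤ 2 * T := by linarith
  have hTT0 : T0 ≤ T := by rw [hT]; exact Nat.le_floor g3
  have hT1 : 1 ≤ T := hT0.trans hTT0
  have hTR : (1 : ℝ) ≤ T := by exact_mod_cast hT1
  have hTpos : (0 : ℝ) < T := by linarith
  have hTH : (T : ℝ) ≤ H := by
    refine hTle.trans ?_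
    calc (H : ℝ) ^ κ ≤ (H : ℝ) ^ (1 : ℝ) := Real.rpow_le_rpow_of_exponent_le hHR hκb
      _ = H := Real.rpow_one _
  have hTκ1 : (T : ℝ) ≤ (H : ℝ) ^ κ1 := hTle.trans (Real.rpow_le_rpow_of_exponent_le hHR hκa)
  obtain ⟨S, hS⟩ := halg H g4
  obtain ⟨P, hP⟩ : ∃ P : ℝ, P = (H : ℝ) ^ (q + 3) := ⟨_, rfl⟩
  have hP0 : 0 < P := by rw [hP]; positivity
  have hPr : ∀ u : ℝ, (H : ℝ) ^ ((q : ℝ) + 3 - u) = P * (H : ℝ) ^ (-u) := by
    intro u
    rw [hP, sub_eq_add_neg, Real.rpow_add hHpos, ← Real.rpow_natCast]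
    push_cast
    rfl
  obtain ⟨w, hw⟩ : ∃ w : ℝ, w = (H : ℝ) ^ (-ρ) := ⟨_, rfl⟩
  have hw0 : 0 < w := by rw [hw]; positivity
  have hw1 : w ≤ 1 := by rw [hw]; exact Real.rpow_le_one_of_one_le_of_nonpos hHR (by linarith)
  -- the basic errors
  have hE1 : (H : ℝ) ^ ((q : ℝ) + 3 - c1) ≤ P * w := by
    rw [hPr, hw]
    exact mul_le_mul_of_nonneg_left (Real.rpow_le_rpow_of_exponent_le hHR (by linarith)) hP0.le
  have hTinv : 1 / (T : ℝ) ≤ 2 * w := by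
    have h1 : (H : ℝ) ^ ρ ≤ 2 * T := (Real.rpow_le_rpow_of_exponent_le hHR hρa).trans hTge
    rw [hw, Real.rpow_neg hHpos.le, div_le_iff₀ hTpos]
    have h2 : (0 : ℝ) < (H : ℝ) ^ ρ := by positivity
    calc (1 : ℝ) = ((H : ℝ) ^ ρ)⁻¹ * (H : ℝ) ^ ρ := (inv_mul_cancel₀ h2.ne').symm
      _ ≤ ((H : ℝ) ^ ρ)⁻¹ * (2 * T) := mul_le_mul_of_nonneg_left h1 (by positivity)
      _ = _ := by ring
  have hE2 : (cn s (fun x => (T : ℝ) ≤ |x|) : ℝ) ≤ 2 * C1 * (P * w) := by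
    have h1 : (cn s (fun x => (T : ℝ) ≤ |x|) : ℝ) ≤ (NP q H (fun x => (T : ℝ) ≤ |x|) : ℝ) := by
      exact_mod_cast cn_le_NP hs _
    refine h1.trans ((htail H T g5 hTR hTH).trans ?_)
    rw [← hP]
    calc C1 * (P / T) = C1 * P * (1 / T) := by ring
      _ ≤ C1 * P * (2 * w) := mul_le_mul_of_nonneg_left hTinv (by positivity)
      _ = _ := by ring
  have hE3 : I0 q - (∫ t in (-(T : ℝ))..T, ph (q + 1) t) ≤ 2 * C2 * w := by
    refine (hphi T hT1).trans ?_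
    calc C2 / (T : ℝ) = C2 * (1 / T) := by ring
      _ ≤ C2 * (2 * w) := mul_le_mul_of_nonneg_left hTinv hC2
      _ = _ := by ring
  -- the cardinalities
  have hNle : (s.card : ℝ) ≤ C3 * P := by
    have h1 : s.card ≤ (Om q H).card := by
      rw [← cn_true s]
      exact (cn_le_NP hs _).trans (NP_le q H _)
    have h2 : (s.card : ℝ) ≤ ((Om q H).card : ℝ) := by exact_mod_cast h1
    rw [hC3, hP]
    exact h2.trans (card_Om_le q H g5)
  have hNge : P * (H : ℝ) ^ (-(ρ / 4)) ≤ (s.card : ℝ) := by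
    rw [← hPr]
    refine g6.trans (le_of_eq ?_)
    have h1 : (Alg (q + 2) H) = (s : Set ℝ) := by
      ext x
      rw [Finset.mem_coe, hs]
    rw [h1, Set.ncard_coe_finset]
  have hNpos : (0 : ℝ) < s.card := lt_of_lt_of_le (by positivity) hNge
  -- the window
  have hfull := hS M T hT1 hTκ1 hHM hMH (full T M) subset_rfl s hs
  rw [ms_full q hM1] at hfull
  have hJf := hS M T hT1 hTκ1 hHM hMH (Jf T M J) (Finset.filter_subset _ _) s hs
  have hiT : i0 ≤ ∫ t in (-(T : ℝ))..T, ph (q + 1) t := by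
    rw [hi0']
    have h1 : (T0 : ℝ) ≤ T := by exact_mod_cast hTT0
    have h2 : (0 : ℝ) ≤ T0 := Nat.cast_nonneg _
    refine intervalIntegral.integral_mono_interval (by linarith) (by linarith) h1
      (Filter.Eventually.of_forall fun t => ph_nonneg t) (ph_cont.intervalIntegrable _ _)
  obtain ⟨IT, hIT⟩ : ∃ IT : ℝ, IT = ∫ t in (-(T : ℝ))..T, ph (q + 1) t := ⟨_, rfl⟩
  rw [← hIT] at hiT hfull hE3
  have hITpos : 0 < IT := hi0.trans_le hiT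
  have hIIT : IT ≤ I0 q := by rw [hIT]; exact I0_ge q T
  have hmf : ∀ x : ℝ, ⌊(M : ℝ) * x⌋ ∈ full T M ∨ (T : ℝ) ≤ |x| := by
    intro x
    by_cases h : ⌊(M : ℝ) * x⌋ ∈ full T M
    · exact Or.inl h
    · right
      rw [mem_full hM1] at h
      exact out_abs h
  have haf1 : (cn s (fun x => ⌊(M : ℝ) * x⌋ ∈ full T M) : ℝ) ≤ s.card := by
    have := cn_mono (s := s) (P := fun x => ⌊(M : ℝ) * x⌋ ∈ full T M) (Q := fun _ => True) fun _ _ => trivial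
    rw [cn_true] at this
    exact_mod_cast this
  have haf2 : (s.card : ℝ) ≤ (cn s (fun x => ⌊(M : ℝ) * x⌋ ∈ full T M) : ℝ) +
      (cn s (fun x => (T : ℝ) ≤ |x|) : ℝ) := by
    have := cn_or_le (s := s) (P := fun _ => True) (Q := fun x => ⌊(M : ℝ) * x⌋ ∈ full T M)
      (R := fun x => (T : ℝ) ≤ |x|) fun x _ => hmf x
    rw [cn_true] at this
    exact_mod_cast this
  have haJ1 : (cn s (fun x => ⌊(M : ℝ) * x⌋ ∈ Jf T M J) : ℝ) ≤ (cn s (fun x => ⌊(M : ℝ) * x⌋ ∈ J) : ℝ) := by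
    have := cn_mono (s := s) (P := fun x => ⌊(M : ℝ) * x⌋ ∈ Jf T M J) (Q := fun x => ⌊(M : ℝ) * x⌋ ∈ J) (by
      intro x hx
      exact (Finset.mem_filter.1 hx).2)
    exact_mod_cast this
  have haJ2 : (cn s (fun x => ⌊(M : ℝ) * x⌋ ∈ J) : ℝ) ≤ (cn s (fun x => ⌊(M : ℝ) * x⌋ ∈ Jf T M J) : ℝ) +
      (cn s (fun x => (T : ℝ) ≤ |x|) : ℝ) := by
    have := cn_or_le (s := s) (P := fun x => ⌊(M : ℝ) * x⌋ ∈ J) (Q := fun x => ⌊(M : ℝ) * x⌋ ∈ Jf T M J)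
      (R := fun x => (T : ℝ) ≤ |x|) (by
        intro x hx
        rcases hmf x with h | h
        · exact Or.inl (Finset.mem_filter.2 ⟨h, hx⟩)
        · exact Or.inr h)
    exact_mod_cast this
  obtain ⟨hm1, hm2⟩ := mass_set (q := q) (T := T) hM1 J
  rw [← hIT] at hm2
  -- the bound for `S`
  have hSabs : |S| ≤ C4 * P := by
    rw [hC4, div_mul_eq_mul_div, le_div_iff₀ hi0]
    have h1 : |S * IT| ≤ (cn s (fun x => ⌊(M : ℝ) * x⌋ ∈ full T M) : ℝ) + P * w := by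
      have h2 : |S * IT| ≤ |(cn s (fun x => ⌊(M : ℝ) * x⌋ ∈ full T M) : ℝ)| +
          |(cn s (fun x => ⌊(M : ℝ) * x⌋ ∈ full T M) : ℝ) - S * IT| := by
        have h3 := abs_sub ((cn s (fun x => ⌊(M : ℝ) * x⌋ ∈ full T M) : ℝ))
          ((cn s (fun x => ⌊(M : ℝ) * x⌋ ∈ full T M) : ℝ) - S * IT)
        rw [sub_sub_cancel] at h3
        exact h3
      rw [Nat.abs_cast] at h2
      linarith
    have h2 : P * w ≤ P := mul_le_of_le_one_right hP0.le hw1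
    calc |S| * i0 ≤ |S| * IT := mul_le_mul_of_nonneg_left hiT (abs_nonneg _)
      _ = |S * IT| := by rw [abs_mul, abs_of_pos hITpos]
      _ ≤ (C3 + 1) * P := by linarith
  obtain ⟨E, hE⟩ : ∃ E : ℝ, E = (2 * C1 + 1 + C4 * (2 * C2)) * (P * w) := ⟨_, rfl⟩
  have hS3 : |S| * (2 * C2 * w) ≤ C4 * (2 * C2) * (P * w) := by
    calc |S| * (2 * C2 * w) ≤ (C4 * P) * (2 * C2 * w) := mul_le_mul_of_nonneg_right hSabs (by positivity)
      _ = _ := by ring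
  have hcomp : ∀ a aJ m mJ : ℝ, aJ ≤ a → a ≤ aJ + (cn s (fun x => (T : ℝ) ≤ |x|) : ℝ) → mJ ≤ m →
      m - mJ ≤ I0 q - IT → |aJ - S * mJ| ≤ (H : ℝ) ^ ((q : ℝ) + 3 - c1) → |a - S * m| ≤ E := by
    intro a aJ m mJ h1 h2 h3 h4 h5
    have h6 : a - S * m = (a - aJ) + (aJ - S * mJ) + -(S * (m - mJ)) := by ring
    have h7 : |S * (m - mJ)| ≤ |S| * (2 * C2 * w) := by
      rw [abs_mul, abs_of_nonneg (by linarith : 0 ≤ m - mJ)]
      exact mul_le_mul_of_nonneg_left (h4.trans hE3) (abs_nonneg _)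
    have h8 : |a - aJ| ≤ 2 * C1 * (P * w) := by
      rw [abs_of_nonneg (by linarith)]
      linarith
    rw [h6, hE]
    refine (abs_add_three _ _ _).trans ?_
    rw [abs_neg]
    linarith
  have hA := hcomp _ _ _ _ haJ1 haJ2 hm1 hm2 hJf
  have hB := hcomp (s.card : ℝ) _ (I0 q) IT haf1 haf2 hIIT le_rfl hfull
  refine ⟨by exact_mod_cast hNpos, ?_⟩
  refine (ratio hNpos (I0_pos q) (mass_nonneg q M J) (mass_le_I0 q M J) hA hB).trans ?_
  rw [div_le_iff₀ hNpos]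
  have hfin : 2 * E ≤ (H : ℝ) ^ (-(ρ / 2)) * (P * (H : ℝ) ^ (-(ρ / 4))) := by
    have h1 : 2 * E = C5 * (P * w) := by rw [hE, hC5]; ring
    rw [h1]
    calc C5 * (P * w) ≤ (H : ℝ) ^ (ρ / 4) * (P * w) := mul_le_mul_of_nonneg_right g1 (by positivity)
      _ = P * ((H : ℝ) ^ (ρ / 4) * (H : ℝ) ^ (-ρ)) := by rw [hw]; ring
      _ = P * ((H : ℝ) ^ (-(ρ / 2)) * (H : ℝ) ^ (-(ρ / 4))) := by
          rw [← Real.rpow_add hHpos, ← Real.rpow_add hHpos]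
          congr 2
          ring
      _ = _ := by ring
  exact hfin.trans (mul_le_mul_of_nonneg_left hNge (by positivity))

end Pool.Agent.W5h30.LL
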