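import Mathlib
import Pool.Agent.W5h30.LL.Law

/-!
# The local law at all scales, and the uniform distribution of the digits (helper30)
-/

set_option autoImplicit false

namespace Pool.Agent.W5h30.LL

open MeasureTheory Set Polynomial Filter
open Pool.Agent.Y933.KG

lemma floor_refine {M r : ℕ} (hr : 1 ≤ r) (x : ℝ) : ⌊(M : ℝ) * x⌋ = ⌊((M * r : ℕ) : ℝ) * x⌋ / (r : ℤ) := by
  have hr0 : (r : ℝ) ≠ 0 := by positivity
  rw [← Int.floor_div_natCast]
  congr 1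
  push_cast
  field_simp

lemma EJ_refine {M r : ℕ} (hr : 1 ≤ r) (J : Set ℤ) : EJ M J = EJ (M * r) {u | u / (r : ℤ) ∈ J} := by
  ext t
  show ⌊(M : ℝ) * t⌋ ∈ J ↔ ⌊((M * r : ℕ) : ℝ) * t⌋ / (r : ℤ) ∈ J
  rw [floor_refine hr]

/-- **the local law** -/
theorem law (q : ℕ) (η : ℝ) (hη : 0 < η) : ∃ c : ℝ, 0 < c ∧ ∃ H0 : ℕ, ∀ H : ℕ, H0 ≤ H →
    ∀ M : ℕ, 1 ≤ M → (M : ℝ) ≤ (H : ℝ) ^ ((q : ℝ) + 3 - η) → ∀ J : Set ℤ,
    ∀ s : Finset ℝ, (∀ x, x ∈ s ↔ x ∈ Alg (q + 2) H) → 0 < s.card ∧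
      |(cn s (fun x => ⌊(M : ℝ) * x⌋ ∈ J) : ℝ) / s.card - (∫ t in EJ M J, ph (q + 1) t) / I0 q| ≤
        (H : ℝ) ^ (-c) := by
  obtain ⟨c, hc, H0, hlaw⟩ := law_big q (min η 1) (lt_min hη one_pos)
  refine ⟨c, hc, max H0 1, fun H hH M hM hMH J s hs => ?_⟩
  have h1 : H0 ≤ H := (le_max_left _ _).trans hH
  have h2 : 1 ≤ H := (le_max_right _ _).trans hH
  have hHR : (1 : ℝ) ≤ H := by exact_mod_cast h2
  have hHpos : (0 : ℝ) < H := by linarith
  have hη1 : min η 1 ≤ η := min_le_left _ _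
  have hη2 : min η 1 ≤ 1 := min_le_right _ _
  rcases le_or_gt H M with h | h
  · exact hlaw H h1 M h (hMH.trans (Real.rpow_le_rpow_of_exponent_le hHR (by linarith))) J s hs
  · have h3 : H ≤ M * H := Nat.le_mul_of_pos_left _ hM
    have h4 : ((M * H : ℕ) : ℝ) ≤ (H : ℝ) ^ ((q : ℝ) + 3 - min η 1) := by
      have hq : (0 : ℝ) ≤ q := Nat.cast_nonneg q
      have h5 : (M : ℝ) ≤ H := by exact_mod_cast h.le
      calc ((M * H : ℕ) : ℝ) = M * H := by push_cast; rfl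
        _ ≤ H * H := mul_le_mul_of_nonneg_right h5 hHpos.le
        _ = (H : ℝ) ^ (2 : ℝ) := by rw [Real.rpow_two, sq]
        _ ≤ _ := Real.rpow_le_rpow_of_exponent_le hHR (by linarith)
    have h5 := hlaw H h1 (M * H) h3 h4 {u | u / (H : ℤ) ∈ J} s hs
    rw [← EJ_refine h2 J] at h5
    refine ⟨h5.1, ?_⟩
    have h6 : cn s (fun x => ⌊(M : ℝ) * x⌋ ∈ J) =
        cn s (fun x => ⌊((M * H : ℕ) : ℝ) * x⌋ ∈ {u : ℤ | u / (H : ℤ) ∈ J}) := by
      congr 1
      funext x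
      rw [floor_refine h2 x]
      rfl
    rw [h6]
    exact h5.2

/-- the cells with the last digit in `E` -/
lemma res_sum {q m K T : ℕ} (hm : 1 ≤ m) (hK : 1 ≤ K) (E : Finset ℕ) (hE : ∀ e ∈ E, e < K) :
    ∑ u ∈ Jf T (m * K) {u : ℤ | (u % K).toNat ∈ E}, ms q (m * K) u =
      ∑ i ∈ full T m, ∑ e ∈ E, ms q (m * K) (i * K + e) := by
  classical
  have hK0 : (0 : ℤ) < K := by exact_mod_cast hK
  rw [← Finset.sum_product']
  symm
  refine Finset.sum_nbij' (fun p : ℤ × ℕ => p.1 * K + p.2) (fun u : ℤ => (u / K, (u % K).toNat)) ?_ ?_ ?_ ?_ ?_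
  · rintro ⟨i, e⟩ hp
    rw [Finset.mem_product] at hp
    simp only at hp ⊢
    have h1 := hE e hp.2
    have h1' : (e : ℤ) < K := by exact_mod_cast h1
    have h0' : (0 : ℤ) ≤ e := by positivity
    rw [mem_Jf]
    have h2 : (i * K + (e : ℤ)) % K = e := by
      rw [add_comm, Int.add_mul_emod_self_right]
      exact Int.emod_eq_of_lt h0' h1'
    refine ⟨?_, ?_⟩
    · unfold full at hp ⊢
      rw [Finset.mem_Ico] at hp ⊢
      push_cast at hp ⊢
      constructor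
      · nlinarith [hp.1.1]
      · have h3 : i + 1 ≤ (T : ℤ) * m := hp.1.2
        nlinarith
    · show ((i * K + (e : ℤ)) % K).toNat ∈ E
      rw [h2, Int.toNat_natCast]
      exact hp.2
  · intro u hu
    rw [mem_Jf] at hu
    rw [Finset.mem_product]
    refine ⟨?_, hu.2⟩
    have h1 := hu.1
    unfold full at h1 ⊢
    rw [Finset.mem_Ico] at h1 ⊢
    push_cast at h1 ⊢
    have h2 := Int.emod_nonneg u hK0.ne'
    have h3 := Int.emod_lt_of_pos u hK0
    have h4 := Int.mul_ediv_add_emod u K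
    constructor
    · rw [Int.le_ediv_iff_mul_le hK0]
      nlinarith [h1.1]
    · rw [Int.ediv_lt_iff_lt_mul hK0]
      nlinarith [h1.2]
  · rintro ⟨i, e⟩ hp
    rw [Finset.mem_product] at hp
    have h1 := hE e hp.2
    have h1' : (e : ℤ) < K := by exact_mod_cast h1
    have h0' : (0 : ℤ) ≤ e := by positivity
    simp only
    have h2 : (i * K + (e : ℤ)) % K = e := by
      rw [add_comm, Int.add_mul_emod_self_right]
      exact Int.emod_eq_of_lt h0' h1'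
    have h3 : (i * K + (e : ℤ)) / K = i := by
      rw [add_comm, Int.add_mul_ediv_right _ _ hK0.ne', Int.ediv_eq_zero_of_lt h0' h1', zero_add]
    rw [h2, h3, Int.toNat_natCast]
  · intro u hu
    simp only
    have h2 := Int.emod_nonneg u hK0.ne'
    rw [Int.toNat_of_nonneg h2]
    have h4 := Int.mul_ediv_add_emod u K
    linarith
  · rintro ⟨i, e⟩ _
    rfl

/-- the mass of one class in one large cell -/
lemma class_le {q m K T : ℕ} (hT : 1 ≤ T) (hm : 1 ≤ m) (hK : 1 ≤ K) (E : Finset ℕ) (hE : ∀ e ∈ E, e < K)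
    (i : ℤ) (hi : i ∈ full T m) :
    |∑ e ∈ E, ms q (m * K) (i * K + e) - (E.card : ℝ) / K * ms q m i| ≤
      2 * Lc (q + 1) T * (1 / m) * (1 / m) := by
  have hmR : (1 : ℝ) ≤ m := by exact_mod_cast hm
  have hm0 : (0 : ℝ) < m := by linarith
  have hKR : (1 : ℝ) ≤ K := by exact_mod_cast hK
  have hK0 : (0 : ℝ) < K := by linarith
  have hTR : (1 : ℝ) ≤ T := by exact_mod_cast hT
  have hmK : 1 ≤ m * K := Nat.mul_pos hm hK
  have hLc : 0 ≤ Lc (q + 1) T := by unfold Lc; positivity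
  have h1m : (0 : ℝ) < 1 / m := by positivity
  have hi' := hi
  unfold full at hi'
  rw [Finset.mem_Ico] at hi'
  have hi0 : -((T : ℝ) * m) ≤ (i : ℝ) := by exact_mod_cast hi'.1
  have hi1 : (i : ℝ) + 1 ≤ (T : ℝ) * m := by
    have : i + 1 ≤ ((T * m : ℕ) : ℤ) := hi'.2
    exact_mod_cast this
  have hb0 : -(T : ℝ) ≤ (i : ℝ) / m := by
    rw [le_div_iff₀ hm0]; linarith
  have hb1 : (i : ℝ) / m + 1 / m ≤ T := by
    rw [← add_div, div_le_iff₀ hm0]; linarith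
  have hxT : |(i : ℝ) / m| ≤ T := by rw [abs_le]; constructor <;> linarith
  obtain ⟨y, hy⟩ : ∃ y : ℝ, y = ph (q + 1) ((i : ℝ) / m) := ⟨_, rfl⟩
  -- one small cell
  have hsmall : ∀ e ∈ E, |ms q (m * K) (i * K + e) - y * (1 / ((m * K : ℕ) : ℝ))| ≤
      Lc (q + 1) T * (1 / m) * (1 / ((m * K : ℕ) : ℝ)) := by
    intro e he
    have he1 := hE e he
    have he1' : (e : ℝ) + 1 ≤ K := by exact_mod_cast he1
    have he0 : (0 : ℝ) ≤ e := Nat.cast_nonneg e
    obtain ⟨N, hN⟩ : ∃ N : ℝ, N = ((m * K : ℕ) : ℝ) := ⟨_, rfl⟩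
    have hN' : N = m * K := by rw [hN]; push_cast; rfl
    have hN0 : 0 < N := by rw [hN']; positivity
    have h1N : 0 < 1 / N := by positivity
    have hc : (((i * K + e : ℤ)) : ℝ) = (i : ℝ) * K + e := by push_cast; rfl
    have ha : (((i * K + e : ℤ)) : ℝ) / N = (i : ℝ) / m + e / N := by
      rw [hc, hN']
      field_simp
    have hae : 0 ≤ (e : ℝ) / N := by positivity
    have hb : (e : ℝ) / N + 1 / N ≤ 1 / m := by
      rw [← add_div, hN', div_le_div_iff₀ (by positivity) hm0]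
      nlinarith
    have e1 : y * (1 / N) = ∫ _t in ((((i * K + e : ℤ)) : ℝ) / N)..((((i * K + e : ℤ)) : ℝ) / N + 1 / N), y := by
      rw [intervalIntegral.integral_const, add_sub_cancel_left, smul_eq_mul, mul_comm]
    unfold ms
    rw [← hN, e1, ← intervalIntegral.integral_sub (ph_cont.intervalIntegrable _ _) intervalIntegrable_const]
    have h2 := intervalIntegral.norm_integral_le_of_norm_le_const
      (a := (((i * K + e : ℤ)) : ℝ) / N) (b := (((i * K + e : ℤ)) : ℝ) / N + 1 / N)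
      (C := Lc (q + 1) T * (1 / m)) (f := fun t => ph (q + 1) t - y) (by
        intro t ht
        rw [uIoc_of_le (by linarith), ha] at ht
        have htT : |t| ≤ T := by rw [abs_le]; constructor <;> linarith [ht.1, ht.2]
        rw [hy]
        refine (ph_lip hTR htT hxT).trans (mul_le_mul_of_nonneg_left ?_ hLc)
        rw [abs_le]
        constructor <;> linarith [ht.1, ht.2])
    rw [Real.norm_eq_abs, add_sub_cancel_left, abs_of_pos h1N] at h2
    exact h2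
  have hbig : |ms q m i - y * (1 / m)| ≤ Lc (q + 1) T * (1 / m) * (1 / m) := by
    rw [hy]
    exact ms_le hTR hm i hb0 hb1 ⟨le_rfl, by linarith⟩
  have hcardE : (E.card : ℝ) ≤ K := by
    have h1 : E ⊆ Finset.range K := fun e he => Finset.mem_range.2 (hE e he)
    have h2 := Finset.card_le_card h1
    rw [Finset.card_range] at h2
    exact_mod_cast h2
  have hEK : (E.card : ℝ) / K ≤ 1 := by rwa [div_le_one hK0]
  have hEK0 : (0 : ℝ) ≤ (E.card : ℝ) / K := by positivity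
  have hsum : |∑ e ∈ E, ms q (m * K) (i * K + e) - (E.card : ℝ) / K * (y * (1 / m))| ≤
      Lc (q + 1) T * (1 / m) * (1 / m) := by
    have e1 : (E.card : ℝ) / K * (y * (1 / m)) = ∑ _e ∈ E, y * (1 / ((m * K : ℕ) : ℝ)) := by
      rw [Finset.sum_const, nsmul_eq_mul]
      push_cast
      field_simp
    rw [e1, ← Finset.sum_sub_distrib]
    refine (Finset.abs_sum_le_sum_abs _ _).trans ((Finset.sum_le_sum hsmall).trans ?_)
    rw [Finset.sum_const, nsmul_eq_mul]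
    have e2 : (E.card : ℝ) * (Lc (q + 1) T * (1 / m) * (1 / ((m * K : ℕ) : ℝ))) =
        (E.card : ℝ) / K * (Lc (q + 1) T * (1 / m) * (1 / m)) := by
      push_cast
      field_simp
    rw [e2]
    exact mul_le_of_le_one_left (by positivity) hEK
  have e3 : ∑ e ∈ E, ms q (m * K) (i * K + e) - (E.card : ℝ) / K * ms q m i =
      (∑ e ∈ E, ms q (m * K) (i * K + e) - (E.card : ℝ) / K * (y * (1 / m))) +
        -((E.card : ℝ) / K * (ms q m i - y * (1 / m))) := by ring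
  rw [e3]
  refine (abs_add_le _ _).trans ?_
  rw [abs_neg, abs_mul, abs_of_nonneg hEK0]
  have h4 : (E.card : ℝ) / K * |ms q m i - y * (1 / m)| ≤ Lc (q + 1) T * (1 / m) * (1 / m) :=
    (mul_le_of_le_one_left (abs_nonneg _) hEK).trans hbig
  linarith

lemma full_card (T m : ℕ) : ((full T m).card : ℝ) = 2 * (T * m) := by
  unfold full
  rw [Int.card_Ico]
  have h1 : (((T * m : ℕ) : ℤ) - -((T * m : ℕ) : ℤ)).toNat = 2 * (T * m) := by omega
  rw [h1]
  push_cast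
  rfl

/-- **the classes have their share of the mass** -/
theorem digit_mass (q : ℕ) : ∃ C : ℝ, 0 ≤ C ∧ ∃ c : ℝ, 0 < c ∧ ∀ m K : ℕ, 1 ≤ m → 1 ≤ K → ∀ E : Finset ℕ,
    (∀ e ∈ E, e < K) →
    |(∫ t in EJ (m * K) {u : ℤ | (u % K).toNat ∈ E}, ph (q + 1) t) / I0 q - (E.card : ℝ) / K| ≤
      C * (m : ℝ) ^ (-c) := by
  obtain ⟨C1, hC1, hcon⟩ := consts q
  obtain ⟨C2, hC2, hphi⟩ := phi_tail' q
  have hI := I0_pos q
  obtain ⟨κ, hκ⟩ : ∃ κ : ℝ, κ = 1 / (2 * (2 * (q : ℝ) + 5)) := ⟨_, rfl⟩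
  have hκ0 : 0 < κ := by rw [hκ]; positivity
  have hκ5 : κ * (2 * (q : ℝ) + 5) = 1 / 2 := by rw [hκ]; field_simp
  have hκhalf : κ ≤ 1 / 2 := by
    have hq : (0 : ℝ) ≤ q := Nat.cast_nonneg q
    nlinarith
  refine ⟨(4 * C1 + 2 * C2) / I0 q, by positivity, κ, hκ0, fun m K hm hK E hE => ?_⟩
  have hmR : (1 : ℝ) ≤ m := by exact_mod_cast hm
  have hm0 : (0 : ℝ) < m := by linarith
  have hKR : (1 : ℝ) ≤ K := by exact_mod_cast hK
  have hK0 : (0 : ℝ) < K := by linarith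
  obtain ⟨T, hT⟩ : ∃ T : ℕ, T = ⌊(m : ℝ) ^ κ⌋₊ := ⟨_, rfl⟩
  have hTle : (T : ℝ) ≤ (m : ℝ) ^ κ := by rw [hT]; exact Nat.floor_le (by positivity)
  have hTgt : (m : ℝ) ^ κ < T + 1 := by rw [hT]; exact Nat.lt_floor_add_one _
  have h1m : (1 : ℝ) ≤ (m : ℝ) ^ κ := Real.one_le_rpow hmR hκ0.le
  have hT1 : 1 ≤ T := by
    rw [hT]
    exact Nat.le_floor (by exact_mod_cast h1m)
  have hTR : (1 : ℝ) ≤ T := by exact_mod_cast hT1
  have hTpos : (0 : ℝ) < T := by linarith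
  have hTge : (m : ℝ) ^ κ ≤ 2 * T := by linarith
  obtain ⟨w, hw⟩ : ∃ w : ℝ, w = (m : ℝ) ^ (-κ) := ⟨_, rfl⟩
  have hw0 : 0 < w := by rw [hw]; positivity
  have hTinv : 1 / (T : ℝ) ≤ 2 * w := by
    rw [hw, Real.rpow_neg hm0.le, div_le_iff₀ hTpos]
    have h2 : (0 : ℝ) < (m : ℝ) ^ κ := by positivity
    calc (1 : ℝ) = ((m : ℝ) ^ κ)⁻¹ * (m : ℝ) ^ κ := (inv_mul_cancel₀ h2.ne').symm
      _ ≤ ((m : ℝ) ^ κ)⁻¹ * (2 * T) := mul_le_mul_of_nonneg_left hTge (by positivity)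
      _ = _ := by ring
  obtain ⟨c1, _, _, _, _⟩ := hcon T hTR
  have hLc : 0 ≤ Lc (q + 1) T := by unfold Lc; positivity
  -- the main term
  have hmain : |∑ u ∈ Jf T (m * K) {u : ℤ | (u % K).toNat ∈ E}, ms q (m * K) u -
      (E.card : ℝ) / K * ∫ t in (-(T : ℝ))..T, ph (q + 1) t| ≤ 4 * C1 * w := by
    rw [res_sum hm hK E hE, ← ms_full q hm, Finset.mul_sum, ← Finset.sum_sub_distrib]
    refine (Finset.abs_sum_le_sum_abs _ _).trans
      ((Finset.sum_le_sum fun i hi => class_le hT1 hm hK E hE i hi).trans ?_)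
    rw [Finset.sum_const, nsmul_eq_mul, full_card]
    have e1 : 2 * ((T : ℝ) * m) * (2 * Lc (q + 1) T * (1 / m) * (1 / m)) = 4 * (T * Lc (q + 1) T) * (1 / m) := by
      field_simp
      ring
    rw [e1]
    have e2 : T * Lc (q + 1) T ≤ C1 * (m : ℝ) ^ (1 / 2 : ℝ) := by
      calc T * Lc (q + 1) T ≤ T * (C1 * (T : ℝ) ^ (2 * q + 4)) := mul_le_mul_of_nonneg_left c1 hTpos.le
        _ = C1 * (T : ℝ) ^ (2 * q + 5) := by ring
        _ ≤ C1 * ((m : ℝ) ^ κ) ^ (2 * q + 5) :=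
            mul_le_mul_of_nonneg_left (pow_le_pow_left₀ hTpos.le hTle _) (by linarith)
        _ = C1 * (m : ℝ) ^ (1 / 2 : ℝ) := by
            rw [← Real.rpow_natCast, ← Real.rpow_mul hm0.le]
            push_cast
            rw [hκ5]
    have e3 : (m : ℝ) ^ (1 / 2 : ℝ) * (1 / m) ≤ w := by
      rw [hw, one_div (m : ℝ), ← Real.rpow_neg_one, ← Real.rpow_add hm0]
      exact Real.rpow_le_rpow_of_exponent_le hmR (by linarith)
    calc 4 * (T * Lc (q + 1) T) * (1 / m) ≤ 4 * (C1 * (m : ℝ) ^ (1 / 2 : ℝ)) * (1 / m) := by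
          refine mul_le_mul_of_nonneg_right (by linarith) (by positivity)
      _ = 4 * C1 * ((m : ℝ) ^ (1 / 2 : ℝ) * (1 / m)) := by ring
      _ ≤ 4 * C1 * w := mul_le_mul_of_nonneg_left e3 (by linarith)
  have hE3 : I0 q - (∫ t in (-(T : ℝ))..T, ph (q + 1) t) ≤ 2 * C2 * w := by
    refine (hphi T hT1).trans ?_
    calc C2 / (T : ℝ) = C2 * (1 / T) := by ring
      _ ≤ C2 * (2 * w) := mul_le_mul_of_nonneg_left hTinv hC2
      _ = _ := by ring
  have hI3 := I0_ge q T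
  obtain ⟨hm1, hm2⟩ := mass_set (q := q) (T := T) (Nat.mul_pos hm hK : 1 ≤ m * K) {u : ℤ | (u % K).toNat ∈ E}
  obtain ⟨IT, hIT⟩ : ∃ IT : ℝ, IT = ∫ t in (-(T : ℝ))..T, ph (q + 1) t := ⟨_, rfl⟩
  rw [← hIT] at hmain hE3 hI3 hm2
  obtain ⟨e, he⟩ : ∃ e : ℝ, e = (E.card : ℝ) / K := ⟨_, rfl⟩
  have hcardE : (E.card : ℝ) ≤ K := by
    have h1 : E ⊆ Finset.range K := fun e he => Finset.mem_range.2 (hE e he)
    have h2 := Finset.card_le_card h1
    rw [Finset.card_range] at h2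
    exact_mod_cast h2
  have he1 : e ≤ 1 := by rw [he]; rwa [div_le_one hK0]
  have he0 : 0 ≤ e := by rw [he]; positivity
  rw [← he] at hmain ⊢
  have h5 : e * (I0 q - IT) ≤ 2 * C2 * w := (mul_le_of_le_one_left (by linarith) he1).trans hE3
  have h6 : 0 ≤ e * (I0 q - IT) := mul_nonneg he0 (by linarith)
  rw [mul_sub] at h5 h6
  have h7 : |(∫ t in EJ (m * K) {u : ℤ | (u % K).toNat ∈ E}, ph (q + 1) t) - e * I0 q| ≤
      (4 * C1 + 2 * C2) * w := by
    rw [abs_le] at hmain ⊢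
    constructor <;> linarith [hmain.1, hmain.2]
  have h8 : (∫ t in EJ (m * K) {u : ℤ | (u % K).toNat ∈ E}, ph (q + 1) t) / I0 q - e =
      ((∫ t in EJ (m * K) {u : ℤ | (u % K).toNat ∈ E}, ph (q + 1) t) - e * I0 q) / I0 q := by
    field_simp
  rw [h8, abs_div, abs_of_pos hI, ← hw, div_le_iff₀ hI]
  refine h7.trans (le_of_eq ?_)
  field_simp

end Pool.Agent.W5h30.LL
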