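import Mathlib
import Pool.Agent.W5h30.LL.Digit

/-!
# The local law for unions of intervals (helper30)
-/

set_option autoImplicit false

namespace Pool.Agent.W5h30.LL

open MeasureTheory Set Polynomial Filter
open Pool.Agent.Y933.KG

/-- the mass of few cells -/
lemma mass_few {q M T : ℕ} (hM : 1 ≤ M) (hT : 1 ≤ T) (B : Finset ℤ) :
    ∫ t in EJ M (B : Set ℤ), ph (q + 1) t ≤ (B.card : ℝ) * (Ph (q + 1) T * (1 / M)) +
      (I0 q - ∫ t in (-(T : ℝ))..T, ph (q + 1) t) := by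
  classical
  obtain ⟨_, h2⟩ := mass_set (q := q) (T := T) hM (B : Set ℤ)
  have hTR : (1 : ℝ) ≤ T := by exact_mod_cast hT
  have hM0 : (0 : ℝ) < M := by exact_mod_cast hM
  have hPh : 0 ≤ Ph (q + 1) T := by unfold Ph; positivity
  have h3 : ∑ u ∈ Jf T M (B : Set ℤ), ms q M u ≤ (B.card : ℝ) * (Ph (q + 1) T * (1 / M)) := by
    have h4 : ∀ u ∈ Jf T M (B : Set ℤ), ms q M u ≤ Ph (q + 1) T * (1 / M) := by
      intro u hu
      rw [mem_Jf] at hu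
      have hu1 := hu.1
      unfold full at hu1
      rw [Finset.mem_Ico] at hu1
      have hi0 : -((T : ℝ) * M) ≤ (u : ℝ) := by exact_mod_cast hu1.1
      have hi1 : (u : ℝ) + 1 ≤ (T : ℝ) * M := by
        have : u + 1 ≤ ((T * M : ℕ) : ℤ) := hu1.2
        exact_mod_cast this
      refine ms_up hTR hM u ?_ ?_
      · rw [le_div_iff₀ hM0]; linarith
      · rw [← add_div, div_le_iff₀ hM0]; linarith
    refine (Finset.sum_le_sum h4).trans ?_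
    rw [Finset.sum_const, nsmul_eq_mul]
    refine mul_le_mul_of_nonneg_right ?_ (by positivity)
    have h5 : Jf T M (B : Set ℤ) ⊆ B := by
      intro u hu
      rw [mem_Jf] at hu
      exact hu.2
    exact_mod_cast Finset.card_le_card h5
  linarith

/-- the set `V` is constant on the intervals without points of `Q` -/
def Off (Q : Finset ℝ) (V : Set ℝ) : Prop :=
  ∀ x y : ℝ, x < y → (∀ z ∈ Q, z ∉ Icc x y) → (x ∈ V ↔ y ∈ V)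

/-- **the local law for unions of intervals** -/
theorem law_set (q : ℕ) (η : ℝ) (hη : 0 < η) : ∃ c : ℝ, 0 < c ∧ ∃ H0 : ℕ, ∀ H : ℕ, H0 ≤ H →
    ∀ Q : Finset ℝ, (Q.card : ℝ) ≤ (H : ℝ) ^ ((q : ℝ) + 3 - η) → ∀ V : Set ℝ, Off Q V →
    ∀ s : Finset ℝ, (∀ x, x ∈ s ↔ x ∈ Alg (q + 2) H) → 0 < s.card ∧
      |(cn s (fun x => x ∈ V) : ℝ) / s.card - (∫ t in V, ph (q + 1) t) / I0 q| ≤ (H : ℝ) ^ (-c) := by
  classical
  obtain ⟨θ, hθ⟩ : ∃ θ : ℝ, θ = min η 1 / 2 := ⟨_, rfl⟩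
  have hθ0 : 0 < θ := by rw [hθ]; have := lt_min hη one_pos; linarith
  have hθη : 2 * θ ≤ η := by rw [hθ]; have := min_le_left η 1; linarith
  have hθ1 : 2 * θ ≤ 1 := by rw [hθ]; have := min_le_right η 1; linarith
  obtain ⟨c1, hc1, H1, hlaw⟩ := law q θ hθ0
  obtain ⟨C1, hC1, hcon⟩ := consts q
  obtain ⟨C2, hC2, hphi⟩ := phi_tail' q
  have hI := I0_pos q
  obtain ⟨κ, hκ⟩ : ∃ κ : ℝ, κ = θ / (2 * (2 * (q : ℝ) + 4)) := ⟨_, rfl⟩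
  have hκ0 : 0 < κ := by rw [hκ]; positivity
  have hκ5 : κ * (2 * (q : ℝ) + 4) = θ / 2 := by rw [hκ]; field_simp
  obtain ⟨ρ, hρ⟩ : ∃ ρ : ℝ, ρ = min (min c1 κ) (θ / 2) := ⟨_, rfl⟩
  have hρ0 : 0 < ρ := by rw [hρ]; exact lt_min (lt_min hc1 hκ0) (by positivity)
  have hρ1 : ρ ≤ c1 := by rw [hρ]; exact (min_le_left _ _).trans (min_le_left _ _)
  have hρ2 : ρ ≤ κ := by rw [hρ]; exact (min_le_left _ _).trans (min_le_right _ _)
  have hρ3 : ρ ≤ θ / 2 := by rw [hρ]; exact min_le_right _ _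
  obtain ⟨C3, hC3⟩ : ∃ C3 : ℝ, C3 = 2 + (2 * C1 + 2 * C2) / I0 q := ⟨_, rfl⟩
  have hC30 : 0 ≤ C3 := by rw [hC3]; positivity
  have hev : ∀ᶠ H : ℕ in atTop, C3 ≤ (H : ℝ) ^ (ρ / 2) ∧ 2 ≤ (H : ℝ) ^ κ ∧ H1 ≤ H ∧ 2 ≤ H := by
    filter_upwards [ev_rpow C3 (ρ / 2) (by positivity), ev_rpow 2 κ hκ0, eventually_ge_atTop H1,
      eventually_ge_atTop 2] with H a b c d
    exact ⟨a, b, c, d⟩
  obtain ⟨H0, hH0⟩ := Filter.eventually_atTop.1 hev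
  refine ⟨ρ / 2, by positivity, H0, fun H hH Q hQ V hV s hs => ?_⟩
  obtain ⟨g1, g2, g3, g4⟩ := hH0 H hH
  have hHR2 : (2 : ℝ) ≤ H := by exact_mod_cast g4
  have hHR : (1 : ℝ) ≤ H := by linarith
  have hHpos : (0 : ℝ) < H := by linarith
  have hq0 : (0 : ℝ) ≤ q := Nat.cast_nonneg q
  obtain ⟨M, hM⟩ : ∃ M : ℕ, M = ⌊(H : ℝ) ^ ((q : ℝ) + 3 - θ)⌋₊ := ⟨_, rfl⟩
  have hMle : (M : ℝ) ≤ (H : ℝ) ^ ((q : ℝ) + 3 - θ) := by rw [hM]; exact Nat.floor_le (by positivity)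
  have hMgt : (H : ℝ) ^ ((q : ℝ) + 3 - θ) < M + 1 := by rw [hM]; exact Nat.lt_floor_add_one _
  have hbig : (2 : ℝ) ≤ (H : ℝ) ^ ((q : ℝ) + 3 - θ) := by
    calc (2 : ℝ) ≤ (H : ℝ) ^ (1 : ℝ) := by rwa [Real.rpow_one]
      _ ≤ _ := Real.rpow_le_rpow_of_exponent_le hHR (by linarith)
  have hM1R : (1 : ℝ) ≤ M := by linarith
  have hM1 : 1 ≤ M := by exact_mod_cast hM1R
  have hM0 : (0 : ℝ) < M := by linarith
  have hMge : (H : ℝ) ^ ((q : ℝ) + 3 - θ) ≤ 2 * M := by linarith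
  obtain ⟨T, hT⟩ : ∃ T : ℕ, T = ⌊(H : ℝ) ^ κ⌋₊ := ⟨_, rfl⟩
  have hTle : (T : ℝ) ≤ (H : ℝ) ^ κ := by rw [hT]; exact Nat.floor_le (by positivity)
  have hTgt : (H : ℝ) ^ κ < T + 1 := by rw [hT]; exact Nat.lt_floor_add_one _
  have hTR : (1 : ℝ) ≤ T := by linarith
  have hT1 : 1 ≤ T := by exact_mod_cast hTR
  have hTpos : (0 : ℝ) < T := by linarith
  have hTge : (H : ℝ) ^ κ ≤ 2 * T := by linarith
  obtain ⟨w, hw⟩ : ∃ w : ℝ, w = (H : ℝ) ^ (-ρ) := ⟨_, rfl⟩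
  have hw0 : 0 < w := by rw [hw]; positivity
  have hTinv : 1 / (T : ℝ) ≤ 2 * w := by
    have h1 : (H : ℝ) ^ ρ ≤ 2 * T := (Real.rpow_le_rpow_of_exponent_le hHR hρ2).trans hTge
    rw [hw, Real.rpow_neg hHpos.le, div_le_iff₀ hTpos]
    have h2 : (0 : ℝ) < (H : ℝ) ^ ρ := by positivity
    calc (1 : ℝ) = ((H : ℝ) ^ ρ)⁻¹ * (H : ℝ) ^ ρ := (inv_mul_cancel₀ h2.ne').symm
      _ ≤ ((H : ℝ) ^ ρ)⁻¹ * (2 * T) := mul_le_mul_of_nonneg_left h1 (by positivity)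
      _ = _ := by ring
  -- the bad cells
  obtain ⟨B, hB⟩ : ∃ B : Finset ℤ, B = Q.image (fun z => ⌊(M : ℝ) * z⌋) := ⟨_, rfl⟩
  have hBcard : (B.card : ℝ) ≤ (H : ℝ) ^ ((q : ℝ) + 3 - η) := by
    refine le_trans ?_ hQ
    rw [hB]
    exact_mod_cast Finset.card_image_le
  obtain ⟨_, _, _, _, c5⟩ := hcon T hTR
  obtain ⟨_, c2, _, _, _⟩ := hcon T hTR
  have hmB : ∫ t in EJ M (B : Set ℤ), ph (q + 1) t ≤ (2 * C1 + 2 * C2) * w := by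
    refine (mass_few (q := q) hM1 hT1 B).trans ?_
    have h1 : (B.card : ℝ) * (Ph (q + 1) T * (1 / M)) ≤ 2 * C1 * w := by
      have hTp : (T : ℝ) ^ (2 * q + 4) ≤ (H : ℝ) ^ (θ / 2) := by
        calc (T : ℝ) ^ (2 * q + 4) ≤ ((H : ℝ) ^ κ) ^ (2 * q + 4) := pow_le_pow_left₀ hTpos.le hTle _
          _ = (H : ℝ) ^ (κ * (2 * (q : ℝ) + 4)) := by
              rw [← Real.rpow_natCast, ← Real.rpow_mul hHpos.le]
              push_cast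
              rfl
          _ = _ := by rw [hκ5]
      have h2 : Ph (q + 1) T ≤ C1 * (H : ℝ) ^ (θ / 2) :=
        c2.trans (mul_le_mul_of_nonneg_left hTp (by linarith))
      have h3 : 1 / (M : ℝ) ≤ 2 * (H : ℝ) ^ (-((q : ℝ) + 3 - θ)) := by
        rw [Real.rpow_neg hHpos.le, div_le_iff₀ hM0]
        have h4 : (0 : ℝ) < (H : ℝ) ^ ((q : ℝ) + 3 - θ) := by positivity
        calc (1 : ℝ) = ((H : ℝ) ^ ((q : ℝ) + 3 - θ))⁻¹ * (H : ℝ) ^ ((q : ℝ) + 3 - θ) :=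
              (inv_mul_cancel₀ h4.ne').symm
          _ ≤ ((H : ℝ) ^ ((q : ℝ) + 3 - θ))⁻¹ * (2 * M) := mul_le_mul_of_nonneg_left hMge (by positivity)
          _ = _ := by ring
      have hPh : 0 ≤ Ph (q + 1) T := by unfold Ph; positivity
      calc (B.card : ℝ) * (Ph (q + 1) T * (1 / M)) ≤ (H : ℝ) ^ ((q : ℝ) + 3 - η) *
            ((C1 * (H : ℝ) ^ (θ / 2)) * (2 * (H : ℝ) ^ (-((q : ℝ) + 3 - θ)))) := by
            refine mul_le_mul hBcard (mul_le_mul h2 h3 (by positivity) (by positivity)) (by positivity)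
              (by positivity)
        _ = 2 * C1 * ((H : ℝ) ^ ((q : ℝ) + 3 - η) * (H : ℝ) ^ (θ / 2) * (H : ℝ) ^ (-((q : ℝ) + 3 - θ))) := by
            ring
        _ = 2 * C1 * (H : ℝ) ^ (((q : ℝ) + 3 - η) + θ / 2 + (-((q : ℝ) + 3 - θ))) := by
            rw [← Real.rpow_add hHpos, ← Real.rpow_add hHpos]
        _ ≤ 2 * C1 * w := by
            rw [hw]
            refine mul_le_mul_of_nonneg_left ?_ (by linarith)
            exact Real.rpow_le_rpow_of_exponent_le hHR (by linarith)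
    have h2 : I0 q - ∫ t in (-(T : ℝ))..T, ph (q + 1) t ≤ 2 * C2 * w := by
      refine (hphi T hT1).trans ?_
      calc C2 / (T : ℝ) = C2 * (1 / T) := by ring
        _ ≤ C2 * (2 * w) := mul_le_mul_of_nonneg_left hTinv hC2
        _ = _ := by ring
    linarith
  -- the good cells in `V`
  obtain ⟨J, hJ⟩ : ∃ J : Set ℤ, J = {u : ℤ | u ∉ B ∧ ∀ t : ℝ, ⌊(M : ℝ) * t⌋ = u → t ∈ V} := ⟨_, rfl⟩
  have hmemJ : ∀ x : ℝ, x ∈ V → ⌊(M : ℝ) * x⌋ ∉ B → ⌊(M : ℝ) * x⌋ ∈ J := by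
    intro x hx hxB
    rw [hJ]
    refine ⟨hxB, fun t ht => ?_⟩
    have hno : ∀ x' y' : ℝ, ⌊(M : ℝ) * x'⌋ = ⌊(M : ℝ) * x⌋ → ⌊(M : ℝ) * y'⌋ = ⌊(M : ℝ) * x⌋ →
        ∀ z ∈ Q, z ∉ Icc x' y' := by
      intro x' y' hx' hy' z hz hzI
      apply hxB
      rw [hB, Finset.mem_image]
      refine ⟨z, hz, ?_⟩
      have h1 : ⌊(M : ℝ) * x'⌋ ≤ ⌊(M : ℝ) * z⌋ := Int.floor_le_floor (mul_le_mul_of_nonneg_left hzI.1 hM0.le)
      have h2 : ⌊(M : ℝ) * z⌋ ≤ ⌊(M : ℝ) * y'⌋ := Int.floor_le_floor (mul_le_mul_of_nonneg_left hzI.2 hM0.le)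
      rw [hx'] at h1
      rw [hy'] at h2
      exact le_antisymm h2 h1
    rcases lt_trichotomy t x with h | h | h
    · exact (hV t x h (hno t x ht rfl)).2 hx
    · rw [h]; exact hx
    · exact (hV x t h (hno x t rfl ht)).1 hx
  have hJsub : ∀ x : ℝ, ⌊(M : ℝ) * x⌋ ∈ J → x ∈ V := by
    intro x hx
    rw [hJ] at hx
    exact hx.2 x rfl
  have hlJ := (hlaw H g3 M hM1 hMle J s hs).2
  obtain ⟨hpos, hlB⟩ := hlaw H g3 M hM1 hMle (B : Set ℤ) s hs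
  refine ⟨hpos, ?_⟩
  have hNpos : (0 : ℝ) < s.card := by exact_mod_cast hpos
  have ha1 : (cn s (fun x => ⌊(M : ℝ) * x⌋ ∈ J) : ℝ) ≤ (cn s (fun x => x ∈ V) : ℝ) := by
    exact_mod_cast cn_mono hJsub
  have ha2 : (cn s (fun x => x ∈ V) : ℝ) ≤ (cn s (fun x => ⌊(M : ℝ) * x⌋ ∈ J) : ℝ) +
      (cn s (fun x => ⌊(M : ℝ) * x⌋ ∈ (B : Set ℤ)) : ℝ) := by
    have : ∀ x : ℝ, x ∈ V → ⌊(M : ℝ) * x⌋ ∈ J ∨ ⌊(M : ℝ) * x⌋ ∈ (B : Set ℤ) := by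
      intro x hx
      by_cases h : ⌊(M : ℝ) * x⌋ ∈ B
      · exact Or.inr (Finset.mem_coe.2 h)
      · exact Or.inl (hmemJ x hx h)
    exact_mod_cast cn_or_le this
  have hint := phi_int q
  have hm1 : ∫ t in EJ M J, ph (q + 1) t ≤ ∫ t in V, ph (q + 1) t :=
    setIntegral_mono_set hint.integrableOn (Filter.Eventually.of_forall fun t => ph_nonneg t)
      (Filter.Eventually.of_forall fun t ht => hJsub t ht)
  have hm2 : ∫ t in V, ph (q + 1) t ≤ (∫ t in EJ M J, ph (q + 1) t) + ∫ t in EJ M (B : Set ℤ), ph (q + 1) t := by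
    have h1 : ∫ t in V, ph (q + 1) t ≤ ∫ t in EJ M J ∪ EJ M (B : Set ℤ), ph (q + 1) t := by
      refine setIntegral_mono_set hint.integrableOn (Filter.Eventually.of_forall fun t => ph_nonneg t)
        (Filter.Eventually.of_forall fun t ht => ?_)
      by_cases h : ⌊(M : ℝ) * t⌋ ∈ B
      · exact Or.inr (Finset.mem_coe.2 h)
      · exact Or.inl (hmemJ t ht h)
    refine h1.trans (le_of_eq ?_)
    refine setIntegral_union ?_ (EJ_meas M _) hint.integrableOn hint.integrableOn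
    refine Set.disjoint_left.2 fun t ht ht' => ?_
    have h2 : ⌊(M : ℝ) * t⌋ ∈ J := ht
    rw [hJ] at h2
    exact h2.1 (Finset.mem_coe.1 ht')
  obtain ⟨I, hI'⟩ : ∃ I : ℝ, I = I0 q := ⟨_, rfl⟩
  rw [← hI'] at hlJ hlB hI ⊢
  rw [← hI'] at hC3
  obtain ⟨mV, hmV⟩ : ∃ mV : ℝ, mV = ∫ t in V, ph (q + 1) t := ⟨_, rfl⟩
  obtain ⟨mJ, hmJ⟩ : ∃ mJ : ℝ, mJ = ∫ t in EJ M J, ph (q + 1) t := ⟨_, rfl⟩
  obtain ⟨mB, hmB'⟩ : ∃ mB : ℝ, mB = ∫ t in EJ M (B : Set ℤ), ph (q + 1) t := ⟨_, rfl⟩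
  rw [← hmV, ← hmJ] at hm1
  rw [← hmV, ← hmJ, ← hmB'] at hm2
  rw [← hmJ] at hlJ
  rw [← hmB'] at hlB hmB
  rw [← hmV]
  have hδ : (H : ℝ) ^ (-c1) ≤ w := by
    rw [hw]
    exact Real.rpow_le_rpow_of_exponent_le hHR (by linarith)
  have hmB0 : 0 ≤ mB := by rw [hmB']; exact mass_nonneg q M _
  have d1 : mB / I ≤ (2 * C1 + 2 * C2) / I * w := by
    rw [div_mul_eq_mul_div]
    exact div_le_div_of_nonneg_right hmB hI.le
  have d2 : mJ / I ≤ mV / I := div_le_div_of_nonneg_right hm1 hI.le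
  have d3 : mV / I ≤ mJ / I + mB / I := by
    rw [← add_div]
    exact div_le_div_of_nonneg_right hm2 hI.le
  have d4 : (cn s (fun x => ⌊(M : ℝ) * x⌋ ∈ J) : ℝ) / s.card ≤ (cn s (fun x => x ∈ V) : ℝ) / s.card :=
    div_le_div_of_nonneg_right ha1 hNpos.le
  have d5 : (cn s (fun x => x ∈ V) : ℝ) / s.card ≤ (cn s (fun x => ⌊(M : ℝ) * x⌋ ∈ J) : ℝ) / s.card +
      (cn s (fun x => ⌊(M : ℝ) * x⌋ ∈ (B : Set ℤ)) : ℝ) / s.card := by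
    rw [← add_div]
    exact div_le_div_of_nonneg_right ha2 hNpos.le
  have hfin : C3 * w ≤ (H : ℝ) ^ (-(ρ / 2)) := by
    calc C3 * w ≤ (H : ℝ) ^ (ρ / 2) * w := mul_le_mul_of_nonneg_right g1 hw0.le
      _ = _ := by
          rw [hw, ← Real.rpow_add hHpos]
          congr 1
          ring
  have hC3w : C3 * w = 2 * w + (2 * C1 + 2 * C2) / I * w := by rw [hC3]; ring
  rw [abs_le] at hlJ hlB ⊢
  constructor <;> linarith [hlJ.1, hlJ.2, hlB.1, hlB.2]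

end Pool.Agent.W5h30.LL
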