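import Mathlib
import Pool.Agent.W5h30.LL.Sets

/-!
# Periodic sets and Lipschitz densities (helper30)
-/

set_option autoImplicit false

namespace Pool.Agent.W5h30.LL

open MeasureTheory Set Polynomial Filter

/-- the set of the `y` for which the integer part of `K {m y}` is in `E` -/
def SE (m K : ℕ) (E : Finset ℕ) : Set ℝ := EJ (m * K) {u : ℤ | (u % K).toNat ∈ E}

lemma SE_meas (m K : ℕ) (E : Finset ℕ) : MeasurableSet (SE m K E) := EJ_meas _ _

/-- the cell number `i` -/
def Ci (m : ℕ) (i : ℤ) : Set ℝ := Ico ((i : ℝ) / m) ((i : ℝ) / m + 1 / m)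

lemma mem_Ci {m : ℕ} (hm : 1 ≤ m) (x : ℝ) (i : ℤ) : x ∈ Ci m i ↔ ⌊(m : ℝ) * x⌋ = i :=
  (mem_cell hm x i).symm

lemma Ci_vol {m : ℕ} (hm : 1 ≤ m) (i : ℤ) : volume.real (Ci m i) = 1 / m := by
  have hm0 : (0 : ℝ) < m := by exact_mod_cast hm
  unfold Ci
  rw [Real.volume_real_Ico, add_sub_cancel_left, max_eq_left (by positivity)]

lemma Ci_meas (m : ℕ) (i : ℤ) : MeasurableSet (Ci m i) := measurableSet_Ico

lemma Ci_fin (m : ℕ) (i : ℤ) : volume (Ci m i) ≠ ⊤ := by
  unfold Ci
  rw [Real.volume_Ico]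
  exact ENNReal.ofReal_ne_top

lemma SE_cell {m K : ℕ} (hm : 1 ≤ m) (hK : 1 ≤ K) (E : Finset ℕ) (hE : ∀ e ∈ E, e < K) (i : ℤ) :
    Ci m i ∩ SE m K E = ⋃ e ∈ E, Ci (m * K) (i * K + e) := by
  have hK0 : (0 : ℤ) < K := by exact_mod_cast hK
  have hmK : 1 ≤ m * K := Nat.mul_pos hm hK
  ext t
  rw [mem_inter_iff, mem_Ci hm, mem_iUnion₂]
  have href : ⌊(m : ℝ) * t⌋ = ⌊((m * K : ℕ) : ℝ) * t⌋ / (K : ℤ) := floor_refine hK t
  constructor
  · rintro ⟨h1, h2⟩
    have h3 : (⌊((m * K : ℕ) : ℝ) * t⌋ % (K : ℤ)).toNat ∈ E := h2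
    refine ⟨_, h3, ?_⟩
    rw [mem_Ci hmK, Int.toNat_of_nonneg (Int.emod_nonneg _ hK0.ne')]
    have h4 := Int.mul_ediv_add_emod ⌊((m * K : ℕ) : ℝ) * t⌋ K
    rw [← href, h1] at h4
    linarith
  · rintro ⟨e, he, h1⟩
    rw [mem_Ci hmK] at h1
    have h1' : (e : ℤ) < K := by exact_mod_cast hE e he
    have h0' : (0 : ℤ) ≤ e := by positivity
    have h2 : (i * K + (e : ℤ)) % K = e := by
      rw [add_comm, Int.add_mul_emod_self_right]
      exact Int.emod_eq_of_lt h0' h1'
    have h3 : (i * K + (e : ℤ)) / K = i := by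
      rw [add_comm, Int.add_mul_ediv_right _ _ hK0.ne', Int.ediv_eq_zero_of_lt h0' h1', zero_add]
    refine ⟨by rw [href, h1, h3], ?_⟩
    show (⌊((m * K : ℕ) : ℝ) * t⌋ % (K : ℤ)).toNat ∈ E
    rw [h1, h2, Int.toNat_natCast]
    exact he

lemma SE_vol {m K : ℕ} (hm : 1 ≤ m) (hK : 1 ≤ K) (E : Finset ℕ) (hE : ∀ e ∈ E, e < K) (i : ℤ) :
    volume.real (Ci m i ∩ SE m K E) = (E.card : ℝ) / K * (1 / m) := by
  have hm0 : (0 : ℝ) < m := by exact_mod_cast hm
  have hK0 : (0 : ℝ) < K := by exact_mod_cast hK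
  have hmK : 1 ≤ m * K := Nat.mul_pos hm hK
  have hd : ((E : Finset ℕ) : Set ℕ).PairwiseDisjoint fun e : ℕ => Ci (m * K) (i * K + e) := by
    intro e _ e' _ hne
    refine Set.disjoint_left.2 fun t ht ht' => hne ?_
    rw [mem_Ci hmK] at ht ht'
    rw [ht] at ht'
    have : (e : ℤ) = e' := by linarith
    exact_mod_cast this
  rw [SE_cell hm hK E hE i, measureReal_biUnion_finset hd (fun e _ => Ci_meas _ _) (fun e _ => Ci_fin _ _),
    Finset.sum_congr rfl fun (e : ℕ) _ => Ci_vol hmK (i * K + (e : ℤ)), Finset.sum_const, nsmul_eq_mul]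
  push_cast
  field_simp

/-- one cell -/
lemma per_cell {H : ℝ → ℝ} (hH : Integrable H) {m K : ℕ} (hm : 1 ≤ m) (hK : 1 ≤ K) (E : Finset ℕ)
    (hE : ∀ e ∈ E, e < K) (i : ℤ) {v ω : ℝ} (hv : ∀ y ∈ Ci m i, |H y - v| ≤ ω) :
    |(∫ y in Ci m i ∩ SE m K E, H y) - (E.card : ℝ) / K * ∫ y in Ci m i, H y| ≤ 2 * ω * (1 / m) := by
  have hm0 : (0 : ℝ) < m := by exact_mod_cast hm
  have hK0 : (0 : ℝ) < K := by exact_mod_cast hK
  have hcardE : (E.card : ℝ) ≤ K := by
    have h1 : E ⊆ Finset.range K := fun e he => Finset.mem_range.2 (hE e he)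
    have h2 := Finset.card_le_card h1
    rw [Finset.card_range] at h2
    exact_mod_cast h2
  have he1 : (E.card : ℝ) / K ≤ 1 := by rwa [div_le_one hK0]
  have he0 : 0 ≤ (E.card : ℝ) / K := by positivity
  have hCm : MeasurableSet (Ci m i) := measurableSet_Ico
  have hCf : volume (Ci m i) ≠ ⊤ := by
    unfold Ci
    rw [Real.volume_Ico]
    exact ENNReal.ofReal_ne_top
  have hSf : volume (Ci m i ∩ SE m K E) ≠ ⊤ := ne_top_of_le_ne_top hCf (measure_mono inter_subset_left)
  have hne : (Ci m i).Nonempty := by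
    unfold Ci
    rw [nonempty_Ico]
    have : (0 : ℝ) < 1 / m := by positivity
    linarith
  have hω : 0 ≤ ω := by
    obtain ⟨y, hy⟩ := hne
    exact (abs_nonneg _).trans (hv y hy)
  have e1 : ∫ y in Ci m i ∩ SE m K E, H y = (∫ y in Ci m i ∩ SE m K E, (H y - v)) +
      v * ((E.card : ℝ) / K * (1 / m)) := by
    rw [integral_sub hH.integrableOn (integrableOn_const hSf), setIntegral_const, smul_eq_mul,
      SE_vol hm hK E hE i]
    ring
  have e2 : ∫ y in Ci m i, H y = (∫ y in Ci m i, (H y - v)) + v * (1 / m) := by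
    rw [integral_sub hH.integrableOn (integrableOn_const hCf), setIntegral_const, smul_eq_mul, Ci_vol hm i]
    ring
  have b1 : |∫ y in Ci m i ∩ SE m K E, (H y - v)| ≤ ω * (1 / m) := by
    have h1 := norm_setIntegral_le_of_norm_le_const (μ := volume) (s := Ci m i ∩ SE m K E)
      (f := fun y => H y - v) (C := ω) (lt_top_iff_ne_top.2 hSf) (fun y hy => hv y hy.1)
    rw [Real.norm_eq_abs, SE_vol hm hK E hE i] at h1
    refine h1.trans (mul_le_mul_of_nonneg_left ?_ hω)
    exact mul_le_of_le_one_left (by positivity) he1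
  have b2 : |∫ y in Ci m i, (H y - v)| ≤ ω * (1 / m) := by
    have h1 := norm_setIntegral_le_of_norm_le_const (μ := volume) (s := Ci m i)
      (f := fun y => H y - v) (C := ω) (lt_top_iff_ne_top.2 hCf) (fun y hy => hv y hy)
    rw [Real.norm_eq_abs, Ci_vol hm i] at h1
    exact h1
  rw [e1, e2]
  have e3 : (∫ y in Ci m i ∩ SE m K E, (H y - v)) + v * ((E.card : ℝ) / K * (1 / m)) -
      (E.card : ℝ) / K * ((∫ y in Ci m i, (H y - v)) + v * (1 / m)) =
      (∫ y in Ci m i ∩ SE m K E, (H y - v)) + -((E.card : ℝ) / K * ∫ y in Ci m i, (H y - v)) := by ring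
  rw [e3]
  refine (abs_add_le _ _).trans ?_
  rw [abs_neg, abs_mul, abs_of_nonneg he0]
  have h3 : (E.card : ℝ) / K * |∫ y in Ci m i, (H y - v)| ≤ ω * (1 / m) :=
    (mul_le_of_le_one_left (abs_nonneg _) he1).trans b2
  linarith

/-- **periodic sets have their share of a Lipschitz density** -/
theorem per_lip {h : ℝ → ℝ} {α β L B : ℝ} (hαβ : α ≤ β) (hL : 0 ≤ L) (hB0 : 0 ≤ B)
    (hB : ∀ y ∈ Icc α β, |h y| ≤ B)
    (hLip : ∀ x ∈ Icc α β, ∀ y ∈ Icc α β, |h x - h y| ≤ L * |x - y|)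
    (hcont : ContinuousOn h (Icc α β)) {m K : ℕ} (hm : 1 ≤ m) (hK : 1 ≤ K) (E : Finset ℕ)
    (hE : ∀ e ∈ E, e < K) :
    |(∫ y in Icc α β ∩ SE m K E, h y) - (E.card : ℝ) / K * ∫ y in Icc α β, h y| ≤
      (2 * L * (β - α) + 4 * B) / m := by
  classical
  have hm0 : (0 : ℝ) < m := by exact_mod_cast hm
  have h1m : (0 : ℝ) < 1 / m := by positivity
  set H : ℝ → ℝ := (Icc α β).indicator h with hHdef
  have hint : Integrable H := (hcont.integrableOn_Icc).integrable_indicator measurableSet_Icc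
  set a : ℤ := ⌊(m : ℝ) * α⌋ with ha
  set b : ℤ := ⌊(m : ℝ) * β⌋ with hb
  have hab : a ≤ b := Int.floor_le_floor (mul_le_mul_of_nonneg_left hαβ hm0.le)
  have hcover : ∀ y, y ∈ Icc α β → ⌊(m : ℝ) * y⌋ ∈ Finset.Icc a b := by
    intro y hy
    rw [Finset.mem_Icc]
    exact ⟨Int.floor_le_floor (mul_le_mul_of_nonneg_left hy.1 hm0.le),
      Int.floor_le_floor (mul_le_mul_of_nonneg_left hy.2 hm0.le)⟩
  -- sums over the cells
  have hdisj : ∀ S : Set ℝ, ((Finset.Icc a b : Finset ℤ) : Set ℤ).Pairwise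
      (Function.onFun Disjoint fun i => Ci m i ∩ S) := by
    intro S i _ j _ hij
    refine Set.disjoint_left.2 fun t ht ht' => hij ?_
    have h1 := (mem_Ci hm t i).1 ht.1
    have h2 := (mem_Ci hm t j).1 ht'.1
    rw [← h1, ← h2]
  have hsum : ∀ S : Set ℝ, MeasurableSet S → ∫ y in Icc α β ∩ S, h y =
      ∑ i ∈ Finset.Icc a b, ∫ y in Ci m i ∩ S, H y := by
    intro S hS
    rw [← integral_biUnion_finset (Finset.Icc a b) (fun i _ => (Ci_meas m i).inter hS) (hdisj S)
      (fun i _ => hint.integrableOn)]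
    have h1 : ∫ y in Icc α β ∩ S, h y = ∫ y in S, H y := by
      rw [hHdef, setIntegral_indicator measurableSet_Icc, inter_comm]
    rw [h1]
    have h2 : ∫ y in S, H y = ∫ y in (⋃ i ∈ Finset.Icc a b, Ci m i ∩ S), H y := by
      refine setIntegral_eq_of_subset_of_forall_sdiff_eq_zero hS ?_ ?_
      · intro y hy
        rw [mem_iUnion₂] at hy
        obtain ⟨i, _, hy2⟩ := hy
        exact hy2.2
      · intro y hy
        rw [hHdef]
        refine indicator_of_notMem (fun hyI => hy.2 ?_) _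
        rw [mem_iUnion₂]
        exact ⟨_, hcover y hyI, (mem_Ci hm y _).2 rfl, hy.1⟩
    exact h2
  have e1 := hsum (SE m K E) (SE_meas m K E)
  have e2 := hsum univ MeasurableSet.univ
  simp only [inter_univ] at e2
  rw [e1, e2, Finset.mul_sum, ← Finset.sum_sub_distrib]
  refine (Finset.abs_sum_le_sum_abs _ _).trans ?_
  have hcell : ∀ i ∈ Finset.Icc a b,
      |(∫ y in Ci m i ∩ SE m K E, H y) - (E.card : ℝ) / K * ∫ y in Ci m i, H y| ≤
        if i ∈ Finset.Ioo a b then 2 * (L * (1 / m)) * (1 / m) else 2 * B * (1 / m) := by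
    intro i _
    split_ifs with hi
    · rw [Finset.mem_Ioo] at hi
      have hin : ∀ y ∈ Ci m i, y ∈ Icc α β := by
        intro y hy
        rw [mem_Ci hm] at hy
        constructor
        · by_contra hcon
          push Not at hcon
          have := Int.floor_le_floor (mul_le_mul_of_nonneg_left hcon.le hm0.le)
          rw [hy] at this
          exact absurd hi.1 (not_lt.2 this)
        · by_contra hcon
          push Not at hcon
          have := Int.floor_le_floor (mul_le_mul_of_nonneg_left hcon.le hm0.le)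
          rw [hy] at this
          exact absurd hi.2 (not_lt.2 this)
      have hi0 : (i : ℝ) / m ∈ Ci m i := ⟨le_rfl, by linarith⟩
      refine per_cell hint hm hK E hE i (v := h ((i : ℝ) / m)) fun y hy => ?_
      rw [hHdef, indicator_of_mem (hin y hy)]
      refine (hLip y (hin y hy) _ (hin _ hi0)).trans (mul_le_mul_of_nonneg_left ?_ hL)
      rw [abs_le]
      constructor <;> linarith [hy.1, hy.2]
    · refine per_cell hint hm hK E hE i (v := 0) fun y _ => ?_
      rw [sub_zero, hHdef]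
      by_cases hy : y ∈ Icc α β
      · rw [indicator_of_mem hy]
        exact hB y hy
      · rw [indicator_of_notMem hy, abs_zero]
        exact hB0
  refine (Finset.sum_le_sum hcell).trans ?_
  rw [Finset.sum_ite, Finset.sum_const, Finset.sum_const, nsmul_eq_mul, nsmul_eq_mul]
  have hc1 : ((((Finset.Icc a b).filter (fun i => i ∈ Finset.Ioo a b)).card : ℕ) : ℝ) ≤ m * (β - α) := by
    have h1 : (Finset.Icc a b).filter (fun i => i ∈ Finset.Ioo a b) ⊆ Finset.Ioo a b := by
      intro i hi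
      exact (Finset.mem_filter.1 hi).2
    have h2 := Finset.card_le_card h1
    rw [Int.card_Ioo] at h2
    have h3 : ((((Finset.Icc a b).filter (fun i => i ∈ Finset.Ioo a b)).card : ℕ) : ℝ) ≤
        (((b - a - 1).toNat : ℕ) : ℝ) := by exact_mod_cast h2
    refine h3.trans ?_
    rcases le_or_gt 0 (b - a - 1) with h | h
    · have h4 : (((b - a - 1).toNat : ℕ) : ℝ) = ((b - a - 1 : ℤ) : ℝ) := by
        have : (((b - a - 1).toNat : ℕ) : ℤ) = b - a - 1 := Int.toNat_of_nonneg h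
        exact_mod_cast congrArg (fun z : ℤ => (z : ℝ)) this
      rw [h4]
      push_cast
      have h5 : (b : ℝ) ≤ m * β := Int.floor_le _
      have h6 : (m : ℝ) * α < a + 1 := Int.lt_floor_add_one _
      linarith
    · rw [Int.toNat_of_nonpos h.le]
      push_cast
      exact mul_nonneg hm0.le (by linarith)
  have hc2 : ((((Finset.Icc a b).filter (fun i => ¬ i ∈ Finset.Ioo a b)).card : ℕ) : ℝ) ≤ 2 := by
    have h1 : (Finset.Icc a b).filter (fun i => ¬ i ∈ Finset.Ioo a b) ⊆ {a, b} := by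
      intro i hi
      rw [Finset.mem_filter, Finset.mem_Icc, Finset.mem_Ioo] at hi
      rw [Finset.mem_insert, Finset.mem_singleton]
      omega
    have h2 := (Finset.card_le_card h1).trans Finset.card_le_two
    exact_mod_cast h2
  have e5 : (2 * L * (β - α) + 4 * B) / m = (m * (β - α)) * (2 * (L * (1 / m)) * (1 / m)) +
      2 * (2 * B * (1 / m)) := by
    field_simp
    ring
  rw [e5]
  exact add_le_add (mul_le_mul_of_nonneg_right hc1 (by positivity))
    (mul_le_mul_of_nonneg_right hc2 (by positivity))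

end Pool.Agent.W5h30.LL
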