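import Mathlib
import Pool.Agent.W5h30.LL.Per

/-!
# The density is positive (helper30)
-/

set_option autoImplicit false

namespace Pool.Agent.W5h30.LL

open MeasureTheory Set Polynomial Filter

variable {n : ℕ}

lemma ph_pos (t : ℝ) : 0 < ph n t := by
  unfold ph
  rw [integral_pos_iff_support_of_nonneg (fun a => G_nonneg 1 t a) (G_int zero_le_one)]
  obtain ⟨δ, hδ0, hδ1, hδt⟩ : ∃ δ : ℝ, 0 < δ ∧ δ < 1 ∧ |δ * t| < 1 := by
    refine ⟨1 / (2 + |t|), by positivity, ?_, ?_⟩
    · rw [div_lt_one (by positivity)]
      linarith [abs_nonneg t]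
    · rw [abs_mul, abs_of_pos (by positivity : (0 : ℝ) < 1 / (2 + |t|)), div_mul_eq_mul_div, one_mul,
        div_lt_one (by positivity)]
      linarith [abs_nonneg t]
  set U : Set (Fin (n + 1) → ℝ) := {a | (∀ i, |a i| < 1) ∧ |fa a t| < 1 ∧ ga a t ≠ 0} with hU
  have hopen : IsOpen U := by
    have h1 : IsOpen {a : Fin (n + 1) → ℝ | ∀ i, |a i| < 1} := by
      have : {a : Fin (n + 1) → ℝ | ∀ i, |a i| < 1} = ⋂ i, {a : Fin (n + 1) → ℝ | |a i| < 1} := by
        ext a
        simp
      rw [this]
      exact isOpen_iInter_of_finite fun i => isOpen_lt (continuous_apply i).abs continuous_const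
    have h2 : IsOpen {a : Fin (n + 1) → ℝ | |fa a t| < 1} := isOpen_lt (fa_cont_a t).abs continuous_const
    have h3 : IsOpen {a : Fin (n + 1) → ℝ | ga a t ≠ 0} := isOpen_ne_fun (ga_cont_a t) continuous_const
    exact (h1.inter (h2.inter h3))
  have hne : U.Nonempty := by
    refine ⟨fun i => if i = 0 then δ else 0, ?_, ?_, ?_⟩
    · intro i
      show |if i = 0 then δ else 0| < 1
      split_ifs
      · rw [abs_of_pos hδ0]; exact hδ1
      · simp
    · have : fa (fun i : Fin (n + 1) => if i = 0 then δ else 0) t = δ * t := by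
        unfold fa
        rw [Finset.sum_eq_single 0]
        · simp
        · intro b _ hb
          simp [hb]
        · simp
      rw [this]
      exact hδt
    · have : ga (fun i : Fin (n + 1) => if i = 0 then δ else 0) t = δ := by
        unfold ga
        rw [Finset.sum_eq_single 0]
        · simp
        · intro b _ hb
          simp [hb]
        · simp
      rw [this]
      exact hδ0.ne'
  refine lt_of_lt_of_le (hopen.measure_pos volume hne) (measure_mono ?_)
  intro a ha
  rw [Function.mem_support]
  unfold G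
  rw [if_pos ⟨fun i => (ha.1 i).le, ha.2.1.le⟩]
  exact abs_ne_zero.2 ha.2.2

lemma mass_pos {q : ℕ} {a b : ℝ} (hab : a < b) : 0 < ∫ t in Icc a b, ph (q + 1) t := by
  rw [integral_Icc_eq_integral_Ioc, ← intervalIntegral.integral_of_le hab.le]
  exact intervalIntegral.intervalIntegral_pos_of_pos_on (ph_cont.intervalIntegrable _ _)
    (fun x _ => ph_pos x) hab

end Pool.Agent.W5h30.LL
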