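import Mathlib
import Pool.Agent.W5h30.LL.Pos

/-!
# The digits of the values of a function at random algebraic numbers (helper30)
-/

set_option autoImplicit false

namespace Pool.Agent.W5h30.LL

open MeasureTheory Set Polynomial Filter
open Pool.Agent.Y933.KG

/-- a function with a Lipschitz derivative without zeros on `[a, b]` -/
structure Nice (f F : ℝ → ℝ) (a b lam L : ℝ) : Prop where
  hab : a < b
  deriv : ∀ t ∈ Icc a b, HasDerivWithinAt f (F t) (Icc a b) t
  lam_pos : 0 < lam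
  lower : ∀ t ∈ Icc a b, lam ≤ |F t|
  L_nonneg : 0 ≤ L
  lip : ∀ s ∈ Icc a b, ∀ t ∈ Icc a b, |F s - F t| ≤ L * |s - t|

variable {f F : ℝ → ℝ} {a b lam L : ℝ}

lemma Nice.cont (h : Nice f F a b lam L) : ContinuousOn f (Icc a b) :=
  fun t ht => (h.deriv t ht).continuousWithinAt

lemma Nice.expand (h : Nice f F a b lam L) {s t : ℝ} (hs : s ∈ Icc a b) (ht : t ∈ Icc a b) :
    lam * |s - t| ≤ |f s - f t| := by
  have key : ∀ s t : ℝ, s ∈ Icc a b → t ∈ Icc a b → s < t → lam * |s - t| ≤ |f s - f t| := by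
    intro s t hs ht hst
    have hsub : Icc s t ⊆ Icc a b := Icc_subset_Icc hs.1 ht.2
    obtain ⟨c, hc, hslope⟩ := exists_hasDerivAt_eq_slope f F hst (h.cont.mono hsub) (by
      intro x hx
      have hx' : x ∈ Icc a b := hsub (Ioo_subset_Icc_self hx)
      exact (h.deriv x hx').hasDerivAt (Icc_mem_nhds (hs.1.trans_lt hx.1) (hx.2.trans_le ht.2)))
    have h1 : f t - f s = F c * (t - s) := by
      rw [hslope]
      have : t - s ≠ 0 := by linarith
      field_simp
    have h2 : |f s - f t| = |F c| * |s - t| := by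
      rw [abs_sub_comm (f s), h1, abs_mul, abs_sub_comm t]
    rw [h2]
    exact mul_le_mul_of_nonneg_right (h.lower c (hsub (Ioo_subset_Icc_self hc))) (abs_nonneg _)
  rcases lt_trichotomy s t with h1 | h1 | h1
  · exact key s t hs ht h1
  · rw [h1]; simp
  · rw [abs_sub_comm s, abs_sub_comm (f s)]
    exact key t s ht hs h1

lemma Nice.inj (h : Nice f F a b lam L) : InjOn f (Icc a b) := by
  intro s hs t ht hst
  have h1 := h.expand hs ht
  rw [hst, sub_self, abs_zero] at h1
  have h2 : |s - t| ≤ 0 := by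
    by_contra hcon
    push Not at hcon
    have := mul_pos h.lam_pos hcon
    linarith
  exact sub_eq_zero.1 (abs_eq_zero.1 (le_antisymm h2 (abs_nonneg _)))

/-- the inverse function -/
noncomputable def inv (f : ℝ → ℝ) (a b : ℝ) : ℝ → ℝ := Function.invFunOn f (Icc a b)

lemma Nice.inv_f (h : Nice f F a b lam L) {t : ℝ} (ht : t ∈ Icc a b) : inv f a b (f t) = t :=
  h.inj.leftInvOn_invFunOn ht

lemma inv_mem {y : ℝ} (hy : y ∈ f '' Icc a b) : inv f a b y ∈ Icc a b := by
  unfold inv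
  exact Function.invFunOn_mem hy

lemma f_inv {y : ℝ} (hy : y ∈ f '' Icc a b) : f (inv f a b y) = y := by
  unfold inv
  exact Function.invFunOn_eq hy

lemma Nice.image (h : Nice f F a b lam L) : ∃ α β : ℝ, α ≤ β ∧ f '' Icc a b = Icc α β := by
  have h1 := h.cont.image_Icc h.hab.le
  refine ⟨_, _, ?_, h1⟩
  have h2 : (f '' Icc a b).Nonempty := ⟨f a, a, ⟨le_rfl, h.hab.le⟩, rfl⟩
  rw [h1, nonempty_Icc] at h2
  exact h2

lemma Nice.inv_lip (h : Nice f F a b lam L) {y z : ℝ} (hy : y ∈ f '' Icc a b) (hz : z ∈ f '' Icc a b) :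
    |inv f a b y - inv f a b z| ≤ lam⁻¹ * |y - z| := by
  have h1 := h.expand (inv_mem hy) (inv_mem hz)
  rw [f_inv hy, f_inv hz] at h1
  rw [inv_mul_eq_div, le_div_iff₀ h.lam_pos, mul_comm]
  exact h1

/-- the density of `f x` -/
noncomputable def hd (q : ℕ) (f F : ℝ → ℝ) (a b : ℝ) (y : ℝ) : ℝ :=
  ph (q + 1) (inv f a b y) / |F (inv f a b y)|

/-- **the periodic sets have their share of the values** -/
theorem Nice.share (h : Nice f F a b lam L) (q : ℕ) : ∃ C : ℝ, 0 ≤ C ∧ ∀ m K : ℕ, 1 ≤ m → 1 ≤ K →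
    ∀ E : Finset ℕ, (∀ e ∈ E, e < K) →
    |(∫ t in Icc a b ∩ f ⁻¹' SE m K E, ph (q + 1) t) - (E.card : ℝ) / K * ∫ t in Icc a b, ph (q + 1) t| ≤
      C / m := by
  obtain ⟨α, β, hαβ, himg⟩ := h.image
  have hlam := h.lam_pos
  -- bounds for the density
  obtain ⟨T, hT1, hTab⟩ : ∃ T : ℝ, 1 ≤ T ∧ ∀ t ∈ Icc a b, |t| ≤ T := by
    refine ⟨1 + |a| + |b|, by linarith [abs_nonneg a, abs_nonneg b], fun t ht => ?_⟩
    rw [abs_le]
    constructor
    · linarith [ht.1, neg_abs_le a, abs_nonneg b]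
    · linarith [ht.2, le_abs_self b, abs_nonneg a]
  obtain ⟨Φ, hΦ⟩ : ∃ Φ : ℝ, Φ = 2 ^ (q + 1 + 1) * ((((q + 1 : ℕ) : ℝ) + 1) ^ 2 * T ^ (q + 1)) := ⟨_, rfl⟩
  have hΦ0 : 0 ≤ Φ := by rw [hΦ]; positivity
  have hΦle : ∀ t ∈ Icc a b, ph (q + 1) t ≤ Φ := fun t ht => by
    rw [hΦ]; exact ph_le hT1 (hTab t ht)
  have hLc : 0 ≤ Lc (q + 1) T := by unfold Lc; positivity
  set g := inv f a b with hg
  have hgmem : ∀ y ∈ Icc α β, g y ∈ Icc a b := fun y hy => inv_mem (by rw [himg]; exact hy)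
  have hglip : ∀ y ∈ Icc α β, ∀ z ∈ Icc α β, |g y - g z| ≤ lam⁻¹ * |y - z| := fun y hy z hz =>
    h.inv_lip (by rw [himg]; exact hy) (by rw [himg]; exact hz)
  have hFpos : ∀ t ∈ Icc a b, 0 < |F t| := fun t ht => hlam.trans_le (h.lower t ht)
  -- the quotient is Lipschitz in `t`
  obtain ⟨L1, hL1⟩ : ∃ L1 : ℝ, L1 = Lc (q + 1) T / lam + Φ * L / lam ^ 2 := ⟨_, rfl⟩
  have hL10 : 0 ≤ L1 := by rw [hL1]; have := h.L_nonneg; positivity
  have hquot : ∀ s ∈ Icc a b, ∀ t ∈ Icc a b,
      |ph (q + 1) s / |F s| - (ph (q + 1) t / |F t|)| ≤ L1 * |s - t| := by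
    intro s hs t ht
    have hs0 := hFpos s hs
    have ht0 := hFpos t ht
    have e1 : ph (q + 1) s / |F s| - ph (q + 1) t / |F t| =
        (ph (q + 1) s - ph (q + 1) t) / |F s| + ph (q + 1) t * (|F t| - |F s|) / (|F s| * |F t|) := by
      field_simp
      ring
    rw [e1]
    refine (abs_add_le _ _).trans ?_
    rw [abs_div, abs_div, abs_mul, abs_mul, abs_abs, abs_abs, abs_of_nonneg (ph_nonneg t)]
    have b1 : |ph (q + 1) s - ph (q + 1) t| / |F s| ≤ Lc (q + 1) T / lam * |s - t| := by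
      rw [div_mul_eq_mul_div]
      exact div_le_div₀ (by positivity) (ph_lip hT1 (hTab s hs) (hTab t ht)) hlam (h.lower s hs)
    have b2 : ph (q + 1) t * |(|F t| - |F s|)| / (|F s| * |F t|) ≤ Φ * L / lam ^ 2 * |s - t| := by
      rw [div_mul_eq_mul_div]
      have h1 : |(|F t| - |F s|)| ≤ L * |s - t| := by
        refine (abs_abs_sub_abs_le _ _).trans ?_
        rw [abs_sub_comm]
        exact h.lip s hs t ht
      have h2 : lam ^ 2 ≤ |F s| * |F t| := by
        rw [sq]
        exact mul_le_mul (h.lower s hs) (h.lower t ht) hlam.le hs0.le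
      refine div_le_div₀ (by have := h.L_nonneg; positivity) ?_ (by positivity) h2
      rw [mul_assoc]
      exact mul_le_mul (hΦle t ht) h1 (abs_nonneg _) hΦ0
    rw [hL1, add_mul]
    exact add_le_add b1 b2
  have hhB : ∀ y ∈ Icc α β, |hd q f F a b y| ≤ Φ / lam := by
    intro y hy
    have hy' := hgmem y hy
    unfold hd
    rw [← hg, abs_div, abs_abs, abs_of_nonneg (ph_nonneg _)]
    exact div_le_div₀ hΦ0 (hΦle _ hy') hlam (h.lower _ hy')
  have hhL : ∀ y ∈ Icc α β, ∀ z ∈ Icc α β, |hd q f F a b y - hd q f F a b z| ≤ (L1 * lam⁻¹) * |y - z| := by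
    intro y hy z hz
    unfold hd
    rw [← hg]
    refine (hquot _ (hgmem y hy) _ (hgmem z hz)).trans ?_
    rw [mul_assoc]
    exact mul_le_mul_of_nonneg_left (hglip y hy z hz) hL10
  have hhc : ContinuousOn (hd q f F a b) (Icc α β) := by
    have h1 : LipschitzOnWith (Real.toNNReal (L1 * lam⁻¹)) (hd q f F a b) (Icc α β) := by
      refine LipschitzOnWith.of_dist_le_mul fun y hy z hz => ?_
      rw [Real.dist_eq, Real.dist_eq, Real.coe_toNNReal _ (by positivity)]
      exact hhL y hy z hz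
    exact h1.continuousOn
  refine ⟨2 * (L1 * lam⁻¹) * (β - α) + 4 * (Φ / lam), ?_, fun m K hm hK E hE => ?_⟩
  · have : 0 ≤ β - α := by linarith
    positivity
  have hper := per_lip hαβ (by positivity) (by positivity) hhB hhL hhc hm hK E hE
  -- change of variables
  have hcv : ∀ S : Set ℝ, MeasurableSet S →
      ∫ y in Icc α β ∩ S, hd q f F a b y = ∫ t in Icc a b ∩ f ⁻¹' S, ph (q + 1) t := by
    intro S hS
    have hVmeas : MeasurableSet (Icc a b ∩ f ⁻¹' S) := by
      have hc := h.cont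
      rw [continuousOn_iff_continuous_domRestrict] at hc
      have hext : Continuous (IccExtend h.hab.le ((Icc a b).domRestrict f)) := hc.Icc_extend'
      have h1 : Icc a b ∩ f ⁻¹' S = Icc a b ∩ (IccExtend h.hab.le ((Icc a b).domRestrict f)) ⁻¹' S := by
        ext t
        constructor
        · rintro ⟨ht, hf⟩
          refine ⟨ht, ?_⟩
          rw [mem_preimage, IccExtend_of_mem h.hab.le _ ht]
          exact hf
        · rintro ⟨ht, hf⟩
          refine ⟨ht, ?_⟩
          rw [mem_preimage, IccExtend_of_mem h.hab.le _ ht] at hf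
          exact hf
      rw [h1]
      exact measurableSet_Icc.inter (hext.measurable hS)
    have h1 : ∫ y in Icc α β ∩ S, hd q f F a b y = ∫ y in f '' Icc a b, S.indicator (hd q f F a b) y := by
      rw [himg, setIntegral_indicator hS]
    have h2 := integral_image_eq_integral_abs_deriv_smul measurableSet_Icc h.deriv h.inj
      (S.indicator (hd q f F a b))
    rw [h1, h2]
    have h3 : ∫ t in Icc a b ∩ f ⁻¹' S, ph (q + 1) t =
        ∫ t in Icc a b, (Icc a b ∩ f ⁻¹' S).indicator (ph (q + 1)) t := by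
      rw [setIntegral_indicator hVmeas, ← inter_assoc, inter_self]
    rw [h3]
    refine setIntegral_congr_fun measurableSet_Icc fun t ht => ?_
    simp only [smul_eq_mul]
    by_cases hfS : f t ∈ S
    · rw [indicator_of_mem hfS, indicator_of_mem (show t ∈ Icc a b ∩ f ⁻¹' S from ⟨ht, hfS⟩)]
      unfold hd
      rw [h.inv_f ht]
      have := (hFpos t ht).ne'
      field_simp
    · rw [indicator_of_notMem hfS, indicator_of_notMem (show t ∉ Icc a b ∩ f ⁻¹' S from fun hh => hfS hh.2),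
        mul_zero]
  rw [hcv (SE m K E) (SE_meas m K E)] at hper
  have hu := hcv univ MeasurableSet.univ
  rw [inter_univ, preimage_univ, inter_univ] at hu
  rw [hu] at hper
  exact hper

end Pool.Agent.W5h30.LL
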