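import Mathlib
import Pool.Agent.W5h30.LL.Val

/-!
# The digits of the values of a function at random algebraic numbers (helper30)
-/

set_option autoImplicit false

namespace Pool.Agent.W5h30.LL

open MeasureTheory Set Polynomial Filter
open Pool.Agent.Y933.KG

variable {f F : ℝ → ℝ} {a b lam L : ℝ}

/-- the event -/
def Ev (f : ℝ → ℝ) (a b : ℝ) (m K : ℕ) (E : Finset ℕ) : Set ℝ := Icc a b ∩ f ⁻¹' SE m K E

lemma off_Icc (a b : ℝ) : Off {a, b} (Icc a b) := by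
  classical
  intro x y hxy hQ
  have ha : a ∉ Icc x y := hQ a (by simp)
  have hb : b ∉ Icc x y := hQ b (by simp)
  constructor
  · intro hx
    refine ⟨hx.1.trans hxy.le, ?_⟩
    by_contra hcon
    push Not at hcon
    exact hb ⟨hx.2, hcon.le⟩
  · intro hy
    refine ⟨?_, hxy.le.trans hy.2⟩
    by_contra hcon
    push Not at hcon
    exact ha ⟨hcon.le, hy.1⟩

/-- the event has few boundary points -/
lemma Nice.ev_off (h : Nice f F a b lam L) : ∃ C : ℝ, 0 ≤ C ∧ ∀ m K : ℕ, 1 ≤ m → 1 ≤ K → ∀ E : Finset ℕ,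
    ∃ Q : Finset ℝ, (Q.card : ℝ) ≤ C * (m * K : ℕ) ∧ Off Q (Ev f a b m K E) := by
  classical
  obtain ⟨α, β, hαβ, himg⟩ := h.image
  refine ⟨(β - α) + 3, by linarith, fun m K hm hK E => ?_⟩
  have hmK : 1 ≤ m * K := Nat.mul_pos hm hK
  obtain ⟨N, hN⟩ : ∃ N : ℝ, N = ((m * K : ℕ) : ℝ) := ⟨_, rfl⟩
  have hN1 : 1 ≤ N := by rw [hN]; exact_mod_cast hmK
  have hN0 : 0 < N := by linarith
  set Q : Finset ℝ := insert a (insert b ((Finset.Icc ⌈N * α⌉ ⌊N * β⌋).image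
    (fun j : ℤ => inv f a b ((j : ℝ) / N)))) with hQ
  refine ⟨Q, ?_, ?_⟩
  · have h1 : (Q.card : ℝ) ≤ (((Finset.Icc ⌈N * α⌉ ⌊N * β⌋).card : ℕ) : ℝ) + 2 := by
      have h2 : Q.card ≤ (Finset.Icc ⌈N * α⌉ ⌊N * β⌋).card + 1 + 1 := by
        refine (Finset.card_insert_le _ _).trans (Nat.add_le_add_right ?_ 1)
        exact (Finset.card_insert_le _ _).trans (Nat.add_le_add_right Finset.card_image_le 1)
      have h3 : (Q.card : ℝ) ≤ (((Finset.Icc ⌈N * α⌉ ⌊N * β⌋).card + 1 + 1 : ℕ) : ℝ) := by exact_mod_cast h2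
      push_cast at h3
      linarith
    have h2 : (((Finset.Icc ⌈N * α⌉ ⌊N * β⌋).card : ℕ) : ℝ) ≤ N * (β - α) + 1 := by
      rw [Int.card_Icc]
      rcases le_or_gt 0 (⌊N * β⌋ + 1 - ⌈N * α⌉) with h | h
      · have h4 : (((⌊N * β⌋ + 1 - ⌈N * α⌉).toNat : ℕ) : ℝ) = ((⌊N * β⌋ + 1 - ⌈N * α⌉ : ℤ) : ℝ) := by
          have : (((⌊N * β⌋ + 1 - ⌈N * α⌉).toNat : ℕ) : ℤ) = ⌊N * β⌋ + 1 - ⌈N * α⌉ := Int.toNat_of_nonneg h
          exact_mod_cast congrArg (fun z : ℤ => (z : ℝ)) this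
        rw [h4]
        push_cast
        have h5 : (⌊N * β⌋ : ℝ) ≤ N * β := Int.floor_le _
        have h6 : N * α ≤ (⌈N * α⌉ : ℝ) := Int.le_ceil _
        linarith
      · rw [Int.toNat_of_nonpos h.le]
        push_cast
        have : 0 ≤ N * (β - α) := mul_nonneg hN0.le (by linarith)
        linarith
    rw [← hN]
    have h3 : 3 * N + N * (β - α) = ((β - α) + 3) * N := by ring
    rw [← h3]
    linarith
  · intro x y hxy hno
    have haQ : a ∈ Q := by rw [hQ]; simp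
    have hbQ : b ∈ Q := by rw [hQ]; simp
    have hIcc : x ∈ Icc a b ↔ y ∈ Icc a b := by
      refine off_Icc a b x y hxy fun z hz => ?_
      rw [Finset.mem_insert, Finset.mem_singleton] at hz
      rcases hz with rfl | rfl
      · exact hno _ haQ
      · exact hno _ hbQ
    by_cases hx : x ∈ Icc a b
    · have hy := hIcc.1 hx
      have hsub : Icc x y ⊆ Icc a b := Icc_subset_Icc hx.1 hy.2
      -- the integer parts agree
      have hno' : ∀ t ∈ Icc x y, ∀ j : ℤ, N * f t ≠ j := by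
        intro t ht j hj
        have htab := hsub ht
        refine hno t ?_ ht
        rw [hQ, Finset.mem_insert, Finset.mem_insert, Finset.mem_image]
        right; right
        have hft : f t ∈ Icc α β := by rw [← himg]; exact ⟨t, htab, rfl⟩
        refine ⟨j, ?_, ?_⟩
        · rw [Finset.mem_Icc, Int.ceil_le, Int.le_floor, ← hj]
          exact ⟨mul_le_mul_of_nonneg_left hft.1 hN0.le, mul_le_mul_of_nonneg_left hft.2 hN0.le⟩
        · have : (j : ℝ) / N = f t := by rw [← hj]; field_simp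
          rw [this, h.inv_f htab]
      have hivt : ∀ j : ℤ, (j : ℝ) ∉ uIcc (N * f x) (N * f y) := by
        intro j hj
        have hc : ContinuousOn (fun t => N * f t) (uIcc x y) := by
          rw [uIcc_of_le hxy.le]
          exact continuousOn_const.mul (h.cont.mono hsub)
        obtain ⟨t, ht, hft⟩ := intermediate_value_uIcc hc hj
        rw [uIcc_of_le hxy.le] at ht
        exact hno' t ht j hft
      have hfl : ⌊N * f x⌋ = ⌊N * f y⌋ := by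
        rcases lt_trichotomy ⌊N * f x⌋ ⌊N * f y⌋ with h1 | h1 | h1
        · exfalso
          refine hivt ⌊N * f y⌋ (mem_uIcc.2 (Or.inl ⟨?_, Int.floor_le _⟩))
          have h2 : N * f x < ⌊N * f x⌋ + 1 := Int.lt_floor_add_one _
          have h3 : (⌊N * f x⌋ : ℝ) + 1 ≤ ⌊N * f y⌋ := by exact_mod_cast h1
          linarith
        · exact h1
        · exfalso
          refine hivt ⌊N * f x⌋ (mem_uIcc.2 (Or.inr ⟨?_, Int.floor_le _⟩))
          have h2 : N * f y < ⌊N * f y⌋ + 1 := Int.lt_floor_add_one _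
          have h3 : (⌊N * f y⌋ : ℝ) + 1 ≤ ⌊N * f x⌋ := by exact_mod_cast h1
          linarith
      have hSE : f x ∈ SE m K E ↔ f y ∈ SE m K E := by
        show (⌊((m * K : ℕ) : ℝ) * f x⌋ % (K : ℤ)).toNat ∈ E ↔ (⌊((m * K : ℕ) : ℝ) * f y⌋ % (K : ℤ)).toNat ∈ E
        rw [← hN, hfl]
      constructor
      · rintro ⟨_, h2⟩
        exact ⟨hy, hSE.1 h2⟩
      · rintro ⟨_, h2⟩
        exact ⟨hx, hSE.2 h2⟩
    · have hy : y ∉ Icc a b := fun h => hx (hIcc.2 h)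
      constructor
      · rintro ⟨h1, _⟩
        exact absurd h1 hx
      · rintro ⟨h1, _⟩
        exact absurd h1 hy

lemma Nice.law_val1 (h : Nice f F a b lam L) (q : ℕ) (η : ℝ) (hη : 0 < η) (hη1 : η ≤ 1) :
    ∃ c : ℝ, 0 < c ∧ ∃ H0 : ℕ, ∀ H : ℕ, H0 ≤ H → ∀ s : Finset ℝ, (∀ x, x ∈ s ↔ x ∈ Alg (q + 2) H) →
      0 < cn s (fun x => x ∈ Icc a b) ∧ ∀ m K : ℕ, (H : ℝ) ^ η ≤ m → 1 ≤ K →
      (m : ℝ) * K ≤ (H : ℝ) ^ ((q : ℝ) + 3 - η) → ∀ E : Finset ℕ, (∀ e ∈ E, e < K) →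
      |(cn s (fun x => x ∈ Ev f a b m K E) : ℝ) / (cn s (fun x => x ∈ Icc a b) : ℝ) - (E.card : ℝ) / K| ≤
        (H : ℝ) ^ (-c) := by
  classical
  obtain ⟨c1, hc1, H1, hlaw⟩ := law_set q (η / 2) (by positivity)
  obtain ⟨C1, hC1, hoff⟩ := h.ev_off
  obtain ⟨C2, hC2, hshare⟩ := h.share q
  have hI := I0_pos q
  obtain ⟨m0, hm0⟩ : ∃ m0 : ℝ, m0 = ∫ t in Icc a b, ph (q + 1) t := ⟨_, rfl⟩
  have hm0pos : 0 < m0 := by rw [hm0]; exact mass_pos h.hab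
  obtain ⟨μ0, hμ0⟩ : ∃ μ0 : ℝ, μ0 = m0 / I0 q := ⟨_, rfl⟩
  have hμ0pos : 0 < μ0 := by rw [hμ0]; positivity
  obtain ⟨ρ, hρ⟩ : ∃ ρ : ℝ, ρ = min c1 η := ⟨_, rfl⟩
  have hρ0 : 0 < ρ := by rw [hρ]; exact lt_min hc1 hη
  have hρ1 : ρ ≤ c1 := by rw [hρ]; exact min_le_left _ _
  have hρ2 : ρ ≤ η := by rw [hρ]; exact min_le_right _ _
  obtain ⟨C3, hC3⟩ : ∃ C3 : ℝ, C3 = (2 + C2 / I0 q) * (2 / μ0) := ⟨_, rfl⟩
  have hC30 : 0 ≤ C3 := by rw [hC3]; positivity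
  have hev : ∀ᶠ H : ℕ in atTop, C3 ≤ (H : ℝ) ^ (ρ / 2) ∧ 2 / μ0 ≤ (H : ℝ) ^ ρ ∧ C1 ≤ (H : ℝ) ^ (η / 2) ∧
      H1 ≤ H ∧ 2 ≤ H := by
    filter_upwards [ev_rpow C3 (ρ / 2) (by positivity), ev_rpow (2 / μ0) ρ hρ0,
      ev_rpow C1 (η / 2) (by positivity), eventually_ge_atTop H1, eventually_ge_atTop 2] with H a1 a2 a3 a4 a5
    exact ⟨a1, a2, a3, a4, a5⟩
  obtain ⟨H0, hH0⟩ := Filter.eventually_atTop.1 hev
  refine ⟨ρ / 2, by positivity, H0, fun H hH s hs => ?_⟩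
  obtain ⟨g1, g2, g3, g4, g5⟩ := hH0 H hH
  have hHR2 : (2 : ℝ) ≤ H := by exact_mod_cast g5
  have hHR : (1 : ℝ) ≤ H := by linarith
  have hHpos : (0 : ℝ) < H := by linarith
  have hq0 : (0 : ℝ) ≤ q := Nat.cast_nonneg q
  obtain ⟨w, hw⟩ : ∃ w : ℝ, w = (H : ℝ) ^ (-ρ) := ⟨_, rfl⟩
  have hw0 : 0 < w := by rw [hw]; positivity
  have hwμ : w ≤ μ0 / 2 := by
    rw [hw, Real.rpow_neg hHpos.le, inv_le_comm₀ (by positivity) (by positivity), inv_div]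
    exact g2
  have hδ : (H : ℝ) ^ (-c1) ≤ w := by
    rw [hw]
    exact Real.rpow_le_rpow_of_exponent_le hHR (by linarith)
  -- the window
  have hQ0 : ((({a, b} : Finset ℝ).card : ℕ) : ℝ) ≤ (H : ℝ) ^ ((q : ℝ) + 3 - η / 2) := by
    have h1 : ((({a, b} : Finset ℝ).card : ℕ) : ℝ) ≤ 2 := by exact_mod_cast Finset.card_le_two
    refine h1.trans (hHR2.trans ?_)
    calc (H : ℝ) = (H : ℝ) ^ (1 : ℝ) := (Real.rpow_one _).symm
      _ ≤ _ := Real.rpow_le_rpow_of_exponent_le hHR (by linarith)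
  obtain ⟨hspos, hw1⟩ := hlaw H g4 {a, b} hQ0 (Icc a b) (off_Icc a b) s hs
  have hNpos : (0 : ℝ) < s.card := by exact_mod_cast hspos
  obtain ⟨p0, hp0⟩ : ∃ p0 : ℝ, p0 = (cn s (fun x => x ∈ Icc a b) : ℝ) / s.card := ⟨_, rfl⟩
  rw [← hp0, ← hm0, ← hμ0] at hw1
  have hp0ge : μ0 / 2 ≤ p0 := by
    have := (abs_le.1 hw1).1
    linarith
  have hp0pos : 0 < p0 := by linarith
  have hcn0 : (0 : ℝ) < (cn s (fun x => x ∈ Icc a b) : ℝ) := by
    by_contra hcon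
    have h1 : (cn s (fun x => x ∈ Icc a b) : ℝ) = 0 :=
      le_antisymm (not_lt.1 hcon) (Nat.cast_nonneg _)
    rw [h1, zero_div] at hp0
    linarith
  refine ⟨by exact_mod_cast hcn0, fun m K hm hK hmK E hE => ?_⟩
  have hm1 : (1 : ℝ) ≤ m := (Real.one_le_rpow hHR hη.le).trans hm
  have hm1' : 1 ≤ m := by exact_mod_cast hm1
  have hmpos : (0 : ℝ) < m := by linarith
  have hK0 : (0 : ℝ) < K := by exact_mod_cast hK
  obtain ⟨Q, hQcard, hQoff⟩ := hoff m K hm1' hK E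
  have hQ : (Q.card : ℝ) ≤ (H : ℝ) ^ ((q : ℝ) + 3 - η / 2) := by
    refine hQcard.trans ?_
    push_cast
    calc C1 * ((m : ℝ) * K) ≤ (H : ℝ) ^ (η / 2) * (H : ℝ) ^ ((q : ℝ) + 3 - η) :=
          mul_le_mul g3 hmK (by positivity) (by positivity)
      _ = _ := by
          rw [← Real.rpow_add hHpos]
          congr 1
          ring
  have hw2 := (hlaw H g4 Q hQ (Ev f a b m K E) hQoff s hs).2
  obtain ⟨p, hp⟩ : ∃ p : ℝ, p = (cn s (fun x => x ∈ Ev f a b m K E) : ℝ) / s.card := ⟨_, rfl⟩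
  have hsh := hshare m K hm1' hK E hE
  rw [← hm0] at hsh
  obtain ⟨mV, hmV⟩ : ∃ mV : ℝ, mV = ∫ t in Ev f a b m K E, ph (q + 1) t := ⟨_, rfl⟩
  have hmV' : mV = ∫ t in Icc a b ∩ f ⁻¹' SE m K E, ph (q + 1) t := hmV
  rw [← hmV'] at hsh
  rw [← hp, ← hmV] at hw2
  obtain ⟨e, he⟩ : ∃ e : ℝ, e = (E.card : ℝ) / K := ⟨_, rfl⟩
  have hcardE : (E.card : ℝ) ≤ K := by
    have h1 : E ⊆ Finset.range K := fun e he => Finset.mem_range.2 (hE e he)
    have h2 := Finset.card_le_card h1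
    rw [Finset.card_range] at h2
    exact_mod_cast h2
  have he1 : e ≤ 1 := by rw [he]; rwa [div_le_one hK0]
  have he0 : 0 ≤ e := by rw [he]; positivity
  rw [← he] at hsh ⊢
  have hsh2 : |mV / I0 q - e * μ0| ≤ C2 / I0 q * w := by
    have h1 : mV / I0 q - e * μ0 = (mV - e * m0) / I0 q := by
      rw [hμ0]; ring
    rw [h1, abs_div, abs_of_pos hI, div_mul_eq_mul_div]
    refine div_le_div_of_nonneg_right (hsh.trans ?_) hI.le
    rw [div_eq_mul_inv]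
    refine mul_le_mul_of_nonneg_left ?_ hC2
    rw [hw, Real.rpow_neg hHpos.le]
    exact inv_anti₀ (by positivity) ((Real.rpow_le_rpow_of_exponent_le hHR hρ2).trans hm)
  have hmain : |p - e * p0| ≤ (2 + C2 / I0 q) * w := by
    have h1 : p - e * p0 = (p - mV / I0 q) + (mV / I0 q - e * μ0) + -(e * (p0 - μ0)) := by ring
    rw [h1]
    refine (abs_add_three _ _ _).trans ?_
    rw [abs_neg, abs_mul, abs_of_nonneg he0]
    have h2 : e * |p0 - μ0| ≤ w := (mul_le_of_le_one_left (abs_nonneg _) he1).trans (hw1.trans hδ)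
    linarith [hw2.trans hδ]
  have hratio : (cn s (fun x => x ∈ Ev f a b m K E) : ℝ) / (cn s (fun x => x ∈ Icc a b) : ℝ) = p / p0 := by
    rw [hp, hp0]
    field_simp
  rw [hratio]
  have h2 : p / p0 - e = (p - e * p0) / p0 := by field_simp
  rw [h2, abs_div, abs_of_pos hp0pos]
  calc |p - e * p0| / p0 ≤ (2 + C2 / I0 q) * w / (μ0 / 2) :=
        div_le_div₀ (by positivity) hmain (by positivity) hp0ge
    _ = C3 * w := by rw [hC3]; field_simp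
    _ ≤ (H : ℝ) ^ (ρ / 2) * w := mul_le_mul_of_nonneg_right g1 hw0.le
    _ = _ := by
        rw [hw, ← Real.rpow_add hHpos]
        congr 1
        ring

/-- **the digits of the values of a nice function at random algebraic numbers** -/
theorem Nice.law_val (h : Nice f F a b lam L) (q : ℕ) (η : ℝ) (hη : 0 < η) :
    ∃ c : ℝ, 0 < c ∧ ∃ H0 : ℕ, ∀ H : ℕ, H0 ≤ H → ∀ s : Finset ℝ, (∀ x, x ∈ s ↔ x ∈ Alg (q + 2) H) →
      0 < cn s (fun x => x ∈ Icc a b) ∧ ∀ m K : ℕ, (H : ℝ) ^ η ≤ m → 1 ≤ K →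
      (m : ℝ) * K ≤ (H : ℝ) ^ ((q : ℝ) + 3 - η) → ∀ E : Finset ℕ, (∀ e ∈ E, e < K) →
      |(cn s (fun x => x ∈ Ev f a b m K E) : ℝ) / (cn s (fun x => x ∈ Icc a b) : ℝ) - (E.card : ℝ) / K| ≤
        (H : ℝ) ^ (-c) := by
  obtain ⟨c, hc, H0, hlaw⟩ := h.law_val1 q (min η 1) (lt_min hη one_pos) (min_le_right _ _)
  refine ⟨c, hc, max H0 1, fun H hH s hs => ?_⟩
  have h1 : H0 ≤ H := (le_max_left _ _).trans hH
  have h2 : 1 ≤ H := (le_max_right _ _).trans hH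
  have hHR : (1 : ℝ) ≤ H := by exact_mod_cast h2
  have hη1 : min η 1 ≤ η := min_le_left _ _
  obtain ⟨h3, h4⟩ := hlaw H h1 s hs
  refine ⟨h3, fun m K hm hK hmK E hE => ?_⟩
  exact h4 m K ((Real.rpow_le_rpow_of_exponent_le hHR hη1).trans hm) hK
    (hmK.trans (Real.rpow_le_rpow_of_exponent_le hHR (by linarith))) E hE

lemma floor_fract (m K : ℕ) (hK : 1 ≤ K) (x : ℝ) :
    ⌊(K : ℝ) * Int.fract ((m : ℝ) * x)⌋₊ = (⌊((m * K : ℕ) : ℝ) * x⌋ % (K : ℤ)).toNat := by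
  have hKR : (0 : ℝ) < K := by exact_mod_cast hK
  rw [← Int.floor_toNat]
  congr 1
  have h1 : (K : ℝ) * Int.fract ((m : ℝ) * x) = ((m * K : ℕ) : ℝ) * x - ((⌊(m : ℝ) * x⌋ * K : ℤ) : ℝ) := by
    unfold Int.fract
    push_cast
    ring
  have h2 : ⌊(K : ℝ) * Int.fract ((m : ℝ) * x)⌋ = ⌊((m * K : ℕ) : ℝ) * x⌋ - ⌊(m : ℝ) * x⌋ * K := by
    rw [h1, Int.floor_sub_intCast]
  have h3 : 0 ≤ ⌊(K : ℝ) * Int.fract ((m : ℝ) * x)⌋ :=
    Int.floor_nonneg.2 (mul_nonneg hKR.le (Int.fract_nonneg _))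
  have h4 : ⌊(K : ℝ) * Int.fract ((m : ℝ) * x)⌋ < K := by
    rw [Int.floor_lt]
    have := mul_lt_mul_of_pos_left (Int.fract_lt_one ((m : ℝ) * x)) hKR
    push_cast
    linarith
  rw [← Int.emod_eq_of_lt h3 h4, h2, Int.sub_mul_emod_self_right]

end Pool.Agent.W5h30.LL
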